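import Pool.Agent.ALC.Defs

/-!
The order of the Galois group of a plane curve over the line, and the constant of the height bound.
-/

open Polynomial

namespace GalH

/-- The order of the Galois group of `F(x, y)` over `k(x)` (the degree of the splitting field, that
is, for separable `F`, of the Galois closure of the function field over `k(x)`). -/
noncomputable def galOrd {k : Type*} [Field k] (F : k[X][X]) : ℕ :=
  Module.finrank (RatFunc k) (F.map (algebraMap k[X] (RatFunc k))).SplittingField

/-- The order of the geometric monodromy group: the order of the Galois group of `F` over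
`k'(x)`, `k'` the algebraic closure of `k`. -/
noncomputable def monOrd {k : Type*} [Field k] (F : k[X][X]) : ℕ :=
  galOrd (ALC.bc (algebraMap k (AlgebraicClosure k)) F)

/-- The greatest common divisor of the order of the geometric monodromy group and of
`lcm(1, ..., d)`, `d` the degree of the cover. -/
noncomputable def wild {k : Type*} [Field k] (F : k[X][X]) : ℕ :=
  Nat.gcd (monOrd F) ((Finset.Icc 1 F.natDegree).lcm id)

/-- `log D + Σ_{p | D} (log p) / (p - 1)`. -/
noncomputable def loss (D : ℕ) : ℝ :=
  Real.log D + ∑ p ∈ D.primeFactors, Real.log p / ((p : ℝ) - 1)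

/-- The cover has good reduction at `p`, and `b` is not congruent to a branch point: `b` is
`p`-integral, the `b - a`, `a ∈ A`, are units at all places over `p`, and there are `d` functions,
integral over the polynomials with `p`-integral coefficients, whose discriminant is a `p`-unit times
a product of factors `x - a`, `a ∈ A`. -/
def GoodAt {K : Type*} [Field K] (F : K[X][X]) (A : Finset K) (b : K) (p : ℕ) [Fact p.Prime] :
    Prop :=
  (∀ τ : K →+* ℂ_[p], ‖τ b‖ ≤ 1 ∧ ∀ a ∈ A, ‖τ (b - a)‖ = 1) ∧
  ∃ (θ : Fin F.natDegree → ALC.FF F) (c : K) (s : Multiset K),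
    (∀ i, ∃ q : K[X][X], q.Monic ∧ (∀ j k, ∀ τ : K →+* ℂ_[p], ‖τ ((q.coeff j).coeff k)‖ ≤ 1) ∧
      q.eval₂ (algebraMap K[X] (ALC.FF F)) (θ i) = 0) ∧
    Algebra.discr (RatFunc K) θ =
      algebraMap K[X] (RatFunc K) (C c * (s.map fun a => X - C a).prod) ∧
    (∀ a ∈ s, a ∈ A) ∧ ∀ τ : K →+* ℂ_[p], ‖τ c‖ = 1

/-- `GoodAt`, for a prime number `p`. -/
def IsGood {K : Type*} [Field K] (F : K[X][X]) (A : Finset K) (b : K) (p : ℕ) : Prop :=
  ∃ h : p.Prime, haveI : Fact p.Prime := ⟨h⟩; GoodAt F A b p

open scoped Classical in
/-- `D`: the greatest common divisor of the order of the geometric monodromy group and of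
`lcm(1, ..., d)`, without its prime factors at which the cover has good reduction. -/
noncomputable def lossNum {K : Type*} [Field K] (F : K[X][X]) (A : Finset K) (b : K) : ℕ :=
  ∏ p ∈ (wild F).primeFactors.filter (fun p => ¬ IsGood F A b p), p ^ (wild F).factorization p

/-- The absolute logarithmic Weil height of `a`. -/
noncomputable def absHeight (K : Type*) [Field K] [NumberField K] (a : K) : ℝ :=
  (1 / (Module.finrank ℚ K : ℝ)) *
    (∑ σ : K →+* ℂ, Real.log (max 1 ‖σ a‖) +
    ∑ᶠ p : Nat.Primes, haveI : Fact (p : ℕ).Prime := ⟨p.2⟩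
      ∑ τ : K →+* ℂ_[(p : ℕ)], Real.log (max 1 ‖τ a‖))

end GalH
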