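import Pool.Agent.ALC.Base
import Pool.Agent.ALC.Ram
import Pool.Agent.GalH.Defs

/-!
Covers with good reduction at p.

`gauss_disc`: A integrally closed domain, K = Frac A, L/K finite separable; theta_i in L integral over A,
[L : K] of them, discriminant a unit of A. Then every y in the trace dual of the integral closure is
integral. Proof: the theta_i are a K-basis (discriminant not 0), y = sum x_j theta_j with x_j in K,
sum_j Tr(theta_i theta_j) x_j = Tr(theta_i y) in A for all i; the trace matrix has entries in A and unit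
determinant, so x_j in A (adjugate).

`good_base`: the data over O[s], O = OO tau_L, after the substitution x = b + eta s. Proof: as
`ALC.base_change` (Pool/Agent/ALC/Base.lean; COPY its private lemmas repr_comm, trace_comm, discr_comm,
sub_inj and its proof, the homomorphism Phi : FF F -> FF (F.map (sub j (j b) (j eta))) over
psi : RatFunc K -> RatFunc L): theta'' = Phi theta. Integrality: the monic q in K[X][X] with p-integral
coefficients is mapped by `sub j (j b) (j eta)` (|b|, |eta| <= 1 at tau) to a monic polynomial whose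
coefficients are in the image of O[X] (`Polynomial.lifts`, `lifts_and_natDegree_eq_and_monic` as in
PM.scale_monic). Discriminant: C c * prod (X - C a) goes to C (j c) * prod (C (j (b - a)) + C (j eta) X),
all of j c, j (b - a) are units of O (norm 1).
-/

open Polynomial

namespace GalH

open ALC

theorem gauss_disc {A K L ι : Type*} [CommRing A] [IsDomain A] [IsIntegrallyClosed A] [Field K]
    [Algebra A K] [IsFractionRing A K] [Field L] [Algebra K L] [FiniteDimensional K L]
    [Algebra.IsSeparable K L] [Algebra A L] [IsScalarTower A K L] [Fintype ι] [DecidableEq ι]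
    (θ : ι → L) (hθ : ∀ i, IsIntegral A (θ i)) (hι : Fintype.card ι = Module.finrank K L)
    (u : Aˣ) (hd : Algebra.discr K θ = algebraMap A K u) (y : L)
    (hy : ∀ c : L, IsIntegral A c → ∃ a : A, Algebra.trace K L (y * c) = algebraMap A K a) :
    IsIntegral A y := by
  have hdne : Algebra.discr K θ ≠ 0 := by
    rw [hd]
    exact (u.isUnit.map (algebraMap A K)).ne_zero
  have hli : LinearIndependent K θ := by
    by_contra h
    exact hdne (Algebra.discr_zero_of_not_linearIndependent K h)
  have hne : Nonempty ι := Fintype.card_pos_iff.1 (by rw [hι]; exact Module.finrank_pos)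
  let b := basisOfLinearIndependentOfCardEqFinrank hli hι
  have hb : ∀ i, b i = θ i := fun i =>
    congrFun (coe_basisOfLinearIndependentOfCardEqFinrank hli hι) i
  have hM : ∀ i j, ∃ m : A, Algebra.trace K L (θ i * θ j) = algebraMap A K m := by
    intro i j
    have h1 : IsIntegral A (Algebra.trace K L (θ i * θ j)) :=
      Algebra.isIntegral_trace ((hθ i).mul (hθ j))
    obtain ⟨m, hm⟩ := IsIntegrallyClosed.isIntegral_iff.1 h1
    exact ⟨m, hm.symm⟩
  choose m hm using hM
  have ha : ∀ i, ∃ a : A, Algebra.trace K L (y * θ i) = algebraMap A K a := fun i => hy _ (hθ i)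
  choose a ha using ha
  let M0 : Matrix ι ι A := Matrix.of m
  have hM0 : M0.map (algebraMap A K) = Algebra.traceMatrix K θ := by
    ext i j
    change algebraMap A K (m i j) = _
    rw [← hm, Algebra.traceMatrix_apply, Algebra.traceForm_apply]
  have hdet : M0.det = u := by
    apply IsFractionRing.injective A K
    rw [RingHom.map_det, RingHom.mapMatrix_apply, hM0, ← Algebra.discr_def, hd]
  have hu : IsUnit M0.det := hdet ▸ u.isUnit
  have hr : M0.mulVec (M0⁻¹.mulVec a) = a := by
    rw [Matrix.mulVec_mulVec, Matrix.mul_nonsing_inv _ hu, Matrix.one_mulVec]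
  generalize M0⁻¹.mulVec a = r at hr
  have hx : ∑ j, b.repr y j • θ j = y := by
    conv_rhs => rw [← b.sum_repr y]
    exact Finset.sum_congr rfl fun j _ => by rw [hb]
  have h1 : (Algebra.traceMatrix K θ).mulVec (fun j => b.repr y j) =
      fun i => algebraMap A K (a i) := by
    funext i
    have h0 : Algebra.trace K L (y * θ i) =
        ∑ j, Algebra.trace K L (b.repr y j • θ j * θ i) := by
      rw [← map_sum, ← Finset.sum_mul, hx]
    rw [← ha, h0, Matrix.mulVec, dotProduct]
    refine Finset.sum_congr rfl fun j _ => ?_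
    rw [Algebra.traceMatrix_apply, Algebra.traceForm_apply, smul_mul_assoc, map_smul,
      smul_eq_mul, mul_comm (θ i), mul_comm]
  have h2 : (Algebra.traceMatrix K θ).mulVec (fun j => algebraMap A K (r j)) =
      fun i => algebraMap A K (a i) := by
    funext i
    rw [← hM0, ← hr]
    simp only [Matrix.mulVec, dotProduct, map_sum, map_mul, Matrix.map_apply]
  have h3 : (fun j => b.repr y j) = fun j => algebraMap A K (r j) := by
    have h4 : (Algebra.traceMatrix K θ).mulVec
        ((fun j => b.repr y j) - fun j => algebraMap A K (r j)) = 0 := by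
      rw [Matrix.mulVec_sub, h1, h2, sub_self]
    have h5 := Matrix.eq_zero_of_mulVec_eq_zero (by rw [← Algebra.discr_def]; exact hdne) h4
    exact sub_eq_zero.1 h5
  rw [← hx]
  refine IsIntegral.sum _ fun j _ => ?_
  rw [show b.repr y j = algebraMap A K (r j) from congrFun h3 j, algebraMap_smul]
  exact (hθ j).smul (r j)

private theorem good_repr_comm {R S R' S' ι : Type*} [CommRing R] [CommRing S] [CommRing R']
    [CommRing S'] [Algebra R S] [Algebra R' S'] [Fintype ι] (β : Module.Basis ι R S)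
    (β' : Module.Basis ι R' S') (ψ : R →+* R') (Φ : S →+* S') (hb : ∀ i, Φ (β i) = β' i)
    (hψ : ∀ r, Φ (algebraMap R S r) = algebraMap R' S' (ψ r)) (s : S) (i : ι) :
    β'.repr (Φ s) i = ψ (β.repr s i) := by
  classical
  have h1 : Φ s = ∑ k, ψ (β.repr s k) • β' k := by
    conv_lhs => rw [← β.sum_repr s]
    rw [map_sum]
    refine Finset.sum_congr rfl fun k _ => ?_
    rw [Algebra.smul_def, map_mul, hψ, hb, Algebra.smul_def]
  rw [h1, β'.repr_sum_self]

private theorem good_trace_comm {R S R' S' ι : Type*} [CommRing R] [CommRing S] [CommRing R']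
    [CommRing S'] [Algebra R S] [Algebra R' S'] [Fintype ι] (β : Module.Basis ι R S)
    (β' : Module.Basis ι R' S') (ψ : R →+* R') (Φ : S →+* S') (hb : ∀ i, Φ (β i) = β' i)
    (hψ : ∀ r, Φ (algebraMap R S r) = algebraMap R' S' (ψ r)) (s : S) :
    Algebra.trace R' S' (Φ s) = ψ (Algebra.trace R S s) := by
  classical
  rw [Algebra.trace_eq_matrix_trace β', Algebra.trace_eq_matrix_trace β, Matrix.trace,
    Matrix.trace, map_sum]
  refine Finset.sum_congr rfl fun i _ => ?_
  rw [Matrix.diag_apply, Matrix.diag_apply, Algebra.leftMulMatrix_eq_repr_mul,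
    Algebra.leftMulMatrix_eq_repr_mul, ← hb, ← map_mul, good_repr_comm β β' ψ Φ hb hψ]

private theorem good_discr_comm {R S R' S' ι κ : Type*} [CommRing R] [CommRing S] [CommRing R']
    [CommRing S'] [Algebra R S] [Algebra R' S'] [Fintype ι] [Fintype κ] [DecidableEq κ]
    (β : Module.Basis ι R S)
    (β' : Module.Basis ι R' S') (ψ : R →+* R') (Φ : S →+* S') (hb : ∀ i, Φ (β i) = β' i)
    (hψ : ∀ r, Φ (algebraMap R S r) = algebraMap R' S' (ψ r)) (θ : κ → S) :
    Algebra.discr R' (fun k => Φ (θ k)) = ψ (Algebra.discr R θ) := by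
  rw [Algebra.discr_def, Algebra.discr_def, RingHom.map_det]
  congr 1
  ext i k
  rw [RingHom.mapMatrix_apply, Matrix.map_apply, Algebra.traceMatrix_apply,
    Algebra.traceMatrix_apply, Algebra.traceForm_apply, Algebra.traceForm_apply, ← map_mul,
    good_trace_comm β β' ψ Φ hb hψ]

private theorem good_sub_inj {K L : Type*} [Field K] [Field L] (j : K →+* L) (b η : L) (hη : η ≠ 0) :
    Function.Injective (sub j b η) := by
  rw [injective_iff_map_eq_zero]
  intro p hp
  have h1 : (p.map j).comp (C b + C η * X) = 0 := by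
    rw [← hp]
    simp [sub, Polynomial.comp, Polynomial.eval₂_map]
  rw [Polynomial.comp_eq_zero_iff] at h1
  rcases h1 with h1 | ⟨-, h1⟩
  · exact (Polynomial.map_eq_zero_iff j.injective).1 h1
  · exfalso
    have h2 := congrArg (fun q => Polynomial.coeff q 1) h1
    simp only [coeff_add, coeff_C_mul, coeff_X_one, mul_one, coeff_C_succ, zero_add] at h2
    exact hη h2

private theorem oo_unit {L : Type*} [Field L] {p : ℕ} [Fact p.Prime] (τ : L →+* ℂ_[p]) (x : L)
    (hx : ‖τ x‖ = 1) : ∃ u : OO τ, IsUnit u ∧ (u : L) = x := by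
  have hx0 : x ≠ 0 := by
    rintro rfl
    simp at hx
  refine ⟨⟨x, hx.le⟩, ?_, rfl⟩
  refine IsUnit.of_mul_eq_one ⟨x⁻¹, ?_⟩ ?_
  · change ‖τ x⁻¹‖ ≤ 1
    rw [map_inv₀, norm_inv, hx, inv_one]
  · apply Subtype.ext
    exact mul_inv_cancel₀ hx0

/-- polynomials with integral coefficients stay so after the substitution -/
private theorem sub_lift {K L : Type*} [Field K] [Field L] {p : ℕ} [Fact p.Prime]
    (τ : K →+* ℂ_[p]) (τL : L →+* ℂ_[p]) (j : K →+* L) (hj : ∀ x, τL (j x) = τ x) (b η : K)
    (hb : ‖τ b‖ ≤ 1) (hη : ‖τ η‖ ≤ 1) (P : K[X]) (hP : ∀ k, ‖τ (P.coeff k)‖ ≤ 1) :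
    ∃ Q : (OO τL)[X], Q.map (algebraMap (OO τL) L) = sub j (j b) (j η) P := by
  have hmem : ∀ x, ‖τ x‖ ≤ 1 → j x ∈ OO τL := fun x hx => by
    change ‖τL (j x)‖ ≤ 1
    rw [hj]
    exact hx
  refine ⟨∑ k ∈ Finset.range (P.natDegree + 1),
    C (⟨j (P.coeff k), hmem _ (hP k)⟩ : OO τL) *
      (C (⟨j b, hmem _ hb⟩ : OO τL) + C (⟨j η, hmem _ hη⟩ : OO τL) * X) ^ k, ?_⟩
  rw [Polynomial.map_sum, sub, Polynomial.coe_eval₂RingHom, Polynomial.eval₂_eq_sum_range]
  refine Finset.sum_congr rfl fun k _ => ?_
  rw [Polynomial.map_mul, Polynomial.map_pow, Polynomial.map_add, Polynomial.map_mul,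
    Polynomial.map_C, Polynomial.map_C, Polynomial.map_C, Polynomial.map_X]
  rfl

/-- the discriminant after the substitution -/
private theorem sub_unit {K L : Type*} [Field K] [Field L] {p : ℕ} [Fact p.Prime]
    (τ : K →+* ℂ_[p]) (τL : L →+* ℂ_[p]) (j : K →+* L) (hj : ∀ x, τL (j x) = τ x) (b η : K)
    (hη : ‖τ η‖ ≤ 1) (A : Finset K) (hA : ∀ a ∈ A, ‖τ (b - a)‖ = 1) (s : Multiset K)
    (hs : ∀ a ∈ s, a ∈ A) :
    ∃ Q : (OO τL)[X], IsUnit (Q.coeff 0) ∧
      Q.map (algebraMap (OO τL) L) = sub j (j b) (j η) (s.map fun a => X - C a).prod := by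
  induction s using Multiset.induction_on with
  | empty =>
    refine ⟨1, ?_, ?_⟩
    · rw [coeff_one_zero]
      exact isUnit_one
    · rw [Multiset.map_zero, Multiset.prod_zero, map_one, Polynomial.map_one]
  | cons a s ih =>
    obtain ⟨Q, hQ, hQm⟩ := ih fun x hx => hs x (Multiset.mem_cons_of_mem hx)
    obtain ⟨u, hu, huv⟩ := oo_unit τL (j (b - a)) (by
      rw [hj]
      exact hA a (hs a (Multiset.mem_cons_self a s)))
    have hη' : j η ∈ OO τL := by
      change ‖τL (j η)‖ ≤ 1
      rw [hj]
      exact hη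
    refine ⟨(C u + C (⟨j η, hη'⟩ : OO τL) * X) * Q, ?_, ?_⟩
    · rw [mul_coeff_zero]
      refine IsUnit.mul ?_ hQ
      rw [coeff_add, coeff_C_zero, coeff_C_mul, coeff_X_zero, mul_zero, add_zero]
      exact hu
    · rw [Multiset.map_cons, Multiset.prod_cons, map_mul, Polynomial.map_mul, hQm]
      congr 1
      rw [Polynomial.map_add, Polynomial.map_mul, Polynomial.map_C, Polynomial.map_C,
        Polynomial.map_X, map_sub]
      have e1 : algebraMap (OO τL) L u = j b - j a := by
        rw [← map_sub]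
        exact huv
      have e2 : algebraMap (OO τL) L ⟨j η, hη'⟩ = j η := rfl
      rw [e1, e2]
      simp only [sub, Polynomial.coe_eval₂RingHom, Polynomial.eval₂_X, Polynomial.eval₂_C,
        RingHom.comp_apply, C_sub]
      ring

theorem good_base {K L : Type*} [Field K] [CharZero K] [Field L] (p : ℕ) [Fact p.Prime]
    (τ : K →+* ℂ_[p]) (τL : L →+* ℂ_[p]) (j : K →+* L) (hj : τL.comp j = τ)
    (F : K[X][X]) (hF : F.Monic) (A : Finset K) (b : K) (hgood : GoodAt F A b p)
    (η : K) (hη0 : η ≠ 0) (hη : ‖τ η‖ ≤ 1) :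
    ∃ θ : Fin (F.map (sub j (j b) (j η))).natDegree → FF (F.map (sub j (j b) (j η))),
      (∀ i, ∃ q : (OO τL)[X][X], q.Monic ∧
        q.eval₂ ((algebraMap L[X] (FF (F.map (sub j (j b) (j η))))).comp
          (mapRingHom (algebraMap (OO τL) L))) (θ i) = 0) ∧
      ∃ q : (OO τL)[X], IsUnit (q.coeff 0) ∧
        Algebra.discr (RatFunc L) θ = algebraMap L[X] (RatFunc L) (q.map (algebraMap (OO τL) L)) := by
  classical
  have hjx : ∀ x, τL (j x) = τ x := fun x => by
    rw [← hj]
    rfl
  obtain ⟨hbA, θ, c, s, hθ, hd, hs, hc⟩ := hgood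
  obtain ⟨hb1, hbA1⟩ := hbA τ
  have hηL : j η ≠ 0 := (map_ne_zero j).2 hη0
  have key : ∀ d' : ℕ, d' = F.natDegree →
      ∃ θ' : Fin d' → FF (F.map (sub j (j b) (j η))),
      (∀ i, ∃ q : (OO τL)[X][X], q.Monic ∧
        q.eval₂ ((algebraMap L[X] (FF (F.map (sub j (j b) (j η))))).comp
          (mapRingHom (algebraMap (OO τL) L))) (θ' i) = 0) ∧
      ∃ q : (OO τL)[X], IsUnit (q.coeff 0) ∧
        Algebra.discr (RatFunc L) θ' =
          algebraMap L[X] (RatFunc L) (q.map (algebraMap (OO τL) L)) := by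
    intro d' hd'
    subst hd'
    have hinj : Function.Injective ((algebraMap L[X] (RatFunc L)).comp (sub j (j b) (j η))) := by
      rw [RingHom.coe_comp]
      exact (RatFunc.algebraMap_injective L).comp (good_sub_inj j (j b) (j η) hηL)
    let ψ : RatFunc K →+* RatFunc L := IsFractionRing.lift hinj
    have hψ : ∀ p : K[X], ψ (algebraMap K[X] (RatFunc K) p) =
        algebraMap L[X] (RatFunc L) (sub j (j b) (j η) p) := fun p =>
      IsFractionRing.lift_algebraMap hinj p
    have hψ' : ψ.comp (algebraMap K[X] (RatFunc K)) =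
        (algebraMap L[X] (RatFunc L)).comp (sub j (j b) (j η)) := RingHom.ext hψ
    set g : (RatFunc K)[X] := F.map (algebraMap K[X] (RatFunc K)) with hg
    set g' : (RatFunc L)[X] := (F.map (sub j (j b) (j η))).map (algebraMap L[X] (RatFunc L)) with hg'
    have hgg : g.map ψ = g' := by
      rw [hg, hg', Polynomial.map_map, Polynomial.map_map, hψ']
    have hgm : g.Monic := hF.map _
    have hgm' : g'.Monic := (hF.map _).map _
    have hroot : g.eval₂ ((AdjoinRoot.of g').comp ψ) (AdjoinRoot.root g') = 0 := by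
      rw [← Polynomial.eval₂_map, hgg]
      exact AdjoinRoot.eval₂_root g'
    let Φ : AdjoinRoot g →+* AdjoinRoot g' :=
      AdjoinRoot.lift ((AdjoinRoot.of g').comp ψ) (AdjoinRoot.root g') hroot
    have hΦr : Φ (AdjoinRoot.root g) = AdjoinRoot.root g' := AdjoinRoot.lift_root hroot
    have hΦa : ∀ r, Φ (algebraMap (RatFunc K) (AdjoinRoot g) r) =
        algebraMap (RatFunc L) (AdjoinRoot g') (ψ r) := by
      intro r
      rw [AdjoinRoot.algebraMap_eq, AdjoinRoot.algebraMap_eq]
      exact AdjoinRoot.lift_of hroot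
    have hΦp : ∀ p : K[X], Φ (algebraMap K[X] (AdjoinRoot g) p) =
        algebraMap L[X] (AdjoinRoot g') (sub j (j b) (j η) p) := by
      intro p
      rw [IsScalarTower.algebraMap_apply K[X] (RatFunc K) (AdjoinRoot g), hΦa, hψ,
        ← IsScalarTower.algebraMap_apply L[X] (RatFunc L) (AdjoinRoot g')]
    let pb := AdjoinRoot.powerBasis' hgm
    let pb' := AdjoinRoot.powerBasis' hgm'
    have hdim : pb'.dim = pb.dim := by
      change g'.natDegree = g.natDegree
      rw [← hgg, hgm.natDegree_map]
    let β' : Module.Basis (Fin pb.dim) (RatFunc L) (AdjoinRoot g') :=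
      pb'.basis.reindex (finCongr hdim)
    have hb : ∀ i, Φ (pb.basis i) = β' i := by
      intro i
      rw [pb.basis_eq_pow, map_pow, Module.Basis.reindex_apply, pb'.basis_eq_pow]
      change Φ (AdjoinRoot.root g) ^ (i : ℕ) = AdjoinRoot.root g' ^ (i : ℕ)
      rw [hΦr]
    refine ⟨fun i => Φ (θ i), ?_, ?_⟩
    · intro i
      obtain ⟨q, hqm, hqi, hq⟩ := hθ i
      have hl : q.map (sub j (j b) (j η)) ∈ lifts (mapRingHom (algebraMap (OO τL) L)) := by
        rw [lifts_iff_coeff_lifts]
        intro k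
        obtain ⟨Q, hQ⟩ := sub_lift τ τL j hjx b η hb1 hη (q.coeff k) fun l => hqi k l τ
        refine ⟨Q, ?_⟩
        rw [coeff_map, coe_mapRingHom, hQ]
      obtain ⟨q', hq', -, hm⟩ := lifts_and_degree_eq_and_monic hl (hqm.map _)
      refine ⟨q', hm, ?_⟩
      have h1 := congrArg Φ hq
      rw [map_zero, Polynomial.hom_eval₂] at h1
      rw [← Polynomial.eval₂_map, hq', Polynomial.eval₂_map, ← h1]
      congr 1
      exact RingHom.ext fun p => (hΦp p).symm
    · obtain ⟨Q, hQ0, hQ⟩ := sub_unit τ τL j hjx b η hη A hbA1 s hs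
      obtain ⟨u, hu, huv⟩ := oo_unit τL (j c) (by
        rw [hjx]
        exact hc τ)
      refine ⟨C u * Q, ?_, ?_⟩
      · rw [coeff_C_mul]
        exact hu.mul hQ0
      · have h2 := good_discr_comm pb.basis β' ψ Φ hb hΦa θ
        rw [hd, hψ] at h2
        rw [h2, map_mul, Polynomial.map_mul, hQ, Polynomial.map_C]
        congr 2
        have e1 : algebraMap (OO τL) L u = j c := huv
        rw [e1]
        simp [sub]
  exact key _ (hF.natDegree_map _)

end GalH
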