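import Pool.Agent.GalH.Num
import Pool.Agent.GalH.Good

/-!
The part of D prime to the primes of good reduction.
-/

open Polynomial

namespace GalH

theorem lossNum_dvd {K : Type*} [Field K] (F : K[X][X]) (A : Finset K) (b : K) :
    lossNum F A b ∣ wild F := by
  classical
  have h : wild F = ∏ p ∈ (wild F).primeFactors, p ^ (wild F).factorization p := by
    conv_lhs => rw [← Nat.prod_factorization_pow_eq_self (wild_pos F).ne']
    rfl
  unfold lossNum
  conv_rhs => rw [h]
  exact Finset.prod_dvd_prod_of_subset _ _ _ (Finset.filter_subset _ _)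

theorem lossNum_pos {K : Type*} [Field K] (F : K[X][X]) (A : Finset K) (b : K) :
    0 < lossNum F A b :=
  Nat.pos_of_dvd_of_pos (lossNum_dvd F A b) (wild_pos F)

theorem lossNum_val {K : Type*} [Field K] (F : K[X][X]) (A : Finset K) (b : K) (p : ℕ)
    [hp : Fact p.Prime] (h : p ∣ lossNum F A b) :
    padicValNat p (lossNum F A b) = padicValNat p (wild F) := by
  classical
  have h0 := lossNum_pos F A b
  -- p is in the product
  have hmem : p ∈ (wild F).primeFactors.filter (fun p => ¬ IsGood F A b p) := by
    unfold lossNum at h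
    obtain ⟨q, hq, hpq⟩ := (Prime.dvd_finsetProd_iff hp.out.prime _).1 h
    have hq' : q.Prime := Nat.prime_of_mem_primeFactors (Finset.mem_filter.1 hq).1
    have h1 : p ∣ q := hp.out.dvd_of_dvd_pow hpq
    rw [(Nat.prime_dvd_prime_iff_eq hp.out hq').1 h1]
    exact hq
  have h1 : p ^ (wild F).factorization p ∣ lossNum F A b := by
    unfold lossNum
    exact Finset.dvd_prod_of_mem (fun p => p ^ (wild F).factorization p) hmem
  rw [Nat.factorization_def _ hp.out] at h1
  apply le_antisymm
  · exact (padicValNat_dvd_iff_le (wild_pos F).ne').1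
      (pow_padicValNat_dvd.trans (lossNum_dvd F A b))
  · exact (padicValNat_dvd_iff_le h0.ne').1 h1

theorem lossNum_not {K : Type*} [Field K] (F : K[X][X]) (A : Finset K) (b : K) (p : ℕ)
    [hp : Fact p.Prime] (h : ¬ p ∣ lossNum F A b) (hw : p ∣ wild F) : GoodAt F A b p := by
  classical
  by_contra hg
  apply h
  have hmem : p ∈ (wild F).primeFactors.filter (fun p => ¬ IsGood F A b p) := by
    rw [Finset.mem_filter, Nat.mem_primeFactors]
    exact ⟨⟨hp.out, hw, (wild_pos F).ne'⟩, fun ⟨_, h2⟩ => hg h2⟩
  have h1 : p ^ (wild F).factorization p ∣ lossNum F A b := by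
    unfold lossNum
    exact Finset.dvd_prod_of_mem (fun p => p ^ (wild F).factorization p) hmem
  refine (dvd_pow_self p ?_).trans h1
  exact (hp.out.factorization_pos_of_dvd (wild_pos F).ne' hw).ne'

end GalH
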