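import Pool.Agent.ALC.Rng

/-!
The image of `RR O` (Rng.lean: localisation of O[X] at (w, X)) in O[[X]] is closed under the derivative:
r = q / t with t a unit of RR O, (q / t)' = (q' t - q t') / t^2.
-/

open Polynomial

namespace GalH

theorem rr_der (O : Type*) [CommRing O] [IsDomain O] [IsDiscreteValuationRing O]
    (T : ALC.RR O →+* PowerSeries O)
    (hT : ∀ q : O[X], T (algebraMap O[X] (ALC.RR O) q) = (q : PowerSeries O)) (r : ALC.RR O) :
    ∃ r' : ALC.RR O, T r' = PowerSeries.derivative O (T r) := by
  obtain ⟨⟨q, s⟩, h⟩ := IsLocalization.surj (ALC.mm O).primeCompl r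
  have hs : IsUnit (algebraMap O[X] (ALC.RR O) s) := IsLocalization.map_units _ s
  obtain ⟨v, hv⟩ := hs.exists_right_inv
  have h1 : T r * (s : O[X]) = (q : PowerSeries O) := by
    have := congrArg T h
    rwa [map_mul, hT, hT] at this
  have h2 : ((s : O[X]) : PowerSeries O) * T v = 1 := by
    have := congrArg T hv
    rwa [map_mul, map_one, hT] at this
  have h3 : PowerSeries.derivative O (T r) * (s : O[X]) +
      T r * PowerSeries.derivative O ((s : O[X]) : PowerSeries O) =
      PowerSeries.derivative O (q : PowerSeries O) := by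
    rw [← h1, Derivation.leibniz, smul_eq_mul, smul_eq_mul]
    ring
  rw [PowerSeries.derivative_coe, PowerSeries.derivative_coe] at h3
  refine ⟨(algebraMap O[X] (ALC.RR O) (Polynomial.derivative q) -
    r * algebraMap O[X] (ALC.RR O) (Polynomial.derivative s)) * v, ?_⟩
  rw [map_mul, map_sub, map_mul, hT, hT, ← h3]
  linear_combination PowerSeries.derivative O (T r) * h2

end GalH
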