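import Mathlib

/-!
Base change of splitting fields: for a homomorphism of fields phi : k1 -> k2 and a separable
polynomial f over k1, the degree of the splitting field of f over k2 divides the degree over k1.

Proof. E2 = splitting field of f over k2, an algebra over k1 through phi. f splits in E2, so
E1 = f.SplittingField embeds in E2 over k1 (`SplittingField.lift` / `IsSplittingField.lift`); make E2 an
E1-algebra through this embedding (IsScalarTower k1 E1 E2). Restriction
Gal(E2/k2) -> Gal(E2/k1) -> Gal(E1/k1) (`AlgEquiv.restrictScalars`, `AlgEquiv.restrictNormalHom`,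
E1/k1 is normal) is injective: the roots of f in E2 come from E1 and generate E2 over k2
(`SplittingField.adjoin_rootSet`). Lagrange (`Subgroup.card_dvd_of_injective`, Nat.card) and
`IsGalois.card_aut_eq_finrank` (`Polynomial.Gal`, `IsGalois.of_separable_splitting_field`).
Any variant (for example through Polynomial.Gal and Polynomial.Gal.restrict) is fine.
-/

open Polynomial

namespace GalH

theorem gal_dvd_aux {K1 K2 E1 E2 : Type*} [Field K1] [Field K2] [Field E1] [Field E2]
    [Algebra K1 K2] [Algebra K1 E1] [Algebra K2 E2] [Algebra K1 E2] [IsScalarTower K1 K2 E2]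
    (f : K1[X]) (hf : f.Separable) [hE1 : IsSplittingField K1 E1 f]
    [hE2 : IsSplittingField K2 E2 (f.map (algebraMap K1 K2))] :
    Module.finrank K2 E2 ∣ Module.finrank K1 E1 := by
  have hs2 : (f.map (algebraMap K1 E2)).Splits := by
    have h := hE2.splits
    rw [Polynomial.map_map, ← IsScalarTower.algebraMap_eq] at h
    exact h
  let j : E1 →ₐ[K1] E2 := IsSplittingField.lift E1 f hs2
  let : Algebra E1 E2 := j.toRingHom.toAlgebra
  have : IsScalarTower K1 E1 E2 := IsScalarTower.of_algebraMap_eq fun x => (j.commutes x).symm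
  have : Normal K1 E1 := Normal.of_isSplittingField f
  have : FiniteDimensional K1 E1 := IsSplittingField.finiteDimensional E1 f
  have : FiniteDimensional K2 E2 :=
    IsSplittingField.finiteDimensional E2 (f.map (algebraMap K1 K2))
  have : IsGalois K1 E1 := IsGalois.of_separable_splitting_field hf
  have : IsGalois K2 E2 := IsGalois.of_separable_splitting_field (hf.map (f := algebraMap K1 K2))
  let F : (E2 ≃ₐ[K2] E2) →* (E1 ≃ₐ[K1] E1) :=
    (AlgEquiv.restrictNormalHom E1).comp (AlgEquiv.restrictScalarsHom K1)
  have hF : Function.Injective F := by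
    rw [injective_iff_map_eq_one]
    intro σ hσ
    have h1 : ∀ x : E1, σ (algebraMap E1 E2 x) = algebraMap E1 E2 x := by
      intro x
      have h2 := AlgEquiv.restrictNormal_commutes (AlgEquiv.restrictScalarsHom K1 σ) E1 x
      have h3 : (AlgEquiv.restrictScalarsHom K1 σ).restrictNormal E1 = 1 := hσ
      rw [h3] at h2
      exact h2.symm
    have h4 : (σ : E2 →ₐ[K2] E2) = AlgHom.id K2 E2 := by
      refine AlgHom.ext_of_adjoin_eq_top hE2.adjoin_rootSet' ?_
      intro y hy
      have hy2 : y ∈ f.rootSet E2 := by
        rw [mem_rootSet'] at hy ⊢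
        obtain ⟨ha, hb⟩ := hy
        rw [Polynomial.map_map, ← IsScalarTower.algebraMap_eq] at ha
        refine ⟨ha, ?_⟩
        rw [aeval_map_algebraMap] at hb
        exact hb
      rw [← hE1.splits.image_rootSet_algebraMap (B := E2)] at hy2
      obtain ⟨x, _, rfl⟩ := hy2
      exact h1 x
    ext y
    exact DFunLike.congr_fun h4 y
  rw [← IsGalois.card_aut_eq_finrank, ← IsGalois.card_aut_eq_finrank]
  exact Subgroup.card_dvd_of_injective F hF

theorem gal_dvd {k1 k2 : Type*} [Field k1] [Field k2] (φ : k1 →+* k2) (f : k1[X])
    (hf : f.Separable) :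
    Module.finrank k2 (f.map φ).SplittingField ∣ Module.finrank k1 f.SplittingField := by
  let : Algebra k1 k2 := φ.toAlgebra
  exact gal_dvd_aux (K1 := k1) (K2 := k2) (E1 := f.SplittingField)
    (E2 := (f.map (algebraMap k1 k2)).SplittingField) f hf

end GalH
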