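import Pool.Agent.GalH.Defs
import Pool.Agent.GalH.Dvd

/-!
Descent of the geometric Galois group: there is a finite extension K' of K such that the order of the
Galois group of F over K'(x) divides (in fact equals) the order over k'(x), k' the algebraic closure of K.

Proof. Write kb = AlgebraicClosure K, Fb = F over kb(x), Omega = splitting field of Fb over kb(x),
e = [Omega : kb(x)] = monOrd F, alpha a primitive element, mu its minimal
polynomial over kb(x), of degree e; the roots of Fb in Omega are y_i = P_i(alpha), P_i in kb(x)[T].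
The finitely many elements of kb which are coefficients of numerators and denominators of the
coefficients of mu and the P_i generate a finite extension K' in kb; there are mu',
P_i' over K'(x) = RatFunc K' with images mu, P_i. Make Omega an algebra over K'(x)
(RatFunc K' -> RatFunc kb -> Omega). All roots of F over K'(x) in Omega are in K'(x)(alpha),
finite over K'(x) of degree <= deg mu' = e, as alpha is
a root of mu' != 0, so F splits there and the splitting field of F over K'(x) embeds in it:
galOrd F_K' <= e. By `gal_dvd` (the map RatFunc K' -> RatFunc kb) e divides galOrd F_K'; both are positive,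
so galOrd F_K' = e.
-/

open Polynomial

universe u

namespace GalH

/-- the homomorphism of fields of rational functions of a homomorphism of fields -/
noncomputable def rmap {k l : Type*} [Field k] [Field l] (σ : k →+* l) :
    RatFunc k →+* RatFunc l :=
  IsFractionRing.lift (g := (algebraMap l[X] (RatFunc l)).comp (mapRingHom σ)) (by
    rw [RingHom.coe_comp]
    exact (RatFunc.algebraMap_injective l).comp (Polynomial.map_injective σ σ.injective))

theorem rmap_algebraMap {k l : Type*} [Field k] [Field l] (σ : k →+* l) (p : k[X]) :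
    rmap σ (algebraMap k[X] (RatFunc k) p) = algebraMap l[X] (RatFunc l) (p.map σ) :=
  IsFractionRing.lift_algebraMap _ p

/-- the elements of a subfield lift -/
theorem poly_lift {k l : Type*} [Field k] [Field l] [Algebra k l] (E : IntermediateField k l)
    (p : l[X]) (h : ∀ c ∈ p.coeffs, c ∈ E) : ∃ q : E[X], q.map (algebraMap E l) = p := by
  have h1 : p ∈ Polynomial.lifts (algebraMap E l) := by
    rw [Polynomial.lifts_iff_coeff_lifts]
    intro n
    by_cases hn : p.coeff n = 0
    · exact ⟨0, by rw [hn, map_zero]⟩
    · exact ⟨⟨p.coeff n, h _ (Polynomial.coeff_mem_coeffs hn)⟩, rfl⟩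
  rw [Polynomial.mem_lifts] at h1
  exact h1

theorem rat_lift {k l : Type*} [Field k] [Field l] [Algebra k l] (E : IntermediateField k l)
    (r : RatFunc l) (h : ∀ c ∈ r.num.coeffs, c ∈ E) (h2 : ∀ c ∈ r.denom.coeffs, c ∈ E) :
    ∃ q : RatFunc E, rmap (algebraMap E l) q = r := by
  obtain ⟨a, ha⟩ := poly_lift E r.num h
  obtain ⟨b, hb⟩ := poly_lift E r.denom h2
  refine ⟨algebraMap _ _ a / algebraMap _ _ b, ?_⟩
  rw [map_div₀, rmap_algebraMap, rmap_algebraMap, ha, hb, RatFunc.num_div_denom]

/-- finitely many rational functions are defined over a finite extension -/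
theorem fin_lift {k l : Type*} [Field k] [Field l] [Algebra k l] [Algebra.IsAlgebraic k l]
    (S : Finset (RatFunc l)) :
    ∃ E : IntermediateField k l, FiniteDimensional k E ∧
      ∀ r ∈ S, ∃ q : RatFunc E, rmap (algebraMap E l) q = r := by
  classical
  let T : Finset l := S.biUnion fun r => r.num.coeffs ∪ r.denom.coeffs
  refine ⟨IntermediateField.adjoin k (T : Set l), ?_, fun r hr => ?_⟩
  · exact IntermediateField.finiteDimensional_adjoin fun x _ => Algebra.IsIntegral.isIntegral x
  · refine rat_lift _ r (fun c hc => IntermediateField.subset_adjoin k _ ?_)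
      fun c hc => IntermediateField.subset_adjoin k _ ?_
    · exact Finset.mem_coe.2 (Finset.mem_biUnion.2 ⟨r, hr, Finset.mem_union_left _ hc⟩)
    · exact Finset.mem_coe.2 (Finset.mem_biUnion.2 ⟨r, hr, Finset.mem_union_right _ hc⟩)

/-- polynomials over rational functions -/
theorem fin_liftP {k l : Type*} [Field k] [Field l] [Algebra k l] [Algebra.IsAlgebraic k l]
    (S : Finset (RatFunc l)[X]) :
    ∃ E : IntermediateField k l, FiniteDimensional k E ∧
      ∀ p ∈ S, ∃ q : (RatFunc E)[X], q.map (rmap (algebraMap E l)) = p := by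
  classical
  obtain ⟨E, hE, h⟩ := fin_lift (k := k) (S.biUnion fun p => p.coeffs)
  refine ⟨E, hE, fun p hp => ?_⟩
  have h1 : p ∈ Polynomial.lifts (rmap (algebraMap E l)) := by
    rw [Polynomial.lifts_iff_coeff_lifts]
    intro n
    by_cases hn : p.coeff n = 0
    · exact ⟨0, by rw [hn, map_zero]⟩
    · obtain ⟨q, hq⟩ := h _ (Finset.mem_biUnion.2 ⟨p, hp, Polynomial.coeff_mem_coeffs hn⟩)
      exact ⟨q, hq⟩
  rw [Polynomial.mem_lifts] at h1
  exact h1

/-- the upper bound -/
theorem desc_le {A B O : Type*} [Field A] [Field B] [Field O] [Algebra A B] [Algebra B O]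
    [Algebra A O] [IsScalarTower A B O] (f : A[X]) (α : O) (μ : A[X]) (hμ : μ ≠ 0)
    (hα : aeval α μ = 0) (hsp : (f.map (algebraMap A O)).Splits)
    (hP : ∀ y ∈ f.rootSet O, ∃ P : A[X], aeval α P = y) :
    Module.finrank A f.SplittingField ≤ μ.natDegree := by
  have hint : IsIntegral A α := IsAlgebraic.isIntegral ⟨μ, hμ, hα⟩
  let M := IntermediateField.adjoin A {α}
  have hfd : FiniteDimensional A M := IntermediateField.adjoin.finiteDimensional hint
  have h1 : (f.map (algebraMap A M)).Splits := by
    refine IntermediateField.splits_of_splits hsp ?_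
    intro y hy
    obtain ⟨P, rfl⟩ := hP y hy
    exact IntermediateField.algebra_adjoin_le_adjoin A {α} (aeval_mem_adjoin_singleton A α)
  let j : f.SplittingField →ₐ[A] M := IsSplittingField.lift f.SplittingField f h1
  have h2 : Module.finrank A f.SplittingField ≤ Module.finrank A M :=
    LinearMap.finrank_le_finrank_of_injective (f := j.toLinearMap) j.toRingHom.injective
  have h3 : Module.finrank A M = (minpoly A α).natDegree := IntermediateField.adjoin.finrank hint
  have h4 : (minpoly A α).natDegree ≤ μ.natDegree :=
    natDegree_le_of_dvd (minpoly.dvd A α hα) hμ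
  omega

/-- the upper bound, for a homomorphism -/
theorem desc_le2 {A B O : Type*} [Field A] [Field B] [Field O] [Algebra B O] (σ : A →+* B)
    (f : A[X]) (hf : (f.map σ).Separable) (hsp : ((f.map σ).map (algebraMap B O)).Splits)
    (α : O) (μ : A[X]) (hμ : μ ≠ 0) (hα : aeval α (μ.map σ) = 0)
    (hP : ∀ y ∈ (f.map σ).aroots O, ∃ P : A[X], aeval α (P.map σ) = y) :
    Module.finrank A f.SplittingField ≤ μ.natDegree := by
  let _ : Algebra A B := σ.toAlgebra
  let _ : Algebra A O := ((algebraMap B O).comp σ).toAlgebra
  have hst : IsScalarTower A B O := IsScalarTower.of_algebraMap_eq fun _ => rfl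
  have hav : ∀ q : A[X], aeval α (q.map σ) = aeval α q := fun q => aeval_map_algebraMap B α q
  have hav2 : ∀ (y : O) (q : A[X]), aeval y (q.map σ) = aeval y q := fun y q =>
    aeval_map_algebraMap B y q
  refine desc_le (B := B) f α μ hμ ?_ ?_ ?_
  · rw [← hav]
    exact hα
  · rw [Polynomial.map_map] at hsp
    exact hsp
  · intro y hy
    have hy2 : y ∈ (f.map σ).aroots O := by
      rw [mem_aroots]
      refine ⟨hf.ne_zero, ?_⟩
      rw [hav2]
      exact (mem_rootSet'.1 hy).2
    obtain ⟨Q, hQ⟩ := hP y hy2
    exact ⟨Q, by rw [← hav, hQ]⟩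

theorem desc {K : Type u} [Field K] [CharZero K] (F : K[X][X]) (hF : F.Monic)
    (hs : (F.map (algebraMap K[X] (RatFunc K))).Separable) :
    ∃ (K' : Type u) (_ : Field K') (_ : Algebra K K') (_ : FiniteDimensional K K'),
      galOrd (ALC.bc (algebraMap K K') F) ∣ monOrd F := by
  classical
  set fb : (RatFunc (AlgebraicClosure K))[X] :=
    (ALC.bc (algebraMap K (AlgebraicClosure K)) F).map
      (algebraMap (AlgebraicClosure K)[X] (RatFunc (AlgebraicClosure K))) with hfb
  have e0 : fb = (F.map (algebraMap K[X] (RatFunc K))).map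
      (rmap (algebraMap K (AlgebraicClosure K))) := by
    rw [hfb, ALC.bc, Polynomial.map_map, Polynomial.map_map]
    congr 1
    refine RingHom.ext fun p => ?_
    rw [RingHom.comp_apply, RingHom.comp_apply, rmap_algebraMap, coe_mapRingHom]
  have hsb : fb.Separable := by
    rw [e0]
    exact hs.map
  have hgal : IsGalois (RatFunc (AlgebraicClosure K)) fb.SplittingField :=
    IsGalois.of_separable_splitting_field hsb
  obtain ⟨α, hα⟩ := Field.exists_primitive_element (RatFunc (AlgebraicClosure K))
    fb.SplittingField
  have hint : IsIntegral (RatFunc (AlgebraicClosure K)) α := Algebra.IsIntegral.isIntegral α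
  have hP0 : ∀ y : fb.SplittingField, ∃ P : (RatFunc (AlgebraicClosure K))[X],
      aeval α P = y := by
    intro y
    have h1 : y ∈ (IntermediateField.adjoin (RatFunc (AlgebraicClosure K)) {α}).toSubalgebra := by
      rw [hα]
      exact Subalgebra.mem_toSubsemiring.1 trivial
    rw [IntermediateField.adjoin_simple_toSubalgebra_of_isAlgebraic hint.isAlgebraic,
      Algebra.adjoin_singleton_eq_range_aeval] at h1
    exact h1
  choose P hP using hP0
  let μ := minpoly (RatFunc (AlgebraicClosure K)) α
  obtain ⟨E, hE, hlift⟩ := fin_liftP (k := K)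
    (insert μ ((fb.aroots fb.SplittingField).toFinset.image P))
  let σ : RatFunc E →+* RatFunc (AlgebraicClosure K) := rmap (algebraMap E (AlgebraicClosure K))
  refine ⟨E, inferInstance, inferInstance, hE, ?_⟩
  set f' : (RatFunc E)[X] := (ALC.bc (algebraMap K E) F).map
    (algebraMap E[X] (RatFunc E)) with hf'
  have e1 : f' = (F.map (algebraMap K[X] (RatFunc K))).map (rmap (algebraMap K E)) := by
    rw [hf', ALC.bc, Polynomial.map_map, Polynomial.map_map]
    congr 1
    refine RingHom.ext fun p => ?_
    rw [RingHom.comp_apply, RingHom.comp_apply, rmap_algebraMap, coe_mapRingHom]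
  have hs' : f'.Separable := by
    rw [e1]
    exact hs.map
  have e2 : f'.map σ = fb := by
    rw [hf', hfb, ALC.bc, ALC.bc, Polynomial.map_map, Polynomial.map_map, Polynomial.map_map]
    congr 1
    refine RingHom.ext fun p => ?_
    rw [RingHom.comp_apply, RingHom.comp_apply, RingHom.comp_apply, coe_mapRingHom,
      coe_mapRingHom, rmap_algebraMap, Polynomial.map_map, ← IsScalarTower.algebraMap_eq]
  have hdvd : Module.finrank (RatFunc (AlgebraicClosure K)) fb.SplittingField ∣
      Module.finrank (RatFunc E) f'.SplittingField := by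
    have h := gal_dvd σ f' hs'
    rw [e2] at h
    exact h
  have hmu : μ.natDegree = Module.finrank (RatFunc (AlgebraicClosure K)) fb.SplittingField := by
    rw [← IntermediateField.adjoin.finrank hint, hα, IntermediateField.finrank_top']
  obtain ⟨μ', hμ'⟩ := hlift μ (Finset.mem_insert_self _ _)
  have hle : Module.finrank (RatFunc E) f'.SplittingField ≤ μ'.natDegree := by
    refine desc_le2 (O := fb.SplittingField) σ f' ?_ ?_ α μ' ?_ ?_ ?_
    · rw [e2]
      exact hsb
    · rw [e2]
      exact SplittingField.splits fb
    · rintro rfl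
      rw [Polynomial.map_zero] at hμ'
      exact minpoly.ne_zero hint hμ'.symm
    · rw [hμ']
      exact minpoly.aeval _ _
    · intro y hy
      rw [e2] at hy
      obtain ⟨Q, hQ⟩ := hlift (P y) (Finset.mem_insert_of_mem
        (Finset.mem_image_of_mem P (Multiset.mem_toFinset.2 hy)))
      refine ⟨Q, ?_⟩
      rw [hQ]
      exact hP y
  have hle2 : Module.finrank (RatFunc E) f'.SplittingField ≤
      Module.finrank (RatFunc (AlgebraicClosure K)) fb.SplittingField := by
    rw [← hmu, ← hμ', Polynomial.natDegree_map]
    exact hle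
  have hpos : 0 < Module.finrank (RatFunc E) f'.SplittingField := Module.finrank_pos
  exact dvd_of_eq (le_antisymm hle2 (Nat.le_of_dvd hpos hdvd))

end GalH
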