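import Pool.Agent.GalH.Num
import Pool.Agent.ALC.Irr

/-!
If the function field over kb(x) (kb the algebraic closure) has d automorphisms over kb(x), d the degree
(that is, the cover is geometrically Galois), then the order of the geometric monodromy group is the
degree d, and D = d.

Proof. Put g = (bc F).map (algebraMap kb[X] (RatFunc kb)), irreducible (`ALC.GeomIrred`, Gauss lemma
`Polynomial.Monic.irreducible_iff_irreducible_map_fraction_map`), FF (bc F) = AdjoinRoot g is a field, Galois over kb(x)
(`IsGalois.of_card_aut_eq_finrank`), so normal over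
RatFunc kb and g has the root `AdjoinRoot.root g` in it, so g splits in it (`Normal.splits`, minpoly of the
root is g as g is monic and irreducible), and the root generates: AdjoinRoot g is a splitting field
(`IsSplittingField`), isomorphic to g.SplittingField (`IsSplittingField.algEquiv`). finrank = natDegree g =
natDegree F. wild F = gcd(d, lcm(1..d)) = d since d | lcm(1..d) (d >= 1 as F is irreducible).
-/

open Polynomial

namespace GalH

/-- the adjunction of one root of a monic irreducible polynomial with as many automorphisms as its degree -/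
theorem adj_galois {R : Type*} [Field R] (g : R[X]) (hm : g.Monic) (hi : Irreducible g)
    (h : Nat.card (AdjoinRoot g ≃ₐ[R] AdjoinRoot g) = g.natDegree) :
    Module.finrank R g.SplittingField = g.natDegree := by
  have : Fact (Irreducible g) := ⟨hi⟩
  have hfd : FiniteDimensional R (AdjoinRoot g) := (AdjoinRoot.powerBasis hi.ne_zero).finite
  have hfr : Module.finrank R (AdjoinRoot g) = g.natDegree := by
    rw [(AdjoinRoot.powerBasis hi.ne_zero).finrank, AdjoinRoot.powerBasis_dim]
  have hG : IsGalois R (AdjoinRoot g) := IsGalois.of_card_aut_eq_finrank R (AdjoinRoot g) (by rw [h, hfr])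
  have hmin : minpoly R (AdjoinRoot.root g) = g := by
    rw [AdjoinRoot.minpoly_root hi.ne_zero, hm.leadingCoeff, inv_one, C_1, mul_one]
  have hspl : (g.map (algebraMap R (AdjoinRoot g))).Splits := by
    have h1 := Normal.splits (IsGalois.to_normal (F := R) (E := AdjoinRoot g)) (AdjoinRoot.root g)
    rwa [hmin] at h1
  have hsf : IsSplittingField R (AdjoinRoot g) g := by
    refine ⟨hspl, ?_⟩
    rw [eq_top_iff, ← AdjoinRoot.adjoinRoot_eq_top (f := g)]
    refine Algebra.adjoin_mono ?_
    rw [Set.singleton_subset_iff, mem_rootSet]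
    exact ⟨hi.ne_zero, by rw [AdjoinRoot.aeval_eq, AdjoinRoot.mk_self]⟩
  rw [← (IsSplittingField.algEquiv (AdjoinRoot g) g).toLinearEquiv.finrank_eq, hfr]

theorem monOrd_galois {K : Type*} [Field K] (F : K[X][X]) (hF : F.Monic) (hg : ALC.GeomIrred F)
    (h : Nat.card (ALC.FF (ALC.bc (algebraMap K (AlgebraicClosure K)) F)
      ≃ₐ[RatFunc (AlgebraicClosure K)] ALC.FF (ALC.bc (algebraMap K (AlgebraicClosure K)) F)) =
      F.natDegree) :
    monOrd F = F.natDegree := by
  have hb : (ALC.bc (algebraMap K (AlgebraicClosure K)) F).Monic := hF.map _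
  have hi := (Polynomial.Monic.irreducible_iff_irreducible_map_fraction_map
    (K := RatFunc (AlgebraicClosure K)) hb).1 hg
  have hd : ((ALC.bc (algebraMap K (AlgebraicClosure K)) F).map
      (algebraMap (AlgebraicClosure K)[X] (RatFunc (AlgebraicClosure K)))).natDegree = F.natDegree := by
    rw [hb.natDegree_map, ALC.bc, hF.natDegree_map]
  have h1 := adj_galois _ (hb.map _) hi (by rw [hd]; exact h)
  rw [hd] at h1
  exact h1

theorem wild_galois {K : Type*} [Field K] (F : K[X][X]) (hF : F.Monic) (hg : ALC.GeomIrred F)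
    (h : Nat.card (ALC.FF (ALC.bc (algebraMap K (AlgebraicClosure K)) F)
      ≃ₐ[RatFunc (AlgebraicClosure K)] ALC.FF (ALC.bc (algebraMap K (AlgebraicClosure K)) F)) =
      F.natDegree) :
    wild F = F.natDegree := by
  have hpos : 0 < F.natDegree := by
    refine Nat.pos_of_ne_zero fun h0 => ?_
    have h1 : F = 1 := hF.natDegree_eq_zero.1 h0
    have h2 : ALC.bc (algebraMap K (AlgebraicClosure K)) F = 1 := by
      rw [h1, ALC.bc, Polynomial.map_one]
    have h3 : Irreducible (ALC.bc (algebraMap K (AlgebraicClosure K)) F) := hg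
    rw [h2] at h3
    exact not_irreducible_one h3
  unfold wild
  rw [monOrd_galois F hF hg h]
  exact Nat.gcd_eq_left (Finset.dvd_lcm (f := id) (Finset.mem_Icc.2 ⟨hpos, le_rfl⟩))

/-- `D` divides `lcm(1, ..., d)`: the constant is at most `ψ(d) + Σ_{p ≤ d} (log p) / (p - 1)`
(`Chebyshev.psi_eq_sum_mul_log_prime`, see glob_psi in ALC/Glob.lean). -/
theorem loss_wild_le {K : Type*} [Field K] (F : K[X][X]) (hd : 1 ≤ F.natDegree) :
    loss (wild F) ≤ Chebyshev.psi F.natDegree +
      ∑ p ∈ (Finset.Icc 1 F.natDegree).filter Nat.Prime, Real.log p / ((p : ℝ) - 1) := by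
  have hdvd : wild F ∣ Nat.lcmUpto F.natDegree := Nat.gcd_dvd_right _ _
  have hw := wild_pos F
  unfold loss
  refine add_le_add ?_ ?_
  · rw [Chebyshev.psi_eq_log_lcmUpto]
    refine Real.log_le_log (by exact_mod_cast hw) ?_
    exact_mod_cast Nat.le_of_dvd (Nat.lcmUpto_pos _) hdvd
  · refine Finset.sum_le_sum_of_subset_of_nonneg (fun p hp => ?_) fun p hp _ => ?_
    · have hpp := Nat.prime_of_mem_primeFactors hp
      have h1 : p ∣ Nat.lcmUpto F.natDegree := (Nat.dvd_of_mem_primeFactors hp).trans hdvd
      rw [Finset.mem_filter, Finset.mem_Icc]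
      refine ⟨⟨hpp.one_lt.le, ?_⟩, hpp⟩
      have h2 := (hpp.dvd_iff_one_le_factorization (Nat.lcmUpto_ne_zero _)).1 h1
      rw [Nat.factorization_lcmUpto _ hpp] at h2
      by_contra h3
      rw [Nat.log_of_lt (not_le.1 h3)] at h2
      omega
    · have hpp := (Finset.mem_filter.1 hp).2
      have h1 : (1 : ℝ) < p := by exact_mod_cast hpp.one_lt
      have h2 := Real.log_pos h1
      have h3 : 0 < (p : ℝ) - 1 := by linarith
      positivity

end GalH
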