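import Pool.Agent.ALC.Glob
import Pool.Agent.SzPl.BrH

/-!
The product formula for the embeddings of a number field in C and the C_p.

Proof. The sum of the log|sigma z| is log |N z| with N the norm to Q, in the same way the sum of the
log|tau z| is the logarithm of the p-adic absolute value of N z, and the product formula for the
nonzero rational number N z comes from the factorisations of its numerator and denominator.
-/

namespace GalH

theorem finite_support {K : Type*} [Field K] [NumberField K] (z : K) (hz : z ≠ 0) :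
    (Function.support fun p : Nat.Primes => haveI : Fact (p : ℕ).Prime := ⟨p.2⟩
      ∑ τ : K →+* ℂ_[(p : ℕ)], Real.log ‖τ z‖).Finite := by
  obtain ⟨S, hS⟩ := ALC.unit_ae z hz
  refine S.finite_toSet.subset fun p hp => ?_
  by_contra h
  apply hp
  have h1 := hS p h
  have : Fact (p : ℕ).Prime := ⟨p.2⟩
  refine Finset.sum_eq_zero fun τ _ => ?_
  rw [h1 τ, Real.log_one]

/-- the sum over the embeddings is the logarithm of the absolute value of the norm -/
theorem sum_log_emb {K L : Type*} [Field K] [NumberField K] [NormedField L] [CharZero L]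
    [IsAlgClosed L] [Fintype (K →+* L)] (z : K) (hz : z ≠ 0) :
    ∑ σ : K →+* L, Real.log ‖σ z‖ = Real.log ‖((Algebra.norm ℚ z : ℚ) : L)‖ := by
  classical
  have h1 : ((Algebra.norm ℚ z : ℚ) : L) = ∏ σ : K →+* L, σ z := by
    have h2 := Algebra.norm_eq_prod_embeddings ℚ L z
    rw [eq_ratCast] at h2
    rw [h2]
    exact (Fintype.prod_equiv (RingHom.equivRatAlgHom K L) _ _ fun σ => rfl).symm
  rw [h1, norm_prod, Real.log_prod]
  intro σ _
  exact (norm_pos_iff.2 ((_root_.map_ne_zero σ).2 hz)).ne'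

theorem finsum_primes (s : Finset ℕ) (f : ℕ → ℝ) (hs : ∀ q ∈ s, q.Prime)
    (hf : ∀ q, f q ≠ 0 → q ∈ s) : ∑ᶠ p : Nat.Primes, f (p : ℕ) = ∑ q ∈ s, f q := by
  classical
  have h1 : ∑ᶠ p : Subtype Nat.Prime, f (p : ℕ) = ∑ p ∈ s.subtype Nat.Prime, f (p : ℕ) := by
    refine finsum_eq_sum_of_support_subset _ fun p hp => ?_
    rw [Finset.mem_coe, Finset.mem_subtype]
    exact hf _ hp
  have h2 : ∑ p ∈ s.subtype Nat.Prime, f (p : ℕ) = ∑ q ∈ s, f q := by
    rw [Finset.sum_subtype_eq_sum_filter (p := Nat.Prime) (f := f), Finset.filter_true_of_mem hs]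
  exact h1.trans h2

theorem log_nat (m : ℕ) (hm : m ≠ 0) :
    Real.log m = ∑ᶠ p : Nat.Primes, (m.factorization p : ℝ) * Real.log (p : ℕ) := by
  classical
  have h1 : Real.log m = ∑ q ∈ m.primeFactors, (m.factorization q : ℝ) * Real.log q := by
    conv_lhs => rw [← Nat.prod_factorization_pow_eq_self hm]
    rw [Finsupp.prod, Nat.cast_prod, Real.log_prod]
    · rw [Nat.support_factorization]
      refine Finset.sum_congr rfl fun q _ => ?_
      rw [Nat.cast_pow, Real.log_pow]
    · intro q hq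
      rw [Nat.support_factorization] at hq
      have := (Nat.prime_of_mem_primeFactors hq).pos
      positivity
  rw [h1, finsum_primes m.primeFactors (fun q : ℕ => (m.factorization q : ℝ) * Real.log q)]
  · intro q hq
    exact Nat.prime_of_mem_primeFactors hq
  · intro q hq
    rw [← Nat.support_factorization, Finsupp.mem_support_iff]
    intro h0
    apply hq
    rw [h0]; simp

theorem log_nat_support (m : ℕ) :
    (Function.support fun p : Nat.Primes => (m.factorization p : ℝ) * Real.log (p : ℕ)).Finite := by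
  classical
  refine Set.Finite.preimage (f := fun p : Nat.Primes => (p : ℕ))
    (fun a _ b _ h => Subtype.ext h) (Finset.finite_toSet m.primeFactors) |>.subset fun p hp => ?_
  rw [Function.mem_support] at hp
  rw [Set.mem_preimage, Finset.mem_coe, ← Nat.support_factorization, Finsupp.mem_support_iff]
  intro h0
  apply hp
  rw [h0]; simp

theorem log_padic_nat {p : ℕ} [Fact p.Prime] (m : ℕ) (hm : m ≠ 0) :
    Real.log ‖((m : ℕ) : ℂ_[p])‖ = - ((m.factorization p : ℝ) * Real.log (p : ℕ)) := by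
  have h := SzPl.norm_int_eq (p := p) (m : ℤ) (by exact_mod_cast hm)
  rw [Int.natAbs_natCast, Int.cast_natCast] at h
  rw [h, Real.log_inv, Real.log_pow]

theorem log_padic_rat {p : ℕ} [Fact p.Prime] (q : ℚ) (hq : q ≠ 0) :
    Real.log ‖((q : ℚ) : ℂ_[p])‖ = (q.den.factorization p : ℝ) * Real.log (p : ℕ) -
      (q.num.natAbs.factorization p : ℝ) * Real.log (p : ℕ) := by
  have h1 : ((q : ℚ) : ℂ_[p]) = ((q.num : ℤ) : ℂ_[p]) / ((q.den : ℕ) : ℂ_[p]) := by
    rw [Rat.cast_def]
  have hd : ((q.den : ℕ) : ℂ_[p]) ≠ 0 := by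
    exact_mod_cast q.den_ne_zero
  have hn : ((q.num : ℤ) : ℂ_[p]) ≠ 0 := by
    exact_mod_cast (Rat.num_ne_zero.2 hq)
  rw [h1, norm_div, Real.log_div (norm_pos_iff.2 hn).ne' (norm_pos_iff.2 hd).ne',
    log_padic_nat _ q.den_ne_zero, SzPl.norm_int_eq _ (Rat.num_ne_zero.2 hq), Real.log_inv,
    Real.log_pow]
  ring

theorem product_formula {K : Type*} [Field K] [NumberField K] (z : K) (hz : z ≠ 0) :
    ∑ σ : K →+* ℂ, Real.log ‖σ z‖ +
    (∑ᶠ p : Nat.Primes, haveI : Fact (p : ℕ).Prime := ⟨p.2⟩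
      ∑ τ : K →+* ℂ_[(p : ℕ)], Real.log ‖τ z‖) = 0 := by
  have hN : Algebra.norm ℚ z ≠ 0 := Algebra.norm_ne_zero_iff.2 hz
  set q : ℚ := Algebra.norm ℚ z with hq
  have h1 : ∑ σ : K →+* ℂ, Real.log ‖σ z‖ = Real.log q.num.natAbs - Real.log q.den := by
    rw [sum_log_emb z hz, ← hq]
    have h2 : ‖((q : ℚ) : ℂ)‖ = (q.num.natAbs : ℝ) / (q.den : ℝ) := by
      rw [Rat.cast_def, norm_div, Complex.norm_intCast, Complex.norm_natCast, Nat.cast_natAbs]
      push_cast
      rfl
    rw [h2, Real.log_div]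
    · simpa using hN
    · exact_mod_cast q.den_ne_zero
  have h2 : (∑ᶠ p : Nat.Primes, haveI : Fact (p : ℕ).Prime := ⟨p.2⟩
      ∑ τ : K →+* ℂ_[(p : ℕ)], Real.log ‖τ z‖) =
      ∑ᶠ p : Nat.Primes, ((q.den.factorization p : ℝ) * Real.log (p : ℕ) -
      (q.num.natAbs.factorization p : ℝ) * Real.log (p : ℕ)) := by
    refine finsum_congr fun p => ?_
    have : Fact (p : ℕ).Prime := ⟨p.2⟩
    rw [sum_log_emb z hz, ← hq, log_padic_rat q hN]
  rw [h1, h2, finsum_sub_distrib (log_nat_support _) (log_nat_support _), ← log_nat _ q.den_ne_zero,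
    ← log_nat _ (by simpa using hN)]
  ring

end GalH
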