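import Pool.Agent.GalH.Num
import Pool.Agent.GalH.PF

/-!
If b is a root of unity, H <= sum over a in A of (h(a) + log 2).

Proof. At every place log sup_a |1/(b-a)| <= sum_a log max(1, |1/(b-a)|), and
log max(1, 1/|z|) = log max(1, |z|) - log |z|. Sum over all places and use the product formula for
z = b - a; max(1, |b - a|) <= 2 max(1, |a|) in C, <= max(1, |a|) in C_p.
-/

namespace GalH

private theorem un_sup {K L : Type*} [Field K] [NormedField L] (φ : K →+* L) (A : Finset K)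
    (hA : A.Nonempty) (b : K) (hb : b ∉ A) :
    Real.log (⨆ a : A, ‖φ (1 / (b - a))‖) ≤
      ∑ a ∈ A, (Real.log (max 1 ‖φ (b - a)‖) - Real.log ‖φ (b - a)‖) := by
  have hne : ∀ a ∈ A, b - a ≠ 0 := fun a ha h => hb (by
    rw [sub_eq_zero] at h
    exact h ▸ ha)
  have hpos : ∀ a ∈ A, 0 < ‖φ (b - a)‖ := fun a ha =>
    norm_pos_iff.2 ((_root_.map_ne_zero φ).2 (hne a ha))
  have hnonempty : Nonempty A := hA.to_subtype
  obtain ⟨a0, ha0⟩ := exists_eq_ciSup_of_finite (f := fun a : A => ‖φ (1 / (b - a))‖)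
  rw [← ha0]
  have hterm : ∀ a ∈ A, 0 ≤ Real.log (max 1 ‖φ (b - a)‖) - Real.log ‖φ (b - a)‖ := by
    intro a ha
    rw [sub_nonneg]
    exact Real.log_le_log (hpos a ha) (le_max_right _ _)
  have h1 : Real.log ‖φ (1 / (b - (a0 : K)))‖ ≤
      Real.log (max 1 ‖φ (b - (a0 : K))‖) - Real.log ‖φ (b - (a0 : K))‖ := by
    rw [one_div, map_inv₀, norm_inv, Real.log_inv]
    have : 0 ≤ Real.log (max 1 ‖φ (b - (a0 : K))‖) := Real.log_nonneg (le_max_left _ _)
    linarith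
  exact h1.trans (Finset.single_le_sum
    (f := fun a => Real.log (max 1 ‖φ (b - a)‖) - Real.log ‖φ (b - a)‖) hterm a0.2)

private theorem un_norm {K L : Type*} [Field K] [NormedField L] (φ : K →+* L) (b : K) (n : ℕ)
    (hn : 0 < n) (hbn : b ^ n = 1) : ‖φ b‖ = 1 := by
  have h1 : ‖φ b‖ ^ n = 1 := by rw [← norm_pow, ← map_pow, hbn, map_one, norm_one]
  exact (pow_eq_one_iff_of_nonneg (norm_nonneg _) hn.ne').1 h1

private theorem un_arch {K : Type*} [Field K] (σ : K →+* ℂ) (b a : K) (hb : ‖σ b‖ = 1) :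
    Real.log (max 1 ‖σ (b - a)‖) ≤ Real.log (max 1 ‖σ a‖) + Real.log 2 := by
  have hm : (0 : ℝ) < max 1 ‖σ a‖ := lt_of_lt_of_le one_pos (le_max_left _ _)
  rw [← Real.log_mul hm.ne' (by norm_num)]
  apply Real.log_le_log (lt_of_lt_of_le one_pos (le_max_left _ _))
  have h1 : 1 ≤ max 1 ‖σ a‖ := le_max_left _ _
  have h2 : ‖σ a‖ ≤ max 1 ‖σ a‖ := le_max_right _ _
  have h3 : ‖σ (b - a)‖ ≤ 1 + ‖σ a‖ := by
    rw [map_sub]
    exact (norm_sub_le _ _).trans (by rw [hb])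
  apply max_le
  · linarith
  · linarith

private theorem un_padic {K L : Type*} [Field K] [NormedField L] [IsUltrametricDist L]
    (τ : K →+* L) (b a : K) (hb : ‖τ b‖ = 1) :
    Real.log (max 1 ‖τ (b - a)‖) ≤ Real.log (max 1 ‖τ a‖) := by
  apply Real.log_le_log (lt_of_lt_of_le one_pos (le_max_left _ _))
  apply max_le (le_max_left _ _)
  rw [map_sub, sub_eq_add_neg]
  refine (IsUltrametricDist.norm_add_le_max _ _).trans ?_
  rw [hb, norm_neg]

theorem branchHeight_unity {K : Type*} [Field K] [NumberField K] (A : Finset K) (hA : A.Nonempty)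
    (b : K) (hb : b ∉ A) (n : ℕ) (hn : 0 < n) (hbn : b ^ n = 1) :
    ALC.branchHeight K A b ≤ ∑ a ∈ A, absHeight K a + A.card * Real.log 2 := by
  classical
  have hne : ∀ a ∈ A, b - a ≠ 0 := fun a ha h => hb (by
    rw [sub_eq_zero] at h
    exact h ▸ ha)
  set N : ℝ := (Module.finrank ℚ K : ℝ) with hN
  have hN0 : 0 < N := by
    rw [hN]
    exact_mod_cast Module.finrank_pos
  -- a finite set of primes
  obtain ⟨S, hS1, hS2⟩ : ∃ S : Finset Nat.Primes, (∀ p, p ∉ S → haveI : Fact (p : ℕ).Prime := ⟨p.2⟩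
      ∀ a ∈ A, ∀ τ : K →+* ℂ_[(p : ℕ)], ‖τ (b - a)‖ = 1) ∧
      (∀ p, p ∉ S → haveI : Fact (p : ℕ).Prime := ⟨p.2⟩
      ∀ a ∈ A, ∀ τ : K →+* ℂ_[(p : ℕ)], Real.log (max 1 ‖τ a‖) = 0) := by
    have h1 : ∀ a : A, ∃ T : Finset Nat.Primes, ∀ p : Nat.Primes, p ∉ T →
        haveI : Fact (p : ℕ).Prime := ⟨p.2⟩
        ∀ τ : K →+* ℂ_[(p : ℕ)], ‖τ (b - a)‖ = 1 := fun a => ALC.unit_ae _ (hne a a.2)
    have h2 : ∀ a : A, ∃ T : Finset Nat.Primes, ∀ p : Nat.Primes, p ∉ T →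
        haveI : Fact (p : ℕ).Prime := ⟨p.2⟩
        ∀ τ : K →+* ℂ_[(p : ℕ)], Real.log (max 1 ‖τ a‖) = 0 := by
      intro a
      by_cases ha : (a : K) = 0
      · refine ⟨∅, fun p _ => ?_⟩
        intro τ
        rw [ha, map_zero, norm_zero, max_eq_left zero_le_one, Real.log_one]
      · obtain ⟨T, hT⟩ := ALC.unit_ae (a : K) ha
        refine ⟨T, fun p hp => ?_⟩
        intro τ
        rw [hT p hp τ, max_self, Real.log_one]
    choose T1 hT1 using h1
    choose T2 hT2 using h2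
    refine ⟨Finset.univ.biUnion T1 ∪ Finset.univ.biUnion T2, fun p hp => ?_, fun p hp => ?_⟩
    · intro a ha τ
      exact hT1 ⟨a, ha⟩ p (fun h => hp (Finset.mem_union_left _
        (Finset.mem_biUnion.2 ⟨_, Finset.mem_univ _, h⟩))) τ
    · intro a ha τ
      exact hT2 ⟨a, ha⟩ p (fun h => hp (Finset.mem_union_right _
        (Finset.mem_biUnion.2 ⟨_, Finset.mem_univ _, h⟩))) τ
  have hfin : ∀ f : Nat.Primes → ℝ, (∀ p, p ∉ S → f p = 0) → ∑ᶠ p, f p = ∑ p ∈ S, f p := by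
    intro f hf
    apply finsum_eq_sum_of_support_subset
    intro p hp
    by_contra hps
    exact hp (hf p hps)
  -- the terms
  set B : Nat.Primes → ℝ := fun p => haveI : Fact (p : ℕ).Prime := ⟨p.2⟩
      ∑ τ : K →+* ℂ_[(p : ℕ)], Real.log (⨆ a : A, ‖τ (1 / (b - a))‖) with hB
  set M : K → Nat.Primes → ℝ := fun a p => haveI : Fact (p : ℕ).Prime := ⟨p.2⟩
      ∑ τ : K →+* ℂ_[(p : ℕ)], Real.log (max 1 ‖τ a‖) with hM
  set Q : K → Nat.Primes → ℝ := fun z p => haveI : Fact (p : ℕ).Prime := ⟨p.2⟩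
      ∑ τ : K →+* ℂ_[(p : ℕ)], Real.log ‖τ z‖ with hQ
  have hBle : ∀ p, B p ≤ ∑ a ∈ A, (M a p - Q (b - a) p) := by
    intro p
    have : Fact (p : ℕ).Prime := ⟨p.2⟩
    simp only [hB, hM, hQ]
    simp_rw [← Finset.sum_sub_distrib]
    rw [Finset.sum_comm]
    apply Finset.sum_le_sum
    intro τ _
    refine (un_sup τ A hA b hb).trans (Finset.sum_le_sum fun a _ => ?_)
    have := un_padic τ b a (un_norm τ b n hn hbn)
    linarith
  have hB0 : ∀ p, p ∉ S → B p = 0 := by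
    intro p hp
    have : Fact (p : ℕ).Prime := ⟨p.2⟩
    simp only [hB]
    apply Finset.sum_eq_zero
    intro τ _
    have h1 : ∀ a : A, ‖τ (1 / (b - a))‖ = 1 := by
      intro a
      rw [one_div, map_inv₀, norm_inv, hS1 p hp a a.2 τ, inv_one]
    have hnonempty : Nonempty A := hA.to_subtype
    simp_rw [h1]
    rw [ciSup_const, Real.log_one]
  have hM0 : ∀ a ∈ A, ∀ p, p ∉ S → M a p = 0 := by
    intro a ha p hp
    have : Fact (p : ℕ).Prime := ⟨p.2⟩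
    simp only [hM]
    exact Finset.sum_eq_zero fun τ _ => hS2 p hp a ha τ
  have hQ0 : ∀ a ∈ A, ∀ p, p ∉ S → Q (b - a) p = 0 := by
    intro a ha p hp
    have : Fact (p : ℕ).Prime := ⟨p.2⟩
    simp only [hQ]
    exact Finset.sum_eq_zero fun τ _ => by rw [hS1 p hp a ha τ, Real.log_one]
  -- product formula
  have hPF : ∀ a ∈ A, ∑ σ : K →+* ℂ, Real.log ‖σ (b - a)‖ + ∑ p ∈ S, Q (b - a) p = 0 := by
    intro a ha
    rw [← hfin _ (hQ0 a ha)]
    exact product_formula (b - a) (hne a ha)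
  have hH : ∀ a ∈ A, absHeight K a = (1 / N) * (∑ σ : K →+* ℂ, Real.log (max 1 ‖σ a‖) +
      ∑ p ∈ S, M a p) := by
    intro a ha
    rw [absHeight, ← hN, ← hfin _ (hM0 a ha)]
  have hbr : ALC.branchHeight K A b = (1 / N) * (∑ σ : K →+* ℂ,
      Real.log (⨆ a : A, ‖σ (1 / (b - a))‖) + ∑ p ∈ S, B p) := by
    rw [ALC.branchHeight, ← hN, ← hfin _ hB0]
  have hcard : ∑ _σ : K →+* ℂ, Real.log 2 = N * Real.log 2 := by
    rw [Finset.sum_const, Finset.card_univ, NumberField.Embeddings.card K ℂ, nsmul_eq_mul]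
  have hA1 : ∑ σ : K →+* ℂ, Real.log (⨆ a : A, ‖σ (1 / (b - a))‖) ≤
      ∑ a ∈ A, (∑ σ : K →+* ℂ, Real.log (max 1 ‖σ a‖) + N * Real.log 2 -
        ∑ σ : K →+* ℂ, Real.log ‖σ (b - a)‖) := by
    simp_rw [← hcard, ← Finset.sum_add_distrib, ← Finset.sum_sub_distrib]
    rw [Finset.sum_comm]
    apply Finset.sum_le_sum
    intro σ _
    refine (un_sup σ A hA b hb).trans (Finset.sum_le_sum fun a _ => ?_)
    have := un_arch σ b a (un_norm σ b n hn hbn)
    linarith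
  have hA2 : ∑ p ∈ S, B p ≤ ∑ a ∈ A, (∑ p ∈ S, M a p - ∑ p ∈ S, Q (b - a) p) := by
    simp_rw [← Finset.sum_sub_distrib]
    rw [Finset.sum_comm]
    exact Finset.sum_le_sum fun p _ => hBle p
  have hsum : ∑ σ : K →+* ℂ, Real.log (⨆ a : A, ‖σ (1 / (b - a))‖) + ∑ p ∈ S, B p ≤
      ∑ a ∈ A, (∑ σ : K →+* ℂ, Real.log (max 1 ‖σ a‖) + ∑ p ∈ S, M a p + N * Real.log 2) := by
    refine (add_le_add hA1 hA2).trans (le_of_eq ?_)
    rw [← Finset.sum_add_distrib]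
    refine Finset.sum_congr rfl fun a ha => ?_
    have := hPF a ha
    linarith
  rw [hbr, Finset.sum_congr rfl hH, ← Finset.mul_sum]
  have h1 : (1 / N) * ∑ a ∈ A, (∑ σ : K →+* ℂ, Real.log (max 1 ‖σ a‖) + ∑ p ∈ S, M a p +
      N * Real.log 2) = (1 / N) * ∑ a ∈ A, (∑ σ : K →+* ℂ, Real.log (max 1 ‖σ a‖) +
      ∑ p ∈ S, M a p) + A.card * Real.log 2 := by
    rw [Finset.sum_add_distrib, Finset.sum_const, nsmul_eq_mul, mul_add]
    congr 1
    field_simp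
  rw [← h1]
  exact mul_le_mul_of_nonneg_left hsum (one_div_pos.2 hN0).le

end GalH
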