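import Pool.Agent.GalH.Glob
import Pool.Agent.GalH.Gal
import Pool.Agent.GalH.Unity
import Pool.Agent.EGR.FinalU

/-!
# Small points on arbitrary curves: the stable Arakelov height is at most the Weil height of the
branch points plus a term which is logarithmic in the degree (for Galois covers, and for covers
with good reduction outside a fixed set of primes) plus a constant

Let `K` be a number field, `X` a smooth projective geometrically irreducible curve over `K` of genus
`g ≥ 2`, `x : X → P^1` a morphism of degree `d` over `K` whose finite branch points lie in `A`, and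
`P` a `K`-rational point with `b = x(P)` finite, not in `A`. Let `e` be the order of the geometric
monodromy group of `x`, and let `D` be `gcd(e, lcm(1, ..., d))` without its prime factors `p` at
which `x` has good reduction (`GoodAt`; for them the `b - a` are assumed to be `p`-units). Then the
stable Arakelov height of `P` is at most
`H + log D + Σ_{p | D} (log p) / (p - 1) + (1/2) log(1 + 1/g) + (1/g) log(1 + g)`,
where `H` is the absolute logarithmic (projective) Weil height of the vector `(1/(b - a))`, `a ∈ A`.
Note that `Σ_{p | D} (log p) / (p - 1) ≤ log D`.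

- If `x` is geometrically Galois, `D` divides `d`, and `d ≤ 84 (g - 1)` by Hurwitz.
- If `x` has good reduction outside `S` (and the `b - a` are units outside `S`), `D ≤ d^|S|`, as
  `D` divides `lcm(1, ..., d)`.
- In general the term is at most `ψ(d) + Σ_{p ≤ d} (log p) / (p - 1) = ψ(d) + log d + O(1)`, where
  `ψ(d) = log lcm(1, ..., d)` (`GalH.loss_wild_le`).
- If `b` is a root of unity, `H ≤ Σ_{a ∈ A} (h(a) + log 2)`, `h` the absolute logarithmic Weil
  height. As all heights are absolute and `K` is any number field that contains `A` and the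
  coordinates of `P`, this gives infinitely many points of explicitly bounded height on every curve.

For a Belyi map (`A = {0, 1}`) and `b` a primitive sixth root of unity `H = 0`.

The term `(v_p(D) + 1/(p - 1)) log p` for `p^m` is that of the radius of convergence of
`(1 + x)^(1/p^m)`. It comes from two facts: the trace dual of the integral closure over the Gauss valuation is killed by
every power of the uniformiser which does not divide the order of the Galois group
(`GalH.gauss_gal`), and the differential equation of the algebraic functions (`GalH.coeff_ode`).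

The curve is given by a plane model `F(x, y) = 0`, `F` monic in `y`, geometrically irreducible, with
`F(b, ·)` separable, `P = (b, y0)`. The definitions (with the explanation why `height` is the stable
Arakelov height) are in `Pool.Agent.ALC.Defs`. `e σ` is an orthonormal basis of the holomorphic
differentials of the complex curve `X_σ` (`g σ` elements, `g σ` = genus), `G` its Arakelov Green
function with pole at `P`, and `l σ` the value at `P` of `G - log |x - b|`. The existence of `e σ` and
the existence and uniqueness of `l σ` are part of the theorem.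
-/

open Polynomial

namespace GalH.Draft

theorem result (K : Type*) [Field K] [NumberField K] (F : K[X][X]) (hF : F.Monic)
    (hirr : ALC.GeomIrred F) (A : Finset K) (hA : A.Nonempty) (hun : ALC.UnramifiedOutside F A)
    (b y0 : K) (hb : b ∉ A) (hs : (ALC.at_ F b).Separable) (h0 : (ALC.at_ F b).eval y0 = 0) :
    (∀ σ : K →+* ℂ, ∃ (g : ℕ) (e : Fin g → ℂ[X][X] × ℂ[X]), ALC.IsONB (ALC.bc σ F) g e) ∧
    (∀ (g : (K →+* ℂ) → ℕ) (e : ∀ σ : K →+* ℂ, Fin (g σ) → ℂ[X][X] × ℂ[X]),
      (∀ σ, 2 ≤ g σ) → (∀ σ, ALC.IsONB (ALC.bc σ F) (g σ) (e σ)) →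
      (∀ σ, ∃! l : ℝ, ∃ G, ALC.IsGreen (ALC.bc σ F) (e σ) (σ b) (σ y0) G l) ∧
      ∀ l : (K →+* ℂ) → ℝ,
        (∀ σ, ∃ G, ALC.IsGreen (ALC.bc σ F) (e σ) (σ b) (σ y0) G (l σ)) →
        ALC.height K F b y0 l ≤
          ((ALC.branchHeight K A b + GalH.loss (GalH.lossNum F A b) +
            (1 / (Module.finrank ℚ K : ℝ)) * ∑ σ : K →+* ℂ,
              ((1 / 2) * Real.log (1 + 1 / (g σ : ℝ)) +
                (1 / (g σ : ℝ)) * Real.log (1 + (g σ : ℝ))) : ℝ) : EReal)) ∧
    (Nat.card (ALC.FF (ALC.bc (algebraMap K (AlgebraicClosure K)) F)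
      ≃ₐ[RatFunc (AlgebraicClosure K)] ALC.FF (ALC.bc (algebraMap K (AlgebraicClosure K)) F)) =
        F.natDegree → GalH.lossNum F A b ∣ F.natDegree) ∧
    ∀ n : ℕ, 0 < n → b ^ n = 1 →
      ALC.branchHeight K A b ≤ ∑ a ∈ A, GalH.absHeight K a + A.card * Real.log 2 := by
  refine ⟨fun σ => EGR.onb_bc F hF hirr b hs σ, fun g e hg he => ?_,
    fun h => (GalH.lossNum_dvd F A b).trans (GalH.wild_galois F hF hirr h).dvd,
    fun n hn hbn => GalH.branchHeight_unity A hA b hb n hn hbn⟩
  · have hg1 : ∀ σ, 1 ≤ g σ := fun σ => le_trans (by norm_num) (hg σ)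
    refine ⟨fun σ => ?_, fun l hl => ?_⟩
    · obtain ⟨G, l, hG⟩ := EGR.green_bc F hF hirr b y0 hs h0 σ (g σ) (hg1 σ) (e σ) (he σ)
      refine ⟨l, ⟨G, hG⟩, fun l' hl' => ?_⟩
      obtain ⟨G', hG'⟩ := hl'
      exact EGR.unique_bc F hF hirr b y0 hs h0 σ (g σ) (hg1 σ) (e σ) (he σ) G' G l' l hG' hG
    · choose G hG using hl
      exact GalH.main_gal F hF hirr A hA hun b y0 hb hs h0 g hg1 e he G l hG

end GalH.Draft
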