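import Pool.Agent.ALC.Ram
import Pool.Agent.ALC.Base
import Pool.Agent.GalH.Desc

/-!
The number field L: contains the field K' of `desc` and an N-th root of p; the order of the Galois
group after base change and substitution.
-/

open Polynomial

universe u

namespace GalH

open ALC

/-- an injective homomorphism of polynomial rings maps `F` to a polynomial with smaller Galois
group -/
theorem galOrd_map {K L : Type*} [Field K] [Field L] (θ : K[X] →+* L[X])
    (hθ : Function.Injective θ) (F : K[X][X])
    (hs : (F.map (algebraMap K[X] (RatFunc K))).Separable) :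
    galOrd (F.map θ) ∣ galOrd F := by
  have hinj : Function.Injective ((algebraMap L[X] (RatFunc L)).comp θ) := by
    rw [RingHom.coe_comp]
    exact (RatFunc.algebraMap_injective L).comp hθ
  let ψ : RatFunc K →+* RatFunc L := IsFractionRing.lift hinj
  have hψ : ψ.comp (algebraMap K[X] (RatFunc K)) =
      (algebraMap L[X] (RatFunc L)).comp θ :=
    RingHom.ext fun p => IsFractionRing.lift_algebraMap hinj p
  have e : (F.map θ).map (algebraMap L[X] (RatFunc L)) =
      (F.map (algebraMap K[X] (RatFunc K))).map ψ := by
    rw [Polynomial.map_map, Polynomial.map_map, hψ]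
  unfold galOrd
  rw [e]
  exact gal_dvd ψ _ hs

theorem galOrd_pos {K : Type*} [Field K] (F : K[X][X]) : 0 < galOrd F :=
  Module.finrank_pos

theorem monOrd_pos {K : Type*} [Field K] (F : K[X][X]) : 0 < monOrd F :=
  galOrd_pos _

theorem sub_injective {K L : Type*} [Field K] [Field L] (j : K →+* L) (b η : L) (hη : η ≠ 0) :
    Function.Injective (sub j b η) := by
  rw [injective_iff_map_eq_zero]
  intro p hp
  have h1 : (p.map j).comp (C b + C η * X) = 0 := by
    rw [← hp]
    simp [sub, Polynomial.comp, Polynomial.eval₂_map]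
  rw [Polynomial.comp_eq_zero_iff] at h1
  rcases h1 with h1 | ⟨-, h1⟩
  · exact (Polynomial.map_eq_zero_iff j.injective).1 h1
  · exfalso
    have h2 := congrArg (fun q => Polynomial.coeff q 1) h1
    simp only [coeff_add, coeff_C_mul, coeff_X_one, mul_one, coeff_C_succ, zero_add] at h2
    exact hη h2

/-- separability over `L(x)` after base change -/
theorem sep_map {K L : Type*} [Field K] [Field L] (θ : K[X] →+* L[X])
    (hθ : Function.Injective θ) (F : K[X][X])
    (hs : (F.map (algebraMap K[X] (RatFunc K))).Separable) :
    ((F.map θ).map (algebraMap L[X] (RatFunc L))).Separable := by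
  have hinj : Function.Injective ((algebraMap L[X] (RatFunc L)).comp θ) := by
    rw [RingHom.coe_comp]
    exact (RatFunc.algebraMap_injective L).comp hθ
  let ψ : RatFunc K →+* RatFunc L := IsFractionRing.lift hinj
  have hψ : ψ.comp (algebraMap K[X] (RatFunc K)) =
      (algebraMap L[X] (RatFunc L)).comp θ :=
    RingHom.ext fun p => IsFractionRing.lift_algebraMap hinj p
  have e : (F.map θ).map (algebraMap L[X] (RatFunc L)) =
      (F.map (algebraMap K[X] (RatFunc K))).map ψ := by
    rw [Polynomial.map_map, Polynomial.map_map, hψ]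
  rw [e]
  exact hs.map

/-- the field `L` -/
theorem exists_ext {K : Type u} [Field K] [NumberField K] (F : K[X][X]) (hF : F.Monic)
    (hs : (F.map (algebraMap K[X] (RatFunc K))).Separable) (p : ℕ) [Fact p.Prime]
    (τ : K →+* ℂ_[p]) (N : ℕ) (hN : 0 < N) :
    ∃ (L : Type u) (_ : Field L) (_ : NumberField L) (_ : Algebra K L)
      (_ : Algebra.IsAlgebraic K L) (τL : L →+* ℂ_[p]),
      τL.comp (algebraMap K L) = τ ∧ (∃ w : L, w ^ N = (p : L)) ∧
      ∀ (b η : L), η ≠ 0 → galOrd (F.map (sub (algebraMap K L) b η)) ∣ monOrd F := by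
  obtain ⟨K', _, _, _, hd⟩ := desc F hF hs
  have hnf : NumberField K' := NumberField.of_module_finite K K'
  let _ : Algebra K ℂ_[p] := τ.toAlgebra
  let τ1 : K' →ₐ[K] ℂ_[p] := IsAlgClosed.lift
  obtain ⟨L, _, _, _, _, τL, hτL, hw⟩ := exists_ram p (τ1 : K' →+* ℂ_[p]) N hN
  let _ : Algebra K L := ((algebraMap K' L).comp (algebraMap K K')).toAlgebra
  have hst : IsScalarTower K K' L := IsScalarTower.of_algebraMap_eq (fun _ => rfl)
  have halg : Algebra.IsAlgebraic K L := Algebra.IsAlgebraic.trans K K' L
  refine ⟨L, inferInstance, inferInstance, inferInstance, halg, τL, ?_, hw, fun b η hη => ?_⟩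
  · rw [IsScalarTower.algebraMap_eq K K' L, ← RingHom.comp_assoc, hτL]
    exact RingHom.ext fun x => τ1.commutes x
  · have e : F.map (sub (algebraMap K L) b η) =
        (bc (algebraMap K K') F).map (sub (algebraMap K' L) b η) := by
      unfold bc
      rw [Polynomial.map_map]
      congr 1
      apply Polynomial.ringHom_ext
      · intro a
        simp [sub, IsScalarTower.algebraMap_apply K K' L]
      · simp [sub]
    rw [e]
    refine (galOrd_map _ (sub_injective _ b η hη) _ ?_).trans hd
    exact sep_map _ (Polynomial.map_injective _ (algebraMap K K').injective) F hs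

end GalH
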