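import Mathlib

/-!
|n!| >= p^(-n/(p-1)) in C_p: v_p(n!) (p - 1) = n - (digit sum) (`sub_one_mul_padicValNat_factorial`).
Norm of a natural number in C_p: PadicComplex.norm_extends', Padic.norm (see `PRadAux.norm_p` in
Pool/Agent/ALC/PRad.lean).
-/

namespace GalH

/-- The norm of a nonzero natural number. -/
theorem nat_norm (p : ℕ) [Fact p.Prime] (n : ℕ) (hn : n ≠ 0) :
    ‖((n : ℕ) : ℂ_[p])‖ = ((p : ℝ) ^ (padicValNat p n))⁻¹ := by
  have h1 : ((n : ℚ_[p]) : ℂ_[p]) = (n : ℂ_[p]) := by simp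
  have hp : (0 : ℝ) < p := by exact_mod_cast (Fact.out : p.Prime).pos
  rw [← h1, PadicComplex.norm_extends']
  have h2 : ((n : ℚ) : ℚ_[p]) = (n : ℚ_[p]) := by norm_cast
  rw [← h2, Padic.eq_padicNorm, padicNorm.eq_zpow_of_nonzero (by exact_mod_cast hn),
    padicValRat.of_nat, zpow_neg, zpow_natCast]
  push_cast
  rfl

theorem fact_norm (p : ℕ) [Fact p.Prime] (n : ℕ) :
    (p : ℝ) ^ (-((n : ℝ) / ((p : ℝ) - 1))) ≤ ‖((n.factorial : ℕ) : ℂ_[p])‖ := by
  have hp1 : 1 < p := (Fact.out : p.Prime).one_lt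
  have hp : (1 : ℝ) < p := by exact_mod_cast hp1
  rw [nat_norm p _ n.factorial_ne_zero, ← Real.rpow_natCast, ← Real.rpow_neg (by linarith)]
  apply Real.rpow_le_rpow_of_exponent_le hp.le
  rw [neg_le_neg_iff, le_div_iff₀ (by linarith)]
  have h := sub_one_mul_padicValNat_factorial (p := p) n
  have h2 : (p - 1) * padicValNat p n.factorial ≤ n := by
    rw [h]
    exact Nat.sub_le _ _
  have h3 : (((p - 1) * padicValNat p n.factorial : ℕ) : ℝ) ≤ n := by exact_mod_cast h2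
  rw [Nat.cast_mul, Nat.cast_sub hp1.le, Nat.cast_one] at h3
  linarith

end GalH
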