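import Mathlib

/-!
The bound of the different over a discrete valuation ring A in a Galois extension (the analogue of
Pool/Agent/ALC/Gauss.lean, theorem ALC.gauss, which uses all n <= [L : K] instead of |G|).

gauss_gal. A DVR with uniformiser w, K = Frac A, E/K finite Galois with group G, C = integral closure
of A in E (Dedekind: copy the haveI block of ALC.gauss). Let y in E be in the trace dual of C and
w^m not divide |G| = [E : K]. Then w^m y is in C.
Proof. Put u = w^m y and suppose u not in C. The private theorem `gauss_inv` of ALC/Gauss.lean (COPY IT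
here) gives a, b in C, c in C with a u = c, u b = 1 - a. J = {c in C : c u in C} is a proper ideal,
contained in a maximal ideal P; a in J, so a in P. Let I be the ideal generated by the sigma(1 - a),
sigma in G. I = C: otherwise I is in a maximal ideal Q; P and Q both lie over the maximal ideal of A (C
is integral over the local ring A), so Q = sigma(P) for some sigma in G (transitivity:
`Ideal.exists_map_eq_of_isGalois` / `Algebra.IsInvariant.exists_smul_of_under_eq`, G acts on
C = integralClosure A E through `galRestrict`), then sigma(a) and sigma(1 - a) are in Q, 1 in Q.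
So 1 = sum_sigma c_sigma sigma(1 - a) = sum c_sigma sigma(u) sigma(b) with c_sigma in C; u = w^m y
and sigma(w) = w: w^(-m) = sum c_sigma sigma(b) sigma(y). Take traces:
|G| w^(-m) = Tr(w^(-m)) = sum Tr(c_sigma sigma(b) sigma(y)) = sum Tr(sigma^(-1)(c_sigma) b y) in A
(trace is invariant: `Algebra.trace_eq_of_algEquiv`), so w^m divides |G|, contradiction.

gauss_sub. K < L < E, E/K Galois, y in L in the trace dual of the integral closure C_L: for c in E integral
over A: Tr_{E/K}(y c) = Tr_{L/K}(y Tr_{L/E} c) (`Algebra.trace_trace`), Tr_{E/L} c is integral over A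
(`Algebra.isIntegral_trace`, first over the integral closure or directly), so y is in the dual of C_E;
gauss_gal gives w^m y integral in E, hence in L (injective algebraMap, `isIntegral_algebraMap_iff`).
-/

namespace GalH

open scoped nonZeroDivisors

/-- `u` lies in the fractional ideal generated by `1, u`, which is invertible -/
private theorem gauss_inv {C L : Type*} [CommRing C] [IsDedekindDomain C] [Field L]
    [Algebra C L] [IsFractionRing C L] (u : L) :
    ∃ a b : C, (∃ c : C, algebraMap C L a * u = algebraMap C L c) ∧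
      u * algebraMap C L b = algebraMap C L (1 - a) := by
  classical
  set M : FractionalIdeal C⁰ L := 1 + FractionalIdeal.spanSingleton C⁰ u with hM
  have h1M : (1 : L) ∈ M := by
    rw [hM, FractionalIdeal.mem_add]
    exact ⟨1, FractionalIdeal.one_mem_one _, 0, FractionalIdeal.zero_mem _, add_zero _⟩
  have huM : u ∈ M := by
    rw [hM, FractionalIdeal.mem_add]
    exact ⟨0, FractionalIdeal.zero_mem _, u, FractionalIdeal.mem_spanSingleton_self _ _,
      zero_add _⟩
  have hM0 : M ≠ 0 := by
    intro h
    rw [h, FractionalIdeal.mem_zero_iff] at h1M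
    exact one_ne_zero h1M
  have hinv : (1 : L) ∈ M * M⁻¹ := by
    rw [mul_inv_cancel₀ hM0]
    exact FractionalIdeal.one_mem_one _
  have hinv' : (1 : L) ∈ M⁻¹ + FractionalIdeal.spanSingleton C⁰ u * M⁻¹ := by
    have e : M * M⁻¹ = M⁻¹ + FractionalIdeal.spanSingleton C⁰ u * M⁻¹ := by
      conv_lhs => rw [hM]
      rw [add_mul, one_mul]
    rw [← e]
    exact hinv
  obtain ⟨a, ha, z, hz, haz⟩ := (FractionalIdeal.mem_add _ _ _).1 hinv'
  obtain ⟨b, hb, rfl⟩ := FractionalIdeal.mem_singleton_mul.1 hz
  rw [FractionalIdeal.mem_inv_iff hM0] at ha hb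
  obtain ⟨a', ha'⟩ := (FractionalIdeal.mem_one_iff _).1 (ha 1 h1M)
  obtain ⟨b', hb'⟩ := (FractionalIdeal.mem_one_iff _).1 (hb 1 h1M)
  obtain ⟨c', hc'⟩ := (FractionalIdeal.mem_one_iff _).1 (ha u huM)
  rw [mul_one] at ha' hb'
  refine ⟨a', b', ⟨c', by rw [ha', hc']⟩, ?_⟩
  rw [map_sub, map_one, ha', hb', ← haz]
  ring

theorem gauss_gal {A K E : Type*} [CommRing A] [IsDomain A] [IsDiscreteValuationRing A] [Field K]
    [Algebra A K] [IsFractionRing A K] [Field E] [Algebra K E] [FiniteDimensional K E]
    [IsGalois K E] [Algebra A E] [IsScalarTower A K E] (w : A) (hw : Irreducible w)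
    (m : ℕ) (hm : ¬ w ^ m ∣ ((Module.finrank K E : ℕ) : A)) (y : E)
    (hy : ∀ c : E, IsIntegral A c → ∃ a : A, Algebra.trace K E (y * c) = algebraMap A K a) :
    IsIntegral A (algebraMap A E w ^ m * y) := by
  classical
  by_contra hnot
  have hAE : Function.Injective (algebraMap A E) := by
    rw [IsScalarTower.algebraMap_eq A K E]
    exact (algebraMap K E).injective.comp (IsFractionRing.injective A K)
  have : FaithfulSMul A E := (faithfulSMul_iff_algebraMap_injective A E).2 hAE
  have : Module.IsTorsionFree A E := inferInstance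
  have hDC : IsDedekindDomain (integralClosure A E) := integralClosure.isDedekindDomain A K E
  have hFC : IsFractionRing (integralClosure A E) E :=
    integralClosure.isFractionRing_of_finite_extension K E
  have hint : Algebra.IsIntegral A (integralClosure A E) := inferInstance
  set C := integralClosure A E with hC
  set u : E := algebraMap A E w ^ m * y with hu
  -- the ideal of denominators
  let J : Ideal C :=
    { carrier := {c | ∃ c' : C, algebraMap C E c * u = algebraMap C E c'}
      add_mem' := by
        rintro a b ⟨a', ha⟩ ⟨b', hb⟩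
        exact ⟨a' + b', by rw [map_add, add_mul, ha, hb, map_add]⟩
      zero_mem' := ⟨0, by simp⟩
      smul_mem' := by
        rintro c a ⟨a', ha⟩
        exact ⟨c * a', by rw [smul_eq_mul, map_mul, mul_assoc, ha, map_mul]⟩ }
  have hJ1 : J ≠ ⊤ := by
    intro h
    have h1 : (1 : C) ∈ J := by rw [h]; trivial
    obtain ⟨c', hc'⟩ := h1
    rw [map_one, one_mul] at hc'
    apply hnot
    rw [hc']
    exact c'.2
  obtain ⟨P, hPmax, hJP⟩ := Ideal.exists_le_maximal J hJ1
  have hPprime : P.IsPrime := hPmax.isPrime
  obtain ⟨a, b, haJ, hab⟩ := gauss_inv (C := C) u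
  have haP : a ∈ P := hJP haJ
  -- the conjugates of 1 - a generate the unit ideal
  have htop : Ideal.span (Set.range fun σ : (E ≃ₐ[K] E) => galRestrict A K E C σ (1 - a)) = ⊤ := by
    by_contra h
    obtain ⟨Q, hQmax, hle⟩ := Ideal.exists_le_maximal _ h
    have hQprime : Q.IsPrime := hQmax.isPrime
    have hN := prod_galRestrict_eq_norm A (K := K) (L := E) (B := C) a
    have h1 : (∏ σ : (E ≃ₐ[K] E), galRestrict A K E C σ a) ∈ P := by
      rw [hPprime.prod_mem_iff]
      exact ⟨1, Finset.mem_univ _, by rw [map_one]; exact haP⟩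
    have h2 : P.comap (algebraMap A C) = Q.comap (algebraMap A C) := by
      have e1 : (P.comap (algebraMap A C)).IsMaximal :=
        Ideal.isMaximal_comap_of_isIntegral_of_isMaximal P
      have e2 : (Q.comap (algebraMap A C)).IsMaximal :=
        Ideal.isMaximal_comap_of_isIntegral_of_isMaximal Q
      rw [IsLocalRing.eq_maximalIdeal e1, IsLocalRing.eq_maximalIdeal e2]
    have h3 : (∏ σ : (E ≃ₐ[K] E), galRestrict A K E C σ a) ∈ Q := by
      rw [hN] at h1 ⊢
      have h4 := Ideal.mem_comap.2 h1
      rw [h2] at h4
      exact Ideal.mem_comap.1 h4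
    rw [hQprime.prod_mem_iff] at h3
    obtain ⟨σ, -, hσ⟩ := h3
    have h5 : galRestrict A K E C σ (1 - a) ∈ Q := hle (Ideal.subset_span ⟨σ, rfl⟩)
    apply hQprime.ne_top
    rw [Ideal.eq_top_iff_one]
    have h6 := Q.add_mem h5 hσ
    rwa [← map_add, sub_add_cancel, map_one] at h6
  have h1 : (1 : C) ∈ Ideal.span (Set.range fun σ : (E ≃ₐ[K] E) =>
      galRestrict A K E C σ (1 - a)) := by
    rw [htop]
    trivial
  obtain ⟨c, hc⟩ := Ideal.mem_span_range_iff_exists_fun.1 h1
  -- take traces
  have hE : (1 : E) = algebraMap A E w ^ m * ∑ σ : (E ≃ₐ[K] E),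
      algebraMap C E (c σ) * σ (y * algebraMap C E b) := by
    have h2 := congrArg (algebraMap C E) hc
    rw [map_one, map_sum] at h2
    rw [← h2, Finset.mul_sum]
    refine Finset.sum_congr rfl fun σ _ => ?_
    rw [map_mul, algebraMap_galRestrict_apply, ← hab, hu]
    have h3 : σ (algebraMap A E w) = algebraMap A E w := by
      rw [IsScalarTower.algebraMap_apply A K E, AlgEquiv.commutes]
    rw [map_mul σ (algebraMap A E w ^ m * y), map_mul σ (algebraMap A E w ^ m), map_pow, h3,
      map_mul σ y]
    ring
  have hterm : ∀ σ : (E ≃ₐ[K] E), ∃ r : A,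
      Algebra.trace K E (algebraMap C E (c σ) * σ (y * algebraMap C E b)) = algebraMap A K r := by
    intro σ
    have h2 : algebraMap C E (c σ) * σ (y * algebraMap C E b) =
        σ (y * (algebraMap C E b * σ.symm (algebraMap C E (c σ)))) := by
      rw [← mul_assoc, map_mul σ (y * algebraMap C E b), AlgEquiv.apply_symm_apply]
      ring
    rw [h2, Algebra.trace_eq_of_algEquiv]
    apply hy
    refine IsIntegral.mul b.2 ?_
    exact (c σ).2.map (σ.symm.toAlgHom.restrictScalars A)
  choose r hr using hterm
  apply hm
  refine ⟨∑ σ : (E ≃ₐ[K] E), r σ, ?_⟩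
  apply IsFractionRing.injective A K
  have h2 := congrArg (Algebra.trace K E) hE
  have h3 : (1 : E) = algebraMap K E 1 := (map_one _).symm
  have h4 : algebraMap A E w ^ m * ∑ σ : (E ≃ₐ[K] E),
      algebraMap C E (c σ) * σ (y * algebraMap C E b) =
      (algebraMap A K w ^ m) • ∑ σ : (E ≃ₐ[K] E),
      algebraMap C E (c σ) * σ (y * algebraMap C E b) := by
    rw [Algebra.smul_def, map_pow, ← IsScalarTower.algebraMap_apply A K E]
  rw [h4, map_smul, map_sum, Finset.sum_congr rfl fun σ _ => hr σ, h3, Algebra.trace_algebraMap]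
    at h2
  rw [map_natCast, map_mul, map_pow, map_sum, ← smul_eq_mul, ← h2, nsmul_eq_mul, mul_one]

theorem gauss_sub {A K L E : Type*} [CommRing A] [IsDomain A] [IsDiscreteValuationRing A] [Field K]
    [Algebra A K] [IsFractionRing A K] [Field L] [Algebra K L] [Field E] [Algebra K E]
    [Algebra L E] [IsScalarTower K L E] [FiniteDimensional K E] [IsGalois K E]
    [Algebra A L] [IsScalarTower A K L] (w : A) (hw : Irreducible w)
    (m : ℕ) (hm : ¬ w ^ m ∣ ((Module.finrank K E : ℕ) : A)) (y : L)
    (hy : ∀ c : L, IsIntegral A c → ∃ a : A, Algebra.trace K L (y * c) = algebraMap A K a) :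
    IsIntegral A (algebraMap A L w ^ m * y) := by
  letI : Algebra A E := ((algebraMap L E).comp (algebraMap A L)).toAlgebra
  have hALE : IsScalarTower A L E := IsScalarTower.of_algebraMap_eq fun x => rfl
  have hAKE : IsScalarTower A K E := IsScalarTower.of_algebraMap_eq fun x => by
    rw [IsScalarTower.algebraMap_apply A L E, IsScalarTower.algebraMap_apply A K L,
      ← IsScalarTower.algebraMap_apply K L E]
  have hLE : FiniteDimensional L E := FiniteDimensional.right K L E
  have hKL : FiniteDimensional K L := FiniteDimensional.left K L E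
  have h := gauss_gal (A := A) (K := K) (E := E) w hw m hm (algebraMap L E y) (by
    intro c hc
    obtain ⟨a, ha⟩ := hy (Algebra.trace L E c) (Algebra.isIntegral_trace hc)
    refine ⟨a, ?_⟩
    rw [← ha, ← Algebra.trace_trace (R := K) (S := L), ← Algebra.smul_def, map_smul, smul_eq_mul])
  have h2 : algebraMap A E w ^ m * algebraMap L E y =
      algebraMap L E (algebraMap A L w ^ m * y) := by
    rw [map_mul, map_pow, ← IsScalarTower.algebraMap_apply A L E]
  rw [h2] at h
  exact (isIntegral_algebraMap_iff (algebraMap L E).injective).1 h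

end GalH
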