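import Mathlib

/-!
The bound of Taylor coefficients from the linear differential equation (Dwork - Robba in the
algebraic case).

B is an algebra over R, free with basis b, b' is a dual basis up to the factor c for the trace form. Phi :
B -> L[[X]] is a section over T : R -> O[[X]], T(R) is closed under d/dX, the constant terms of Phi
are in O. Then c^k k! (coefficient k of Phi f) is in O.

Proof. Write T' r for the image of T r in L[[X]], u_i = Phi(b_i),
' = d/dX on L[[X]], choose delta : R -> R with T(delta r) = (T r)'.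
  D0(f) = sum_i delta(repr f i) b_i, lambda(f) = sum_i T'(repr f i) u_i'.
(1) Phi(f)' = lambda(f) + Phi(D0 f)  (Phi f = sum T'(repr f i) u_i, Leibniz).
(2) lambda is additive, lambda(r f) = T'(r) lambda(f).
(3) lambda(f g) = Phi(f) lambda(g) + Phi(g) lambda(f) - Phi(dd(f, g)), where
    dd(f, g) = D0(f g) - f D0(g) - g D0(f)  (from (1) for f, g, f g and (f g)' = f' g + f g').
(4) for f in B: f b_i = sum_j a_ij b_j (a_ij = repr (f b_i) j) and f b'_j = sum_i a_ij b'_i (both sides
    have the same trace products with the b_i), sum_i b_i b'_i = cR. So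
    sum_i lambda(f b_i) Phi(b'_i) = sum_ij T'(a_ij) lambda(b_j) Phi(b'_i) = Phi(f) sum_j lambda(b_j) Phi(b'_j),
    and by (3) the left side is C(c) lambda(f) + Phi(f) sum_i lambda(b_i) Phi(b'_i)
    - Phi(sum_i dd(f, b_i) b'_i). Hence C(c) lambda(f) = Phi(sum_i dd(f, b_i) b'_i).
(5) f = b_j: lambda(b_j) = u_j'. So c u_j' = sum_k T'(M_jk) u_k, M_jk = repr (sum_i dd(b_j, b_i) b'_i) k.
(6) induction on n: c^n n! (u_j)_l with l <= n is in O for all j (the step: coefficient n of (5) times
    c^n n!: c^(n+1) (n+1)! (u_j)_(n+1) = sum_k sum_(l <= n) (T M_jk)_(n-l) c^n n! (u_k)_l).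
(7) Phi f = sum_i T'(repr f i) u_i.
-/

open PowerSeries

namespace GalH

section ode_tr

variable {R B ι : Type*} [CommRing R] [CommRing B] [Algebra R B] [Fintype ι] [DecidableEq ι]

private theorem ode_repr (b : Module.Basis ι R B) (b' : ι → B) (cR : R)
    (htr : ∀ i j, Algebra.trace R B (b' i * b j) = if i = j then cR else 0) (j : ι) (y : B) :
    Algebra.trace R B (b' j * y) = cR * b.repr y j := by
  conv_lhs => rw [← b.sum_repr y, Finset.mul_sum]
  simp only [mul_smul_comm, map_sum, map_smul, htr, smul_eq_mul]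
  rw [Finset.sum_eq_single j]
  · rw [if_pos rfl, mul_comm]
  · intro i _ hij
    rw [if_neg hij.symm, mul_zero]
  · intro h
    exact absurd (Finset.mem_univ j) h

private theorem ode_nondeg [IsDomain R] (b : Module.Basis ι R B) (b' : ι → B) (cR : R)
    (hc : cR ≠ 0)
    (htr : ∀ i j, Algebra.trace R B (b' i * b j) = if i = j then cR else 0) (y : B)
    (hy : ∀ x, Algebra.trace R B (x * y) = 0) : y = 0 := by
  apply b.repr.injective
  ext j
  have h1 := ode_repr b b' cR htr j y
  rw [hy] at h1
  rcases mul_eq_zero.1 h1.symm with h | h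
  · exact absurd h hc
  · rw [h]
    simp

/-- multiplication by `f` in the dual basis -/
private theorem ode_dual [IsDomain R] (b : Module.Basis ι R B) (b' : ι → B) (cR : R)
    (hc : cR ≠ 0)
    (htr : ∀ i j, Algebra.trace R B (b' i * b j) = if i = j then cR else 0) (f : B) (j : ι) :
    ∑ i, b.repr (f * b i) j • b' i = f * b' j := by
  rw [← sub_eq_zero]
  apply ode_nondeg b b' cR hc htr
  intro x
  have h2 : ∀ l, Algebra.trace R B (b l * (∑ i, b.repr (f * b i) j • b' i - f * b' j)) = 0 := by
    intro l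
    rw [mul_sub, map_sub, Finset.mul_sum, map_sum, sub_eq_zero]
    have h3 : Algebra.trace R B (b l * (f * b' j)) = cR * b.repr (f * b l) j := by
      rw [← ode_repr b b' cR htr]
      congr 1
      ring
    rw [h3, Finset.sum_eq_single l]
    · rw [mul_smul_comm, map_smul, smul_eq_mul, mul_comm (b l) (b' l), htr, if_pos rfl, mul_comm]
    · intro i _ hij
      rw [mul_smul_comm, map_smul, smul_eq_mul, mul_comm (b l) (b' i), htr, if_neg hij, mul_zero]
    · intro h
      exact absurd (Finset.mem_univ l) h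
  rw [← b.sum_repr x, Finset.sum_mul, map_sum]
  refine Finset.sum_eq_zero fun l _ => ?_
  rw [smul_mul_assoc, map_smul, h2, smul_zero]

private theorem ode_euler [IsDomain R] (b : Module.Basis ι R B) (b' : ι → B) (cR : R)
    (hc : cR ≠ 0)
    (htr : ∀ i j, Algebra.trace R B (b' i * b j) = if i = j then cR else 0) :
    ∑ i, b i * b' i = algebraMap R B cR := by
  rw [← sub_eq_zero]
  apply ode_nondeg b b' cR hc htr
  intro x
  rw [mul_sub, map_sub, sub_eq_zero, Finset.mul_sum, map_sum]
  have h1 : Algebra.trace R B x = ∑ i, b.repr (x * b i) i := by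
    rw [Algebra.trace_eq_matrix_trace b, Matrix.trace]
    refine Finset.sum_congr rfl fun i _ => ?_
    rw [Matrix.diag_apply, Algebra.leftMulMatrix_eq_repr_mul]
  have h2 : Algebra.trace R B (x * algebraMap R B cR) = cR * Algebra.trace R B x := by
    rw [mul_comm x, ← Algebra.smul_def, map_smul, smul_eq_mul]
  rw [h2, h1, Finset.mul_sum]
  refine Finset.sum_congr rfl fun i _ => ?_
  rw [← ode_repr b b' cR htr]
  congr 1
  ring

end ode_tr

section ode_main

variable {R B S ι : Type*} [CommRing R] [CommRing B] [Algebra R B] [CommRing S] [Fintype ι]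
  [DecidableEq ι]

omit [DecidableEq ι] in
private theorem ode_phi (b : Module.Basis ι R B) (T : R →+* S) (Φ : B →+* S)
    (hΦ : ∀ r, Φ (algebraMap R B r) = T r) (y : B) :
    ∑ l, T (b.repr y l) * Φ (b l) = Φ y := by
  conv_rhs => rw [← b.sum_repr y]
  rw [map_sum]
  refine Finset.sum_congr rfl fun l _ => ?_
  rw [Algebra.smul_def, map_mul, hΦ]

/-- The differential equation: for a derivation `D` of `S` which maps `T(R)` to itself, `T(cR)` times
the derivative of `Φ (b j)` is in the image of `B`. -/
private theorem ode_eq [IsDomain R] (b : Module.Basis ι R B) (b' : ι → B) (cR : R) (hc : cR ≠ 0)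
    (htr : ∀ i j, Algebra.trace R B (b' i * b j) = if i = j then cR else 0)
    (T : R →+* S) (Φ : B →+* S) (hΦ : ∀ r, Φ (algebraMap R B r) = T r)
    (D : S → S) (hD0 : ∀ x y, D (x + y) = D x + D y) (hD1 : ∀ x y, D (x * y) = x * D y + y * D x)
    (hder : ∀ r : R, ∃ r' : R, T r' = D (T r)) (j : ι) :
    ∃ y : B, T cR * D (Φ (b j)) = Φ y := by
  choose δ hδ using hder
  have hDz : D 0 = 0 := by
    have h := hD0 0 0
    rw [add_zero] at h
    exact left_eq_add.1 h
  have hDs : ∀ (s : Finset ι) (v : ι → S), D (∑ i ∈ s, v i) = ∑ i ∈ s, D (v i) := by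
    classical
    intro s v
    induction s using Finset.induction_on with
    | empty => rw [Finset.sum_empty, Finset.sum_empty, hDz]
    | insert i s hi ih => rw [Finset.sum_insert hi, Finset.sum_insert hi, hD0, ih]
  let D0 : B → B := fun f => ∑ i, δ (b.repr f i) • b i
  let lam : B → S := fun f => ∑ i, T (b.repr f i) * D (Φ (b i))
  have h1 : ∀ f, D (Φ f) = lam f + Φ (D0 f) := by
    intro f
    have e1 : Φ f = ∑ l, T (b.repr f l) * Φ (b l) := (ode_phi b T Φ hΦ f).symm
    rw [e1, hDs]
    change _ = ∑ i, T (b.repr f i) * D (Φ (b i)) + Φ (∑ i, δ (b.repr f i) • b i)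
    rw [map_sum, ← Finset.sum_add_distrib]
    refine Finset.sum_congr rfl fun i _ => ?_
    rw [hD1, Algebra.smul_def, map_mul, hΦ, hδ]
    ring
  have h2 : ∀ f, lam f = D (Φ f) - Φ (D0 f) := fun f => by rw [h1 f]; ring
  have hlamb : ∀ i, lam (b i) = D (Φ (b i)) := by
    intro i
    change ∑ l, T (b.repr (b i) l) * D (Φ (b l)) = _
    rw [Finset.sum_eq_single i]
    · rw [b.repr_self, Finsupp.single_eq_same, map_one, one_mul]
    · intro l _ hl
      rw [b.repr_self, Finsupp.single_eq_of_ne hl, map_zero, zero_mul]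
    · intro h
      exact absurd (Finset.mem_univ i) h
  let dd : B → B → B := fun f g => D0 (f * g) - f * D0 g - g * D0 f
  have h3 : ∀ f g, lam (f * g) = Φ f * lam g + Φ g * lam f - Φ (dd f g) := by
    intro f g
    change _ = _ - Φ (D0 (f * g) - f * D0 g - g * D0 f)
    rw [h2 (f * g), h2 f, h2 g, map_mul Φ f g, hD1, map_sub, map_sub, map_mul, map_mul]
    ring
  set f : B := b j with hf
  -- the left side
  have h4 : ∑ i, lam (f * b i) * Φ (b' i) = Φ f * ∑ l, D (Φ (b l)) * Φ (b' l) := by
    have e1 : ∀ i, lam (f * b i) * Φ (b' i)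
        = ∑ l, T (b.repr (f * b i) l) * D (Φ (b l)) * Φ (b' i) := by
      intro i
      have e2 : lam (f * b i) = ∑ l, T (b.repr (f * b i) l) * D (Φ (b l)) := rfl
      rw [e2, Finset.sum_mul]
    rw [Finset.sum_congr rfl fun i _ => e1 i, Finset.sum_comm, Finset.mul_sum]
    refine Finset.sum_congr rfl fun l _ => ?_
    have e3 := congrArg Φ (ode_dual b b' cR hc htr f l)
    rw [map_sum, map_mul] at e3
    calc ∑ i, T (b.repr (f * b i) l) * D (Φ (b l)) * Φ (b' i)
        = D (Φ (b l)) * ∑ i, Φ (b.repr (f * b i) l • b' i) := by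
          rw [Finset.mul_sum]
          refine Finset.sum_congr rfl fun i _ => ?_
          rw [Algebra.smul_def, map_mul Φ, hΦ]
          ring
      _ = Φ f * (D (Φ (b l)) * Φ (b' l)) := by
          rw [e3]
          ring
  have h5 : ∑ i, lam (f * b i) * Φ (b' i)
      = Φ f * (∑ l, D (Φ (b l)) * Φ (b' l)) + T cR * lam f - Φ (∑ i, dd f (b i) * b' i) := by
    have e1 : T cR = ∑ i, Φ (b i) * Φ (b' i) := by
      rw [← hΦ, ← ode_euler b b' cR hc htr, map_sum]
      exact Finset.sum_congr rfl fun i _ => map_mul Φ _ _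
    rw [e1, map_sum, Finset.mul_sum, Finset.sum_mul, ← Finset.sum_add_distrib,
      ← Finset.sum_sub_distrib]
    refine Finset.sum_congr rfl fun i _ => ?_
    rw [h3, hlamb, map_mul]
    ring
  refine ⟨∑ i, dd f (b i) * b' i, ?_⟩
  have h6 := h4.symm.trans h5
  rw [← hlamb j]
  linear_combination -h6

end ode_main

theorem coeff_ode {O L R B ι : Type*} [CommRing O] [IsDomain O] [Field L] [CharZero L]
    [Algebra O L] [FaithfulSMul O L] [CommRing R] [IsDomain R] [CommRing B] [Algebra R B]
    [Fintype ι] [DecidableEq ι] (b : Module.Basis ι R B) (b' : ι → B) (c : O) (hc : c ≠ 0)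
    (cR : R) (T : R →+* PowerSeries O) (hTc : T cR = PowerSeries.C c)
    (hder : ∀ r : R, ∃ r' : R, T r' = PowerSeries.derivative O (T r))
    (htr : ∀ i j, Algebra.trace R B (b' i * b j) = if i = j then cR else 0)
    (Φ : B →+* PowerSeries L)
    (hΦ : ∀ r, Φ (algebraMap R B r) = PowerSeries.map (algebraMap O L) (T r))
    (hχ : ∀ f, ∃ a : O, (Φ f).coeff 0 = algebraMap O L a) (f : B) (k : ℕ) :
    ∃ a : O, algebraMap O L (c ^ k * (k.factorial : O)) * (Φ f).coeff k = algebraMap O L a := by
  set α := algebraMap O L with hα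
  have hcR : cR ≠ 0 := by
    intro h
    rw [h, map_zero] at hTc
    apply hc
    have := congrArg (PowerSeries.coeff 0) hTc
    simpa using this.symm
  set T' : R →+* PowerSeries L := (PowerSeries.map α).comp T with hT'
  have hΦ' : ∀ r, Φ (algebraMap R B r) = T' r := hΦ
  have hT'c : T' cR = PowerSeries.C (α c) := by
    rw [hT', RingHom.comp_apply, hTc, PowerSeries.map_C]
  have hder' : ∀ r : R, ∃ r' : R, T' r' = PowerSeries.derivative L (T' r) := by
    intro r
    obtain ⟨r', hr'⟩ := hder r
    refine ⟨r', ?_⟩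
    rw [hT', RingHom.comp_apply, RingHom.comp_apply, hr']
    ext n
    rw [PowerSeries.coeff_map, PowerSeries.coeff_derivative, PowerSeries.coeff_derivative,
      PowerSeries.coeff_map, map_mul]
    congr 1
    simp
  -- membership
  have hmem : ∀ x : L, x ∈ α.range ↔ ∃ a, x = α a := by
    intro x
    rw [RingHom.mem_range]
    exact ⟨fun ⟨a, ha⟩ => ⟨a, ha.symm⟩, fun ⟨a, ha⟩ => ⟨a, ha.symm⟩⟩
  have hode : ∀ j, ∃ y : B, T' cR * PowerSeries.derivative L (Φ (b j)) = Φ y := fun j =>
    ode_eq b b' cR hcR htr T' Φ hΦ' (fun x => PowerSeries.derivative L x)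
      (fun x y => map_add _ x y) (fun x y => by
        rw [Derivation.leibniz, smul_eq_mul, smul_eq_mul]) hder' j
  choose y hy using hode
  -- coefficients of the images of `B`
  have hlin : ∀ (n : ℕ) (w : L), (∀ l ≤ n, ∀ i, w * (Φ (b i)).coeff l ∈ α.range) → ∀ g : B,
      w * (Φ g).coeff n ∈ α.range := by
    intro n w hw g
    rw [← ode_phi b T' Φ hΦ' g, map_sum, Finset.mul_sum]
    refine Subring.sum_mem _ fun i _ => ?_
    rw [PowerSeries.coeff_mul, Finset.mul_sum]
    refine Subring.sum_mem _ fun p hp => ?_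
    have hp' : p.2 ≤ n := by
      have := Finset.HasAntidiagonal.mem_antidiagonal.1 hp
      omega
    have e1 : w * (PowerSeries.coeff p.1 (T' (b.repr g i)) * PowerSeries.coeff p.2 (Φ (b i)))
        = α (PowerSeries.coeff p.1 (T (b.repr g i))) * (w * PowerSeries.coeff p.2 (Φ (b i))) := by
      rw [hT', RingHom.comp_apply, PowerSeries.coeff_map]
      ring
    rw [e1]
    exact Subring.mul_mem _ ⟨_, rfl⟩ (hw p.2 hp' i)
  have main : ∀ n : ℕ, ∀ l ≤ n, ∀ j, α (c ^ n * (n.factorial : O)) * (Φ (b j)).coeff l ∈ α.range := by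
    intro n
    induction n with
    | zero =>
      intro l hl j
      obtain rfl : l = 0 := by omega
      obtain ⟨a, ha⟩ := hχ (b j)
      rw [ha]
      exact Subring.mul_mem _ ⟨_, rfl⟩ ⟨_, rfl⟩
    | succ n ih =>
      intro l hl j
      rcases Nat.lt_or_ge n l with h | h
      · obtain rfl : l = n + 1 := by omega
        have e1 := hlin n _ ih (y j)
        rw [← hy j, hT'c, PowerSeries.coeff_C_mul, PowerSeries.coeff_derivative] at e1
        have e2 : α (c ^ (n + 1) * ((n + 1).factorial : O)) * (Φ (b j)).coeff (n + 1)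
            = α (c ^ n * (n.factorial : O)) * (α c * ((Φ (b j)).coeff (n + 1) * ((n : L) + 1))) := by
          rw [Nat.factorial_succ]
          push_cast
          simp only [map_mul, map_pow, map_add, map_one, map_natCast]
          ring
        rw [e2]
        exact e1
      · have e1 := ih l h j
        have e2 : α (c ^ (n + 1) * ((n + 1).factorial : O)) * (Φ (b j)).coeff l
            = α (c * ((n : O) + 1)) * (α (c ^ n * (n.factorial : O)) * (Φ (b j)).coeff l) := by
          rw [Nat.factorial_succ]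
          push_cast
          simp only [map_mul, map_pow, map_add, map_one, map_natCast]
          ring
        rw [e2]
        exact Subring.mul_mem _ ⟨_, rfl⟩ e1
  exact (hmem _).1 (hlin k _ (main k) f)

end GalH
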