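import Pool.Agent.ALC.PMain
import Pool.Agent.GalH.Defs
import Pool.Agent.GalH.DualInt
import Pool.Agent.GalH.Gauss
import Pool.Agent.GalH.Ode
import Pool.Agent.GalH.Der
import Pool.Agent.GalH.Good

/-!
The bound of the Taylor coefficients of the formal branch over a discrete valuation ring O (see
Pool.Agent.ALC.PMain): w^m does not divide 1, ..., d, or w^m does not divide the order of the Galois
group, or (m arbitrary, for instance 0) there are integral elements with unit discriminant. First form: w^(N + 2 m k) Y_k in O (Hensel), second form: w^(N + m k) k! Y_k in O (linear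
differential equation).
-/

open Polynomial

namespace GalH

open ALC ALC.PM

/-- integrality of `w ^ m y` for `y` in the trace dual, from the Galois group -/
theorem hgs_gal {L A : Type*} [Field L] [CharZero L]
    [CommRing A] [IsDomain A] [IsDiscreteValuationRing A] [Algebra A (RatFunc L)]
    [IsFractionRing A (RatFunc L)] (F : L[X][X]) (hF : F.Monic) (hirr : Irreducible F)
    (wA : A) (hwA : Irreducible wA) (m : ℕ) (hm : ¬ wA ^ m ∣ ((galOrd F : ℕ) : A))
    [Fact (Irreducible (F.map (algebraMap L[X] (RatFunc L))))] (y : FF F)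
    (hy : ∀ c : FF F, IsIntegral A c →
      ∃ a : A, Algebra.trace (RatFunc L) (FF F) (y * c) = algebraMap A (RatFunc L) a) :
    IsIntegral A (algebraMap A (FF F) wA ^ m * y) := by
  have hirr' : Irreducible (F.map (algebraMap L[X] (RatFunc L))) := Fact.out
  have hsep : (F.map (algebraMap L[X] (RatFunc L))).Separable := hirr'.separable
  have hgal : IsGalois (RatFunc L) (F.map (algebraMap L[X] (RatFunc L))).SplittingField :=
    IsGalois.of_separable_splitting_field hsep
  obtain ⟨x, hx⟩ := (SplittingField.splits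
    (F.map (algebraMap L[X] (RatFunc L)))).exists_eval_eq_zero (by
      rw [degree_map]
      exact hirr'.degree_pos.ne')
  rw [eval_map] at hx
  let φ : FF F →+* (F.map (algebraMap L[X] (RatFunc L))).SplittingField :=
    AdjoinRoot.lift (algebraMap (RatFunc L) _) x hx
  let _ : Algebra (FF F) (F.map (algebraMap L[X] (RatFunc L))).SplittingField := φ.toAlgebra
  have : IsScalarTower (RatFunc L) (FF F) (F.map (algebraMap L[X] (RatFunc L))).SplittingField :=
    IsScalarTower.of_algebraMap_eq (fun r => (AdjoinRoot.lift_of hx).symm)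
  exact gauss_sub (K := RatFunc L) (L := FF F)
    (E := (F.map (algebraMap L[X] (RatFunc L))).SplittingField) wA hwA m hm y hy

/-- integrality of `w ^ m y` for `y` in the trace dual, from a unit discriminant -/
theorem hgs_disc {R A K E ι : Type*} [CommRing R] [CommRing A] [IsDomain A]
    [IsDiscreteValuationRing A] [Field K] [Algebra R K] [Algebra A K] [IsFractionRing A K]
    [Field E] [Algebra K E] [FiniteDimensional K E] [Algebra.IsSeparable K E] [Algebra R E]
    [IsScalarTower R K E] [Algebra A E] [IsScalarTower A K E]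
    (hRA : ∀ r : R, ∃ a : A, algebraMap A K a = algebraMap R K r) [Fintype ι] [DecidableEq ι]
    (θ : ι → E) (hθ : ∀ i, IsIntegral R (θ i)) (hι : Fintype.card ι = Module.finrank K E)
    (u : Rˣ) (hu : Algebra.discr K θ = algebraMap R K u) (w : A) (m : ℕ) (y : E)
    (hy : ∀ c : E, IsIntegral A c → ∃ a : A, Algebra.trace K E (y * c) = algebraMap A K a) :
    IsIntegral A (algebraMap A E w ^ m * y) := by
  obtain ⟨f, hf⟩ := dualInt_hom hRA
  have hfE : (algebraMap A E).comp f = algebraMap R E := by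
    ext r
    rw [RingHom.comp_apply, IsScalarTower.algebraMap_apply A K E, hf,
      ← IsScalarTower.algebraMap_apply R K E]
  refine IsIntegral.mul (isIntegral_algebraMap.pow m) ?_
  refine gauss_disc (K := K) θ (fun i => ?_) hι (Units.map f u) ?_ y hy
  · obtain ⟨q, hq, hq0⟩ := hθ i
    refine ⟨q.map f, hq.map f, ?_⟩
    rw [eval₂_map, hfE]
    exact hq0
  · rw [hu, Units.coe_map, MonoidHom.coe_coe, hf]

theorem abs_main_of {O L R A : Type*} [CommRing O] [IsDomain O] [IsDiscreteValuationRing O] [Field L]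
    [CharZero L] [Algebra O L] [IsFractionRing O L] [CommRing R] [IsDomain R] [IsLocalRing R]
    [IsNoetherianRing R] [IsIntegrallyClosed R]
    [Algebra R (RatFunc L)] [IsFractionRing R (RatFunc L)]
    [CommRing A] [IsDomain A] [IsDiscreteValuationRing A] [Algebra A (RatFunc L)]
    [IsFractionRing A (RatFunc L)]
    (kk : O[X] →+* R) (hkk : ∀ q, algebraMap R (RatFunc L) (kk q) =
      algebraMap L[X] (RatFunc L) (q.map (algebraMap O L)))
    (hfr : ∀ r : R, ∃ q t : O[X], t ≠ 0 ∧ r * kk t = kk q)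
    (T : R →+* PowerSeries O) (hT : ∀ q, T (kk q) = (q : PowerSeries O))
    (hker : ∀ r, (T r).coeff 0 = 0 → ∃ r', r = kk X * r')
    (hunit : ∀ r, IsUnit ((T r).coeff 0) → IsUnit r)
    (hs : Prime (kk X)) (hs1 : kk X ∈ IsLocalRing.maximalIdeal R)
    (hdom : IsDomain (R ⧸ Ideal.span {kk X}))
    (hdvr : IsDiscreteValuationRing (R ⧸ Ideal.span {kk X}))
    (w : O) (hw : Irreducible w)
    (hp : Irreducible (Ideal.Quotient.mk (Ideal.span {kk X}) (kk (C w))))
    (hcap : ∀ z : RatFunc L, (∃ (k : ℕ) (r : R), algebraMap R (RatFunc L) (kk X) ^ k * z =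
        algebraMap R (RatFunc L) r) →
      (∃ (k : ℕ) (r : R), algebraMap R (RatFunc L) (kk (C w)) ^ k * z = algebraMap R (RatFunc L) r) →
      ∃ r : R, z = algebraMap R (RatFunc L) r)
    (hwp : Prime (kk (C w)))
    (wA : A) (hwA : Irreducible wA)
    (hww : algebraMap A (RatFunc L) wA = algebraMap R (RatFunc L) (kk (C w)))
    (hRA : ∀ r : R, ∃ a : A, algebraMap A (RatFunc L) a = algebraMap R (RatFunc L) r)
    (hloc : ∀ a : A, ∃ (r t : R) (u : Aˣ), algebraMap A (RatFunc L) u = algebraMap R (RatFunc L) t ∧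
      algebraMap A (RatFunc L) a * algebraMap R (RatFunc L) t = algebraMap R (RatFunc L) r)
    (hcapA : ∀ z : RatFunc L, (∃ a : A, algebraMap A (RatFunc L) a = z) →
      (∃ (k : ℕ) (r : R), algebraMap R (RatFunc L) (kk (C w)) ^ k * z = algebraMap R (RatFunc L) r) →
      ∃ r : R, z = algebraMap R (RatFunc L) r)
    (hdvd : ∀ (n m : ℕ), wA ^ m ∣ (n : A) → w ^ m ∣ (n : O))
    (F : L[X][X]) (hF : F.Monic) (hirr : Irreducible F) (y0 : L) (Y : PowerSeries L)
    (hY : IsSer F 0 y0 Y)
    (θ : Fin F.natDegree → FF F) (hθ : ∀ i, IsIntegral L[X] (θ i)) (Δ : L[X]) (hΔ : Δ.coeff 0 ≠ 0)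
    (hd : Algebra.discr (RatFunc L) θ = algebraMap L[X] (RatFunc L) Δ)
    (hO : ∀ k, ∃ a : O, Δ.coeff k / Δ.coeff 0 = algebraMap O L a)
    (hder : ∀ r : R, ∃ r' : R, T r' = PowerSeries.derivative O (T r))
    (m : ℕ) (hm : (∀ n : ℕ, 1 ≤ n → n ≤ F.natDegree → ¬ w ^ m ∣ (n : O)) ∨
      ¬ w ^ m ∣ ((galOrd F : ℕ) : O) ∨
      ∃ θ : Fin F.natDegree → FF F, (∀ i, IsIntegral R (θ i)) ∧
        ∃ u : Rˣ, Algebra.discr (RatFunc L) θ = algebraMap R (RatFunc L) u) :
    (∃ N : ℕ, ∀ k, ∃ a : O, algebraMap O L w ^ (N + 2 * m * k) * Y.coeff k = algebraMap O L a) ∧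
    ∃ N : ℕ, ∀ k, ∃ a : O, algebraMap O L (w ^ (N + m * k) * (k.factorial : O)) * Y.coeff k =
      algebraMap O L a := by
  classical
  -- the field
  have hirr' : Irreducible (F.map (algebraMap L[X] (RatFunc L))) :=
    (hF.irreducible_iff_irreducible_map_fraction_map (K := RatFunc L)).1 hirr
  have : Fact (Irreducible (F.map (algebraMap L[X] (RatFunc L)))) := ⟨hirr'⟩
  have hne : F.map (algebraMap L[X] (RatFunc L)) ≠ 0 := hirr'.ne_zero
  have : FiniteDimensional (RatFunc L) (FF F) := (AdjoinRoot.powerBasis hne).finite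
  have hfin : Module.finrank (RatFunc L) (FF F) = F.natDegree := by
    rw [(AdjoinRoot.powerBasis hne).finrank, AdjoinRoot.powerBasis_dim, hF.natDegree_map]
  have hdeg : 1 ≤ F.natDegree := by
    rcases Nat.eq_zero_or_pos F.natDegree with h | h
    · exact absurd (hF.natDegree_eq_zero.1 h ▸ isUnit_one) hirr.not_isUnit
    · exact h
  -- basis
  obtain ⟨b0⟩ := free_int (K := RatFunc L) (L := FF F) (kk X) (kk (C w)) hs hs1 hdom hdvr hp hcap
  let b : Module.Basis (Fin F.natDegree) R (integralClosure R (FF F)) :=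
    b0.reindex (finCongr hfin)
  -- scaled integral elements
  have hsc := fun i => int_scale (R := R) (E := FF F) w hw (algebraMap L[X] (FF F)) kk (by
    intro q
    rw [IsScalarTower.algebraMap_apply R (RatFunc L) (FF F), hkk,
      ← IsScalarTower.algebraMap_apply L[X] (RatFunc L) (FF F)]) (θ i) (hθ i)
  choose a ha using hsc
  obtain ⟨j, hj⟩ := clear w hw (Δ.coeff 0)
  set e : ℕ := (Finset.univ.sup a) + j with he
  have hei : ∀ i, a i ≤ e := fun i => le_trans (Finset.le_sup (Finset.mem_univ i)) (by omega)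
  have hθ' : ∀ i, IsIntegral R (algebraMap (RatFunc L) (FF F)
      (algebraMap R (RatFunc L) (kk (C w ^ e))) * θ i) := by
    intro i
    have h := ha i e (hei i)
    rw [← map_pow, ← map_pow, IsScalarTower.algebraMap_apply R (RatFunc L) (FF F)] at h
    exact h
  -- the discriminant
  obtain ⟨c, hc⟩ := hj (2 * F.natDegree * e) (by
    have : e ≤ 2 * F.natDegree * e := Nat.le_mul_of_pos_left _ (by omega)
    omega)
  have hwL : algebraMap O L w ≠ 0 := by
    rw [Ne, FaithfulSMul.algebraMap_eq_zero_iff]; exact hw.ne_zero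
  have hc0 : c ≠ 0 := by
    rintro rfl
    rw [map_zero, mul_eq_zero] at hc
    rcases hc with hc | hc
    · exact pow_ne_zero _ hwL hc
    · exact hΔ hc
  obtain ⟨a', u, hu⟩ := IsDiscreteValuationRing.eq_unit_mul_pow_irreducible hc0 hw
  obtain ⟨Δ', hΔ'⟩ : ∃ Δ' : O[X], Δ'.map (algebraMap O L) = C (Δ.coeff 0)⁻¹ * Δ := by
    have h : C (Δ.coeff 0)⁻¹ * Δ ∈ lifts (algebraMap O L) := by
      rw [lifts_iff_coeff_lifts]
      intro n
      obtain ⟨x, hx⟩ := hO n
      refine ⟨x, ?_⟩
      rw [coeff_C_mul, ← hx]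
      ring
    exact (mem_lifts _).1 h
  have hΔ0 : Δ'.coeff 0 = 1 := by
    apply FaithfulSMul.algebraMap_injective O L
    have := congrArg (fun p => Polynomial.coeff p 0) hΔ'
    simp only [coeff_map, coeff_C_mul] at this
    rw [this, map_one, inv_mul_cancel₀ hΔ]
  have hunitD : IsUnit (kk (C (u : O) * Δ')) := by
    apply hunit
    rw [hT]
    simp [hΔ0]
  obtain ⟨v, hv⟩ := hunitD
  have hdisc : Algebra.discr (RatFunc L) (fun i => algebraMap (RatFunc L) (FF F)
      (algebraMap R (RatFunc L) (kk (C w ^ e))) * θ i) =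
      algebraMap R (RatFunc L) (kk (C w) ^ a' * v) := by
    have hL1 : algebraMap R (RatFunc L) (kk (C w) ^ a' * v) =
        algebraMap L[X] (RatFunc L) ((C w ^ a' * (C (u : O) * Δ')).map (algebraMap O L)) := by
      rw [hv, ← map_pow kk, ← map_mul kk, hkk]
    have hL2 : algebraMap R (RatFunc L) (kk (C w ^ e)) ^ (2 * F.natDegree) =
        algebraMap L[X] (RatFunc L)
          (((C w ^ e) ^ (2 * F.natDegree) : O[X]).map (algebraMap O L)) := by
      rw [hkk, ← map_pow (algebraMap L[X] (RatFunc L)), Polynomial.map_pow (algebraMap O L)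
        (2 * F.natDegree) (p := C w ^ e)]
    rw [discr_smul, hd, Fintype.card_fin, hL1, hL2, ← map_mul (algebraMap L[X] (RatFunc L))]
    congr 1
    rw [Polynomial.map_mul, Polynomial.map_mul, hΔ', Polynomial.map_pow, Polynomial.map_pow,
      Polynomial.map_pow, Polynomial.map_C, Polynomial.map_C]
    have h1 : algebraMap O L w ^ (2 * F.natDegree * e) * Δ.coeff 0 =
        algebraMap O L (u : O) * algebraMap O L w ^ a' := by
      rw [hc, hu, map_mul, map_pow]
    have h2 : C (algebraMap O L w) ^ a' * (C (algebraMap O L ↑u) * (C (Δ.coeff 0)⁻¹ * Δ)) =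
        C (algebraMap O L (u : O) * algebraMap O L w ^ a') * (C (Δ.coeff 0)⁻¹ * Δ) := by
      rw [C_mul, C_pow]; ring
    rw [h2, ← h1, ← C_pow, ← C_pow]
    have h3 : C (algebraMap O L w ^ (2 * F.natDegree * e) * Δ.coeff 0) * (C (Δ.coeff 0)⁻¹ * Δ) =
        C (algebraMap O L w ^ (2 * F.natDegree * e) * (Δ.coeff 0 * (Δ.coeff 0)⁻¹)) * Δ := by
      simp only [C_mul]; ring
    rw [h3, mul_inv_cancel₀ hΔ, mul_one]
    congr 2
    rw [← pow_mul]
    congr 1
    ring
  obtain ⟨b', hb'⟩ := dual_int_of (K := RatFunc L) (L := FF F) (kk (C w)) wA hwp hwA hww hRA hloc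
    hcapA _ hθ' (by rw [Fintype.card_fin, hfin]) ⟨a', v, hdisc⟩ m (by
      intro y hy
      rcases hm with hm | hm | ⟨θ₁, hθ₁, u₁, hu₁⟩
      · refine gauss wA hwA m (fun n h1 h2 h3 => ?_) y hy
        rw [hfin] at h2
        exact hm n h1 h2 (hdvd n m h3)
      · exact hgs_gal F hF hirr wA hwA m (fun h => hm (hdvd _ m h)) y hy
      · exact hgs_disc hRA θ₁ hθ₁ (by rw [Fintype.card_fin, hfin]) u₁ hu₁ wA m y hy) b
  -- the expansion
  obtain ⟨Φ, hΦ1, hΦ2, hΦ3⟩ := exists_phi (R := R) T F y0 Y hY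
    (exE_comp kk hkk hfr T hT F y0 Y hY)
  -- the root
  obtain ⟨a1, ha1⟩ := int_scale (R := R) (E := FF F) w hw (algebraMap L[X] (FF F)) kk (by
    intro q
    rw [IsScalarTower.algebraMap_apply R (RatFunc L) (FF F), hkk,
      ← IsScalarTower.algebraMap_apply L[X] (RatFunc L) (FF F)]) (AdjoinRoot.root _) (by
    refine ⟨F, hF, ?_⟩
    have h := AdjoinRoot.eval₂_root (F.map (algebraMap L[X] (RatFunc L)))
    rw [eval₂_map] at h
    exact h)
  let f : integralClosure R (FF F) := ⟨_, ha1 a1 le_rfl⟩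
  have hf : Φ f = PowerSeries.C (algebraMap O L w ^ a1) * Y := by
    apply FaithfulSMul.algebraMap_injective (PowerSeries L) (LaurentSeries L)
    rw [hΦ1]
    change exE F y0 Y hY (algebraMap R (FF F) (kk (C w)) ^ a1 * AdjoinRoot.root _) = _
    rw [map_mul, map_mul, exE_root, map_pow, IsScalarTower.algebraMap_apply R (RatFunc L) (FF F),
      exE_comp kk hkk hfr T hT F y0 Y hY, hT]
    congr 1
    rw [← map_pow]
    congr 1
    simp
  have hwR : kk (C w) ^ m = kk (C (w ^ m)) := by rw [C_pow, map_pow]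
  refine ⟨⟨m + a1, fun k => ?_⟩, ⟨a1, fun k => ?_⟩⟩
  swap
  · obtain ⟨z, hz⟩ := coeff_ode b b' (w ^ m) (pow_ne_zero _ hw.ne_zero) (kk (C w) ^ m) T
      (by rw [hwR, hT]; simp) hder
      (by
        intro i j
        apply FaithfulSMul.algebraMap_injective R (RatFunc L)
        rw [← tr_down (K := RatFunc L) b]
        have h := hb' i j
        rw [← Subalgebra.coe_mul] at h
        rw [h]
        split_ifs
        · rw [map_pow]
        · rw [map_zero]) Φ hΦ2 hΦ3 f k
    refine ⟨z, ?_⟩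
    rw [← hz, hf, PowerSeries.coeff_C_mul, map_mul, map_mul, map_pow, map_pow, map_pow, pow_add,
      pow_mul]
    ring
  obtain ⟨z, hz⟩ := coeff_bound b b' (w ^ m) (pow_ne_zero _ hw.ne_zero) (kk (C w) ^ m) (kk X) T
    (by rw [hwR, hT]; simp) (by rw [hT]; simp) hker (fun x => ⟨kk (C x), by rw [hT]; simp⟩)
    (by
      intro i j
      apply FaithfulSMul.algebraMap_injective R (RatFunc L)
      rw [← tr_down (K := RatFunc L) b]
      have h := hb' i j
      rw [← Subalgebra.coe_mul] at h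
      rw [h]
      split_ifs
      · rw [map_pow]
      · rw [map_zero]) Φ hΦ2 hΦ3 f k
  refine ⟨z, ?_⟩
  rw [← hz, hf, PowerSeries.coeff_C_mul, map_pow, ← pow_mul]
  have e1 : m + a1 + 2 * m * k = m * (2 * k + 1) + a1 := by ring
  rw [e1, pow_add]
  ring

theorem p_main_of {O L : Type*} [CommRing O] [IsDomain O] [IsDiscreteValuationRing O] [Field L]
    [CharZero L] [Algebra O L] [IsFractionRing O L] (F : L[X][X]) (hF : F.Monic)
    (hirr : Irreducible F) (y0 : L) (Y : PowerSeries L) (hs : (at_ F 0).Separable)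
    (hY : IsSer F 0 y0 Y)
    (θ : Fin F.natDegree → FF F) (hθ : ∀ i, IsIntegral L[X] (θ i)) (Δ : L[X]) (hΔ : Δ.coeff 0 ≠ 0)
    (hd : Algebra.discr (RatFunc L) θ = algebraMap L[X] (RatFunc L) Δ)
    (hO : ∀ k, ∃ a : O, Δ.coeff k / Δ.coeff 0 = algebraMap O L a) (w : O) (hw : Irreducible w)
    (m : ℕ) (hm : (∀ n : ℕ, 1 ≤ n → n ≤ F.natDegree → ¬ w ^ m ∣ (n : O)) ∨
      ¬ w ^ m ∣ ((galOrd F : ℕ) : O) ∨
      ∃ θ : Fin F.natDegree → FF F, (∀ i, ∃ q : O[X][X], q.Monic ∧
        q.eval₂ ((algebraMap L[X] (FF F)).comp (mapRingHom (algebraMap O L))) (θ i) = 0) ∧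
        ∃ q : O[X], IsUnit (q.coeff 0) ∧
          Algebra.discr (RatFunc L) θ = algebraMap L[X] (RatFunc L) (q.map (algebraMap O L))) :
    (∃ N : ℕ, ∀ k, ∃ a : O, algebraMap O L w ^ (N + 2 * m * k) * Y.coeff k = algebraMap O L a) ∧
    ∃ N : ℕ, ∀ k, ∃ a : O, algebraMap O L (w ^ (N + m * k) * (k.factorial : O)) * Y.coeff k =
      algebraMap O L a := by
  have i1 := rr_noeth O
  have i2 := rr_domain O
  have i3 := rr_intclosed O
  obtain ⟨T, hT, hker, hunit⟩ := rr_exp O
  obtain ⟨e, he⟩ := PM.exists_equiv O L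
  obtain ⟨A, j1, j2, j3, j4, j5, wA, hwA, hww, hRA, hloc, hcapA, hdvd⟩ := PM.gauss_ring' w hw
  letI aR : Algebra (RR O) (RatFunc L) :=
    (e.toRingHom.comp (algebraMap (RR O) (FractionRing O[X]))).toAlgebra
  have fR : IsFractionRing (RR O) (RatFunc L) := PM.frac_transport e
  letI aA : Algebra A (RatFunc L) := (e.toRingHom.comp (algebraMap A (FractionRing O[X]))).toAlgebra
  have fA : IsFractionRing A (RatFunc L) := PM.frac_transport e
  have hR : ∀ r : RR O, algebraMap (RR O) (RatFunc L) r =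
      e (algebraMap (RR O) (FractionRing O[X]) r) := fun r => rfl
  have hA : ∀ r : A, algebraMap A (RatFunc L) r =
      e (algebraMap A (FractionRing O[X]) r) := fun r => rfl
  have hkk : ∀ q : O[X], algebraMap (RR O) (RatFunc L) (algebraMap O[X] (RR O) q) =
      algebraMap L[X] (RatFunc L) (q.map (algebraMap O L)) := by
    intro q
    rw [hR, ← IsScalarTower.algebraMap_apply O[X] (RR O) (FractionRing O[X]), he]
  have hm' : (∀ n : ℕ, 1 ≤ n → n ≤ F.natDegree → ¬ w ^ m ∣ (n : O)) ∨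
      ¬ w ^ m ∣ ((galOrd F : ℕ) : O) ∨
      ∃ θ : Fin F.natDegree → FF F, (∀ i, IsIntegral (RR O) (θ i)) ∧
        ∃ u : (RR O)ˣ, Algebra.discr (RatFunc L) θ = algebraMap (RR O) (RatFunc L) u := by
    rcases hm with hm | hm | ⟨θ₁, hθ₁, q, hq, hd₁⟩
    · exact Or.inl hm
    · exact Or.inr (Or.inl hm)
    · refine Or.inr (Or.inr ⟨θ₁, fun i => ?_, ?_⟩)
      · obtain ⟨r, hr, hr0⟩ := hθ₁ i
        refine ⟨r.map (algebraMap O[X] (RR O)), hr.map _, ?_⟩
        rw [eval₂_map, ← hr0]
        congr 1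
        refine RingHom.ext fun t => ?_
        rw [RingHom.comp_apply, RingHom.comp_apply,
          IsScalarTower.algebraMap_apply (RR O) (RatFunc L) (FF F), hkk,
          ← IsScalarTower.algebraMap_apply L[X] (RatFunc L) (FF F)]
        rfl
      · have hu : IsUnit (algebraMap O[X] (RR O) q) := by
          apply hunit
          rw [hT]
          simpa using hq
        obtain ⟨v, hv⟩ := hu
        exact ⟨v, by rw [hd₁, hv, hkk]⟩
  refine abs_main_of (O := O) (L := L) (R := RR O) (A := A) (algebraMap O[X] (RR O)) hkk ?_ T hT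
    hker hunit (xs_prime O) (xs_mem O) (quot_domain O) (quot_dvr O) w hw (quot_irr w hw) ?_
    (cc_prime w hw) wA hwA ?_ ?_ ?_ ?_ hdvd F hF hirr y0 Y hY θ hθ Δ hΔ hd hO
    (rr_der O T hT) m hm'
  · intro r
    obtain ⟨⟨q, t⟩, h⟩ := IsLocalization.surj (mm O).primeCompl r
    refine ⟨q, t, ?_, h⟩
    intro h0
    apply t.2
    rw [h0]
    exact (mm O).zero_mem
  · rintro z ⟨k, r, h1⟩ ⟨k', r', h2⟩
    obtain ⟨z0, rfl⟩ := e.surjective z
    obtain ⟨x, hx⟩ := cap_xw w hw z0 ⟨k, r, by
        apply e.injective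
        rw [map_mul, map_pow]
        exact h1⟩ ⟨k', r', by
        apply e.injective
        rw [map_mul, map_pow]
        exact h2⟩
    exact ⟨x, by rw [hx, hR]⟩
  · rw [hA, hww, hR]
    rfl
  · intro r
    obtain ⟨a, ha⟩ := hRA r
    exact ⟨a, by rw [hA, ha, hR]⟩
  · intro a
    obtain ⟨r, t, u, h1, h2⟩ := hloc a
    refine ⟨r, t, u, by rw [hA, h1, hR], ?_⟩
    rw [hA, hR, ← map_mul, h2, hR]
  · rintro z ⟨a, ha⟩ ⟨k', r', h2⟩
    obtain ⟨z0, rfl⟩ := e.surjective z
    obtain ⟨x, hx⟩ := hcapA z0 ⟨a, e.injective ha⟩ ⟨k', r', by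
        apply e.injective
        rw [map_mul, map_pow]
        exact h2⟩
    exact ⟨x, by rw [hx, hR]⟩

end GalH
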