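import Pool.Agent.ALC.PRad
import Pool.Agent.GalH.PMain
import Pool.Agent.GalH.Ext
import Pool.Agent.GalH.Fact

/-!
The radius at p. For every M with log_p d <= M or v_p(e) <= M, e the order of the geometric monodromy
group, and for every M if the cover has good reduction at p:
|Y_k| |eta|^k <= C (p^(2M + 2/N))^k (Hensel; used for M = 0, that is for p not dividing D, and for good reduction) and
|Y_k| |eta|^k <= C (p^(M + 1/(p-1) + 1/N))^k (linear differential equation; used for M = v_p(D)).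
-/

open Polynomial

namespace GalH

open ALC ALC.PRadAux

/-- coefficients -/
theorem p_coeff_of {K : Type*} [Field K] [NumberField K] (F : K[X][X]) (hF : F.Monic)
    (hg : GeomIrred F) (A : Finset K) (hun : UnramifiedOutside F A) (b y0 : K)
    (hb : b ∉ A) (hs : (at_ F b).Separable) (h0 : (at_ F b).eval y0 = 0) (p : ℕ) [Fact p.Prime]
    (τ : K →+* ℂ_[p]) (η : K) (hη0 : η ≠ 0) (hη : ∀ a ∈ A, ‖τ η‖ ≤ ‖τ (b - a)‖) (N : ℕ)
    (hN : 0 < N) (Y : PowerSeries K) (hY : IsSer F b y0 Y)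
    (M : ℕ) (hM : Nat.log p F.natDegree ≤ M ∨ padicValNat p (monOrd F) ≤ M ∨
      (GoodAt F A b p ∧ ‖τ η‖ ≤ 1)) :
    (∃ C : ℝ, ∀ k, ‖τ (Y.coeff k)‖ * ‖τ η‖ ^ k ≤
      C * ((p : ℝ) ^ (2 * (M : ℝ) + 2 / N)) ^ k) ∧
    ∃ C : ℝ, ∀ k, ‖τ (Y.coeff k)‖ * ‖τ η‖ ^ k ≤
      C * ((p : ℝ) ^ ((M : ℝ) + 1 / ((p : ℝ) - 1) + 1 / N)) ^ k := by
  obtain ⟨L, _, _, _, _, τL, hτL, hw, hmon⟩ := exists_ext F hF (irr_rat F hF hg).separable p τ N hN
  obtain ⟨θ, Δ, hθ, hd, hΔ0, hΔs, hΔA⟩ := hun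
  have hp1 : 1 < (p : ℝ) := by exact_mod_cast (Fact.out : p.Prime).one_lt
  have hp0 : 0 < (p : ℝ) := by linarith
  set j : K →+* L := algebraMap K L with hj
  have hτj : ∀ x, τL (j x) = τ x := fun x => by rw [← hτL]; rfl
  have hjη : j η ≠ 0 := fun h => hη0 ((map_eq_zero j).1 h)
  have := oo_dvr τL
  have := oo_frac τL
  -- the polynomial after the substitution
  have hF' : (F.map (sub j (j b) (j η))).Monic := hF.map _
  have hirr : Irreducible (F.map (sub j (j b) (j η))) := irr_sub F hF hg (j b) (j η) hjη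
  have hdeg : (F.map (sub j (j b) (j η))).natDegree = F.natDegree := hF.natDegree_map _
  have hs' : (at_ (F.map (sub j (j b) (j η))) 0).Separable := by
    rw [at_sub]; exact hs.map
  have hY' := ser_sub j F b y0 (j η) Y hY
  obtain ⟨θ', hθ', hd'⟩ := base_change j F hF (j b) (j η) hjη θ hθ Δ hd
  -- the discriminant
  have hroots : ∀ a ∈ Δ.roots, b - a ≠ 0 := by
    intro a ha h
    have h1 : a ∈ A := hΔA a ((mem_roots hΔ0).1 ha)
    rw [sub_eq_zero] at h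
    exact hb (h ▸ h1)
  have hrootsR : ∀ a ∈ Δ.roots, j η / j (b - a) ∈ OO τL := by
    intro a ha
    have h1 : a ∈ A := hΔA a ((mem_roots hΔ0).1 ha)
    have h2 : τ (b - a) ≠ 0 := fun h => hroots a ha ((map_eq_zero τ).1 h)
    show ‖τL (j η / j (b - a))‖ ≤ 1
    rw [map_div₀, hτj, hτj, norm_div, div_le_one (norm_pos_iff.2 h2)]
    exact hη a h1
  obtain ⟨q, hq1, hq0, hq2⟩ := sub_prod j b (j η) Δ.roots hroots (OO τL) hrootsR
  have hΔeq : Δ = C Δ.leadingCoeff * (Δ.roots.map fun a => X - C a).prod :=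
    hΔs.eq_prod_roots
  have hcst : j (Δ.leadingCoeff) * j ((Δ.roots.map fun a => b - a).prod) ≠ 0 := by
    refine mul_ne_zero (fun h => leadingCoeff_ne_zero.2 hΔ0 ((map_eq_zero j).1 h)) (fun h => ?_)
    have h1 := (map_eq_zero j).1 h
    rw [Multiset.prod_eq_zero_iff, Multiset.mem_map] at h1
    obtain ⟨a, ha, h2⟩ := h1
    exact hroots a ha h2
  have hΔ' : sub j (j b) (j η) Δ =
      C (j (Δ.leadingCoeff) * j ((Δ.roots.map fun a => b - a).prod)) * q := by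
    conv_lhs => rw [hΔeq]
    rw [map_mul, hq2, C_mul, mul_assoc]
    congr 1
    simp [sub]
  have hΔ'0 : (sub j (j b) (j η) Δ).coeff 0 =
      j (Δ.leadingCoeff) * j ((Δ.roots.map fun a => b - a).prod) := by
    rw [hΔ', coeff_C_mul, hq0, mul_one]
  have hO : ∀ k, ∃ a : OO τL, (sub j (j b) (j η) Δ).coeff k / (sub j (j b) (j η) Δ).coeff 0 =
      algebraMap (OO τL) L a := by
    intro k
    refine ⟨⟨q.coeff k, hq1 k⟩, ?_⟩
    rw [hΔ'0, hΔ', coeff_C_mul, mul_div_cancel_left₀ _ hcst]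
    rfl
  -- the uniformiser
  obtain ⟨w, hw1⟩ := IsDiscreteValuationRing.exists_irreducible (OO τL)
  obtain ⟨hwlo, hwhi⟩ := oo_unif τL w hw1 N hN hw
  have hwpos : 0 < ‖τL (w : L)‖ := lt_of_lt_of_le (Real.rpow_pos_of_pos hp0 _) hwlo
  have hex : ∃ m : ℕ, ‖τL (w : L)‖ ^ m < ((p : ℝ) ^ M)⁻¹ :=
    exists_pow_lt_of_lt_one (by positivity) hwhi
  set m : ℕ := Nat.find hex with hm
  have hm1 : ‖τL (w : L)‖ ^ m < ((p : ℝ) ^ M)⁻¹ := Nat.find_spec hex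
  have hm0 : m ≠ 0 := by
    intro h
    rw [h, pow_zero] at hm1
    have : ((p : ℝ) ^ M)⁻¹ ≤ 1 := inv_le_one_of_one_le₀ (one_le_pow₀ hp1.le)
    linarith
  have hm2 : ((p : ℝ) ^ M)⁻¹ ≤ ‖τL (w : L)‖ ^ (m - 1) := by
    have := Nat.find_min hex (m := m - 1) (by omega)
    exact not_lt.1 this
  have hmlo : (p : ℝ) ^ (-((M : ℝ) + 1 / N)) ≤ ‖τL (w : L)‖ ^ m := by
    have h1 : (p : ℝ) ^ (-((M : ℝ) + 1 / N)) = ((p : ℝ) ^ M)⁻¹ * (p : ℝ) ^ (-(1 / (N : ℝ))) := by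
      rw [neg_add, Real.rpow_add hp0, Real.rpow_neg hp0.le, Real.rpow_natCast]
    have h2 : ‖τL (w : L)‖ ^ m = ‖τL (w : L)‖ ^ (m - 1) * ‖τL (w : L)‖ := by
      rw [← pow_succ]
      congr 1
      omega
    rw [h1, h2]
    exact mul_le_mul hm2 hwlo (Real.rpow_nonneg hp0.le _) (by positivity)
  have hpow : ∀ n : ℕ, n ≤ M → ((p : ℝ) ^ M)⁻¹ ≤ ((p : ℝ) ^ n)⁻¹ := fun n hn =>
    inv_anti₀ (pow_pos hp0 _) (pow_le_pow_right₀ hp1.le hn)
  have hdvd : (∀ n : ℕ, 1 ≤ n → n ≤ (F.map (sub j (j b) (j η))).natDegree →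
      ¬ w ^ m ∣ (n : OO τL)) ∨
      ¬ w ^ m ∣ ((galOrd (F.map (sub j (j b) (j η))) : ℕ) : OO τL) ∨
      ∃ θ : Fin (F.map (sub j (j b) (j η))).natDegree → FF (F.map (sub j (j b) (j η))),
      (∀ i, ∃ q : (OO τL)[X][X], q.Monic ∧
        q.eval₂ ((algebraMap L[X] (FF (F.map (sub j (j b) (j η))))).comp
          (mapRingHom (algebraMap (OO τL) L))) (θ i) = 0) ∧
      ∃ q : (OO τL)[X], IsUnit (q.coeff 0) ∧
        Algebra.discr (RatFunc L) θ =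
          algebraMap L[X] (RatFunc L) (q.map (algebraMap (OO τL) L)) := by
    rcases hM with hM | hM | ⟨hM, hη1⟩
    · left
      intro n h1 h2
      rw [oo_dvd τL w hw1, not_le]
      rw [hdeg] at h2
      exact lt_of_lt_of_le hm1 ((hpow _ hM).trans (norm_nat_ge p F.natDegree n h1 h2))
    · right
      left
      rw [oo_dvd τL w hw1, not_le]
      refine lt_of_lt_of_le hm1 ((hpow _ hM).trans ?_)
      obtain ⟨t, ht⟩ := hmon (j b) (j η) hjη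
      rw [← nat_norm p _ (monOrd_pos F).ne', ht, Nat.cast_mul, norm_mul]
      refine mul_le_of_le_one_right (norm_nonneg _) ?_
      exact IsUltrametricDist.norm_natCast_le_one ℂ_[p] t
    · right
      right
      exact good_base p τ τL j hτL F hF A b hM η hη0 hη1
  obtain ⟨⟨N', hN'⟩, ⟨N'', hN''⟩⟩ := p_main_of (O := OO τL) (F.map (sub j (j b) (j η))) hF' hirr
    (j y0) _ hs' hY' θ' hθ' _ (by rw [hΔ'0]; exact hcst) hd' hO w hw1 m hdvd
  refine ⟨⟨(‖τL (w : L)‖ ^ N')⁻¹, fun k => ?_⟩, ⟨(‖τL (w : L)‖ ^ N'')⁻¹, fun k => ?_⟩⟩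
  swap
  · obtain ⟨a, ha⟩ := hN'' k
    have h1 : ‖τL (w : L)‖ ^ (N'' + m * k) * ‖((k.factorial : ℕ) : ℂ_[p])‖ *
        (‖τ η‖ ^ k * ‖τ (Y.coeff k)‖) ≤ 1 := by
      have h2 : ‖τL (algebraMap (OO τL) L a)‖ ≤ 1 := a.2
      rw [← ha, PowerSeries.coeff_mk, map_mul, map_mul, map_mul, map_mul, map_pow, map_pow,
        map_pow, map_natCast, map_natCast, norm_mul, norm_mul, norm_mul,
        norm_pow, norm_pow, hτj, hτj] at h2
      exact h2
    have hW : 0 < ‖τL (w : L)‖ ^ N'' := by positivity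
    have hWk : 0 < (‖τL (w : L)‖ ^ m) ^ k := by positivity
    have hfac : 0 < ‖((k.factorial : ℕ) : ℂ_[p])‖ := by
      rw [norm_pos_iff]
      exact_mod_cast k.factorial_ne_zero
    have h3 : ‖τL (w : L)‖ ^ (N'' + m * k) =
        ‖τL (w : L)‖ ^ N'' * (‖τL (w : L)‖ ^ m) ^ k := by
      rw [pow_add, ← pow_mul]
    rw [h3] at h1
    have h4 : ((‖τL (w : L)‖ ^ m) ^ k * ‖((k.factorial : ℕ) : ℂ_[p])‖)⁻¹ ≤
        ((p : ℝ) ^ ((M : ℝ) + 1 / ((p : ℝ) - 1) + 1 / N)) ^ k := by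
      have h5 : ((p : ℝ) ^ (-((M : ℝ) + 1 / N))) ^ k ≤ (‖τL (w : L)‖ ^ m) ^ k :=
        pow_le_pow_left₀ (Real.rpow_nonneg hp0.le _) hmlo _
      have h6 : ((p : ℝ) ^ ((M : ℝ) + 1 / ((p : ℝ) - 1) + 1 / N)) ^ k =
          (((p : ℝ) ^ (-((M : ℝ) + 1 / N))) ^ k * (p : ℝ) ^ (-((k : ℝ) / ((p : ℝ) - 1))))⁻¹ := by
        rw [← Real.rpow_natCast _ k, ← Real.rpow_natCast _ k, ← Real.rpow_mul hp0.le,
          ← Real.rpow_mul hp0.le, ← Real.rpow_add hp0, ← Real.rpow_neg hp0.le]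
        congr 1
        ring
      rw [h6]
      apply inv_anti₀
      · exact mul_pos (pow_pos (Real.rpow_pos_of_pos hp0 _) _) (Real.rpow_pos_of_pos hp0 _)
      · exact mul_le_mul h5 (fact_norm p k) (Real.rpow_pos_of_pos hp0 _).le hWk.le
    calc ‖τ (Y.coeff k)‖ * ‖τ η‖ ^ k = ‖τ η‖ ^ k * ‖τ (Y.coeff k)‖ := mul_comm _ _
      _ ≤ (‖τL (w : L)‖ ^ N'' * ((‖τL (w : L)‖ ^ m) ^ k * ‖((k.factorial : ℕ) : ℂ_[p])‖))⁻¹ := by
          have h5 : 0 < ‖τL (w : L)‖ ^ N'' *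
              ((‖τL (w : L)‖ ^ m) ^ k * ‖((k.factorial : ℕ) : ℂ_[p])‖) :=
            mul_pos hW (mul_pos hWk hfac)
          rw [inv_eq_one_div, le_div_iff₀ h5]
          refine le_of_eq_of_le ?_ h1
          ring
      _ = (‖τL (w : L)‖ ^ N'')⁻¹ *
          ((‖τL (w : L)‖ ^ m) ^ k * ‖((k.factorial : ℕ) : ℂ_[p])‖)⁻¹ := mul_inv _ _
      _ ≤ _ := mul_le_mul_of_nonneg_left h4 (by positivity)
  obtain ⟨a, ha⟩ := hN' k
  have h1 : ‖τL (w : L)‖ ^ (N' + 2 * m * k) * (‖τ η‖ ^ k * ‖τ (Y.coeff k)‖) ≤ 1 := by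
    have h2 : ‖τL (algebraMap (OO τL) L a)‖ ≤ 1 := a.2
    rw [← ha, PowerSeries.coeff_mk, map_mul, map_mul, map_pow, map_pow, norm_mul, norm_mul,
      norm_pow, norm_pow, hτj, hτj] at h2
    exact h2
  have hW : 0 < ‖τL (w : L)‖ ^ N' := by positivity
  have hWk : 0 < (‖τL (w : L)‖ ^ m) ^ (2 * k) := by positivity
  have h3 : ‖τL (w : L)‖ ^ (N' + 2 * m * k) =
      ‖τL (w : L)‖ ^ N' * (‖τL (w : L)‖ ^ m) ^ (2 * k) := by
    rw [pow_add, ← pow_mul]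
    congr 2
    ring
  rw [h3] at h1
  have h4 : ((‖τL (w : L)‖ ^ m) ^ (2 * k))⁻¹ ≤
      ((p : ℝ) ^ (2 * (M : ℝ) + 2 / N)) ^ k := by
    have h5 : ((p : ℝ) ^ (-((M : ℝ) + 1 / N))) ^ (2 * k) ≤ (‖τL (w : L)‖ ^ m) ^ (2 * k) :=
      pow_le_pow_left₀ (Real.rpow_nonneg hp0.le _) hmlo _
    have h6 : ((p : ℝ) ^ (2 * (M : ℝ) + 2 / N)) ^ k =
        (((p : ℝ) ^ (-((M : ℝ) + 1 / N))) ^ (2 * k))⁻¹ := by
      rw [pow_mul, ← inv_pow, ← Real.rpow_natCast _ 2, ← Real.rpow_mul hp0.le,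
        ← Real.rpow_neg hp0.le]
      congr 2
      push_cast
      ring
    rw [h6]
    exact inv_anti₀ (pow_pos (Real.rpow_pos_of_pos hp0 _) _) h5
  calc ‖τ (Y.coeff k)‖ * ‖τ η‖ ^ k = ‖τ η‖ ^ k * ‖τ (Y.coeff k)‖ := mul_comm _ _
    _ ≤ (‖τL (w : L)‖ ^ N' * (‖τL (w : L)‖ ^ m) ^ (2 * k))⁻¹ := by
        have h5 : 0 < ‖τL (w : L)‖ ^ N' * (‖τL (w : L)‖ ^ m) ^ (2 * k) := mul_pos hW hWk
        rw [inv_eq_one_div, le_div_iff₀ h5, mul_comm]
        exact h1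
    _ = (‖τL (w : L)‖ ^ N')⁻¹ * ((‖τL (w : L)‖ ^ m) ^ (2 * k))⁻¹ := mul_inv _ _
    _ ≤ _ := mul_le_mul_of_nonneg_left h4 (by positivity)

/-- the radius -/
theorem radius_of {K : Type*} [Field K] [NumberField K] (F : K[X][X]) (b y0 : K) (p : ℕ)
    [Fact p.Prime] (τ : K →+* ℂ_[p]) (η : K) (hη0 : η ≠ 0) (Y : PowerSeries K)
    (hY : IsSer F b y0 Y) (ρ : ℝ) (x : ℂ_[p]) (hx : ‖x‖ = (p : ℝ) ^ (-ρ))
    (hC : ∀ N : ℕ, 0 < N → ∃ C : ℝ, ∀ k, ‖τ (Y.coeff k)‖ * ‖τ η‖ ^ k ≤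
      C * ((p : ℝ) ^ (ρ + 2 / N)) ^ k) :
    ((Real.log ‖τ η‖ - ρ * Real.log p : ℝ) : EReal) ≤
      logRadius (bc τ F) (τ b) (τ y0) := by
  have hp1 : 1 < (p : ℝ) := by exact_mod_cast (Fact.out : p.Prime).one_lt
  have hp0 : 0 < (p : ℝ) := by linarith
  have hlogp : 0 < Real.log p := Real.log_pos hp1
  have hpc : (p : ℂ_[p]) ≠ 0 := by exact_mod_cast (Fact.out : p.Prime).ne_zero
  have hτη : τ η ≠ 0 := fun h => hη0 ((map_eq_zero τ).1 h)
  have hx0 : x ≠ 0 := by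
    rw [← norm_pos_iff, hx]
    exact Real.rpow_pos_of_pos hp0 _
  have key : ∀ N : ℕ, 0 < N →
      ((Real.log ‖τ η‖ - ρ * Real.log p - 2 / N * Real.log p : ℝ) : EReal) ≤
        logRadius (bc τ F) (τ b) (τ y0) := by
    intro N hN
    have hN0 : (0 : ℝ) < N := by exact_mod_cast hN
    obtain ⟨C, hC⟩ := hC N hN
    obtain ⟨z, hz⟩ := IsAlgClosed.exists_pow_nat_eq (p : ℂ_[p]) hN
    have hz0 : z ≠ 0 := by
      intro h
      rw [h, zero_pow hN.ne'] at hz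
      exact hpc hz.symm
    have hzn : ‖z‖ = (p : ℝ) ^ (-(1 / (N : ℝ))) := by
      have h1 : ‖z‖ ^ N = (p : ℝ)⁻¹ := by rw [← norm_pow, hz, norm_p]
      have h2 : ((p : ℝ) ^ (-(1 / (N : ℝ)))) ^ N = (p : ℝ)⁻¹ := by
        rw [← Real.rpow_natCast, ← Real.rpow_mul hp0.le]
        have : -(1 / (N : ℝ)) * N = -1 := by field_simp
        rw [this, Real.rpow_neg_one]
      exact (pow_left_inj₀ (norm_nonneg _) (Real.rpow_nonneg hp0.le _) hN.ne').1 (h1.trans h2.symm)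
    set c : ℂ_[p] := τ η * x * z ^ 2 with hc
    have hc0 : c ≠ 0 := mul_ne_zero (mul_ne_zero hτη hx0) (pow_ne_zero _ hz0)
    have hcn : ‖c‖ * (p : ℝ) ^ (ρ + 2 / N) = ‖τ η‖ := by
      rw [hc, norm_mul, norm_mul, norm_pow, hx, hzn, ← Real.rpow_natCast _ 2,
        ← Real.rpow_mul hp0.le, Real.rpow_add hp0, Real.rpow_neg hp0.le]
      have h1 : (p : ℝ) ^ ρ ≠ 0 := (Real.rpow_pos_of_pos hp0 _).ne'
      have h2 : (p : ℝ) ^ (-(1 / (N : ℝ)) * ((2 : ℕ) : ℝ)) = ((p : ℝ) ^ (2 / (N : ℝ)))⁻¹ := by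
        rw [← Real.rpow_neg hp0.le]
        congr 1
        push_cast
        ring
      have h3 : (p : ℝ) ^ (2 / (N : ℝ)) ≠ 0 := (Real.rpow_pos_of_pos hp0 _).ne'
      rw [h2]
      field_simp
    have hlogc : Real.log ‖c‖ = Real.log ‖τ η‖ - ρ * Real.log p - 2 / N * Real.log p := by
      have h1 : Real.log ‖τ η‖ = Real.log ‖c‖ + (ρ + 2 / N) * Real.log p := by
        rw [← hcn, Real.log_mul (norm_ne_zero_iff.2 hc0) (Real.rpow_pos_of_pos hp0 _).ne',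
          Real.log_rpow hp0]
      rw [h1]
      ring
    have hdisc : IsDisc (bc τ F) (τ b) (τ y0) c := by
      refine ⟨hc0, PowerSeries.rescale c (PowerSeries.C (τ b) + PowerSeries.X),
        PowerSeries.rescale c (PowerSeries.map τ Y), ?_, ?_, ?_, ?_, ?_, ?_⟩
      · refine isBdd_of (B := max ‖τ b‖ ‖c‖) fun k => ?_
        rw [PowerSeries.coeff_rescale, map_add, PowerSeries.coeff_C, PowerSeries.coeff_X]
        rcases k with _ | _ | k
        · simp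
        · simp
        · simp
      · refine isBdd_of (B := C) fun k => ?_
        rw [PowerSeries.coeff_rescale, PowerSeries.coeff_map, norm_mul, norm_pow]
        have h1 := hC k
        rw [← hcn, mul_pow] at h1
        have h2 : 0 < ((p : ℝ) ^ (ρ + 2 / N)) ^ k := pow_pos (Real.rpow_pos_of_pos hp0 _) _
        rw [← mul_assoc] at h1
        have h3 := le_of_mul_le_mul_right h1 h2
        linarith [mul_comm (‖c‖ ^ k) ‖τ (Y.coeff k)‖]
      · exact onCurve_rescale _ _ _ _ (ser_map τ F b y0 Y hY).1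
      · rw [map_add, rescale_C]
        simp
      · rw [map_add, rescale_C]
        simp
      · rw [PowerSeries.coeff_rescale, pow_zero, one_mul, PowerSeries.coeff_map, hY.2]
    rw [← hlogc]
    exact le_iSup₂_of_le (f := fun c _ => ((Real.log ‖c‖ : ℝ) : EReal)) c hdisc le_rfl
  by_contra hcon
  rw [not_le] at hcon
  obtain ⟨r, hr1, hr2⟩ := EReal.lt_iff_exists_real_btwn.1 hcon
  have hr3 : r < Real.log ‖τ η‖ - ρ * Real.log p := by exact_mod_cast hr2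
  obtain ⟨N, hN⟩ := exists_nat_gt (2 * Real.log p / (Real.log ‖τ η‖ - ρ * Real.log p - r))
  have hd : 0 < Real.log ‖τ η‖ - ρ * Real.log p - r := by linarith
  have hNpos : 0 < (N : ℝ) := lt_of_le_of_lt (by positivity) hN
  have hN' : 0 < N := by exact_mod_cast hNpos
  have h1 := lt_of_le_of_lt (key N hN') hr1
  have h2 : Real.log ‖τ η‖ - ρ * Real.log p - 2 / N * Real.log p < r := by exact_mod_cast h1
  rw [div_lt_iff₀ hd] at hN
  have h3 : 2 / (N : ℝ) * Real.log p < Real.log ‖τ η‖ - ρ * Real.log p - r := by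
    rw [div_mul_eq_mul_div, div_lt_iff₀ hNpos]
    linarith
  linarith

/-- the radius, p any prime -/
theorem p_radius_of {K : Type*} [Field K] [NumberField K] (F : K[X][X]) (hF : F.Monic)
    (hg : GeomIrred F) (A : Finset K) (hun : UnramifiedOutside F A) (b y0 : K)
    (hb : b ∉ A) (hs : (at_ F b).Separable) (h0 : (at_ F b).eval y0 = 0) (p : ℕ) [Fact p.Prime]
    (τ : K →+* ℂ_[p]) (η : K) (hη0 : η ≠ 0) (hη : ∀ a ∈ A, ‖τ η‖ ≤ ‖τ (b - a)‖)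
    (M : ℕ) (hM : Nat.log p F.natDegree ≤ M ∨ padicValNat p (monOrd F) ≤ M) :
    ((Real.log ‖τ η‖ - ((M : ℝ) + 1 / ((p : ℝ) - 1)) * Real.log p : ℝ) : EReal) ≤
      logRadius (bc τ F) (τ b) (τ y0) := by
  obtain ⟨Y, hY⟩ := exists_ser F b y0 hs h0
  have hp : 1 < p := (Fact.out : p.Prime).one_lt
  have hp1 : 1 < (p : ℝ) := by exact_mod_cast hp
  have hp0 : 0 < (p : ℝ) := by linarith
  have hpm : 0 < p - 1 := by omega
  have hpc : ((p - 1 : ℕ) : ℝ) = (p : ℝ) - 1 := by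
    rw [Nat.cast_sub hp.le, Nat.cast_one]
  obtain ⟨z, hz⟩ := IsAlgClosed.exists_pow_nat_eq (p : ℂ_[p]) hpm
  have hzn : ‖z‖ = (p : ℝ) ^ (-(1 / ((p : ℝ) - 1))) := by
    have h1 : ‖z‖ ^ (p - 1) = (p : ℝ)⁻¹ := by rw [← norm_pow, hz, norm_p]
    have h2 : ((p : ℝ) ^ (-(1 / ((p : ℝ) - 1)))) ^ (p - 1) = (p : ℝ)⁻¹ := by
      rw [← Real.rpow_natCast, ← Real.rpow_mul hp0.le, hpc]
      have h3 : (p : ℝ) - 1 ≠ 0 := by linarith
      have : -(1 / ((p : ℝ) - 1)) * ((p : ℝ) - 1) = -1 := by field_simp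
      rw [this, Real.rpow_neg_one]
    exact (pow_left_inj₀ (norm_nonneg _) (Real.rpow_nonneg hp0.le _) hpm.ne').1 (h1.trans h2.symm)
  refine radius_of F b y0 p τ η hη0 Y hY _ ((p : ℂ_[p]) ^ M * z) ?_ ?_
  · rw [norm_mul, norm_pow, norm_p, hzn, neg_add, Real.rpow_add hp0, Real.rpow_neg hp0.le (M : ℝ),
      Real.rpow_natCast, inv_pow]
  · intro N hN
    obtain ⟨-, C, hC⟩ := p_coeff_of F hF hg A hun b y0 hb hs h0 p τ η hη0 hη N hN Y hY M
      (hM.imp_right Or.inl)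
    refine ⟨C, fun k => (hC k).trans ?_⟩
    have hC0 : 0 ≤ C := by
      have h1 := hC 0
      rw [pow_zero, pow_zero, mul_one, mul_one] at h1
      exact (norm_nonneg _).trans h1
    have hN0 : (0 : ℝ) < N := by exact_mod_cast hN
    apply mul_le_mul_of_nonneg_left _ hC0
    apply pow_le_pow_left₀ (Real.rpow_nonneg hp0.le _)
    apply Real.rpow_le_rpow_of_exponent_le hp1.le
    have : 1 / (N : ℝ) ≤ 2 / N := by
      apply div_le_div_of_nonneg_right _ hN0.le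
      norm_num
    linarith

/-- the radius, p does not divide D or good reduction at p -/
theorem p_radius_zero {K : Type*} [Field K] [NumberField K] (F : K[X][X]) (hF : F.Monic)
    (hg : GeomIrred F) (A : Finset K) (hun : UnramifiedOutside F A) (b y0 : K)
    (hb : b ∉ A) (hs : (at_ F b).Separable) (h0 : (at_ F b).eval y0 = 0) (p : ℕ) [Fact p.Prime]
    (τ : K →+* ℂ_[p]) (η : K) (hη0 : η ≠ 0) (hη : ∀ a ∈ A, ‖τ η‖ ≤ ‖τ (b - a)‖)
    (hM : Nat.log p F.natDegree ≤ 0 ∨ padicValNat p (monOrd F) ≤ 0 ∨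
      (GoodAt F A b p ∧ ‖τ η‖ ≤ 1)) :
    ((Real.log ‖τ η‖ : ℝ) : EReal) ≤ logRadius (bc τ F) (τ b) (τ y0) := by
  obtain ⟨Y, hY⟩ := exists_ser F b y0 hs h0
  have h := radius_of F b y0 p τ η hη0 Y hY 0 1 (by simp) (by
    intro N hN
    obtain ⟨⟨C, hC⟩, -⟩ := p_coeff_of F hF hg A hun b y0 hb hs h0 p τ η hη0 hη N hN Y hY 0 hM
    refine ⟨C, fun k => ?_⟩
    have h1 := hC k
    rw [Nat.cast_zero, mul_zero] at h1
    exact h1)
  rw [zero_mul, sub_zero] at h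
  exact h

end GalH
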