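import Pool.Agent.ALC.Glob
import Pool.Agent.GalH.PRad
import Pool.Agent.GalH.Bad

/-!
Final assembly (the proof is that of ALC.main_gen with the new bound for the radius).
-/

open Polynomial

namespace GalH

open ALC

/-- the supremum is attained -/
private theorem glob_sup {K L : Type*} [Field K] [NormedField L] (τ : K →+* L) (A : Finset K)
    (hA : A.Nonempty) (b : K) (hb : b ∉ A) : ∃ a0 ∈ A, (∀ a ∈ A, ‖τ (b - a0)‖ ≤ ‖τ (b - a)‖) ∧
      b - a0 ≠ 0 ∧ (⨆ a : A, ‖τ (1 / (b - a))‖) = ‖τ (b - a0)‖⁻¹ := by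
  obtain ⟨a0, ha0, hmin⟩ := Finset.exists_min_image A (fun a => ‖τ (b - a)‖) hA
  have hne : ∀ a ∈ A, b - a ≠ 0 := fun a ha h => hb (by
    rw [sub_eq_zero] at h
    exact h ▸ ha)
  have hpos : 0 < ‖τ (b - a0)‖ := by
    rw [norm_pos_iff]
    exact (_root_.map_ne_zero τ).2 (hne a0 ha0)
  refine ⟨a0, ha0, hmin, hne a0 ha0, ?_⟩
  have hval : ∀ a : K, ‖τ (1 / (b - a))‖ = ‖τ (b - a)‖⁻¹ := by
    intro a
    rw [one_div, map_inv₀, norm_inv]
  apply le_antisymm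
  · have : Nonempty A := ⟨⟨a0, ha0⟩⟩
    apply ciSup_le
    intro a
    rw [hval]
    exact inv_anti₀ hpos (hmin a a.2)
  · rw [← hval]
    exact le_ciSup (f := fun a : A => ‖τ (1 / (b - a))‖) (Set.finite_range _).bddAbove ⟨a0, ha0⟩

private theorem glob_coe_sum {ι : Type*} (s : Finset ι) (f : ι → ℝ) :
    ((∑ i ∈ s, f i : ℝ) : EReal) = ∑ i ∈ s, (f i : EReal) := by
  classical
  induction s using Finset.induction_on with
  | empty => simp
  | insert a s ha ih => rw [Finset.sum_insert ha, Finset.sum_insert ha, EReal.coe_add, ih]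

private theorem glob_fin {K : Type*} [Field K] [NumberField K] (F : K[X][X]) (hF : F.Monic)
    (hg : GeomIrred F) (A : Finset K) (hA : A.Nonempty) (hun : UnramifiedOutside F A) (b y0 : K)
    (hb : b ∉ A) (hs : (at_ F b).Separable) (h0 : (at_ F b).eval y0 = 0) (p : ℕ)
    [Fact p.Prime] :
    ((∑ τ : K →+* ℂ_[p], (-(Real.log (⨆ a : A, ‖τ (1 / (b - a))‖))) -
      Module.finrank ℚ K * (if p ∣ lossNum F A b then
        ((padicValNat p (lossNum F A b) : ℝ) + 1 / ((p : ℝ) - 1)) * Real.log p else 0) : ℝ) : EReal) ≤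
      ∑ τ : K →+* ℂ_[p], logRadius (bc τ F) (τ b) (τ y0) := by
  have h1 : (∑ τ : K →+* ℂ_[p], (-(Real.log (⨆ a : A, ‖τ (1 / (b - a))‖))) -
      Module.finrank ℚ K * (if p ∣ lossNum F A b then
        ((padicValNat p (lossNum F A b) : ℝ) + 1 / ((p : ℝ) - 1)) * Real.log p else 0) : ℝ) =
      ∑ τ : K →+* ℂ_[p], (-(Real.log (⨆ a : A, ‖τ (1 / (b - a))‖)) -
        (if p ∣ lossNum F A b then
        ((padicValNat p (lossNum F A b) : ℝ) + 1 / ((p : ℝ) - 1)) * Real.log p else 0)) := by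
    rw [Finset.sum_sub_distrib, Finset.sum_const, Finset.card_univ,
      NumberField.Embeddings.card K ℂ_[p], nsmul_eq_mul]
  rw [h1, glob_coe_sum]
  apply Finset.sum_le_sum
  intro τ _
  obtain ⟨a0, ha0, hmin, hne, hsup⟩ := glob_sup τ A hA b hb
  rw [hsup, Real.log_inv, neg_neg]
  have hv := wild_val F p
  by_cases hp : p ∣ lossNum F A b
  · rw [if_pos hp]
    rw [← lossNum_val F A b p hp] at hv
    exact p_radius_of F hF hg A hun b y0 hb hs h0 p τ (b - a0) hne hmin _ hv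
  · rw [if_neg hp, sub_zero]
    refine p_radius_zero F hF hg A hun b y0 hb hs h0 p τ (b - a0) hne hmin ?_
    by_cases hw : p ∣ wild F
    · have hgood := lossNum_not F A b p hp hw
      exact Or.inr (Or.inr ⟨hgood, (hgood.1 τ).2 a0 ha0 |>.le⟩)
    · rw [padicValNat.eq_zero_of_not_dvd hw] at hv
      exact hv.imp_right Or.inl

private theorem glob_arch {K : Type*} [Field K] [NumberField K] (F : K[X][X]) (hF : F.Monic)
    (hg : GeomIrred F) (A : Finset K) (hA : A.Nonempty) (hun : UnramifiedOutside F A) (b y0 : K)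
    (hb : b ∉ A) (hs : (at_ F b).Separable) (h0 : (at_ F b).eval y0 = 0) (g : ℕ) (hg1 : 1 ≤ g)
    (σ : K →+* ℂ) (e : Fin g → ℂ[X][X] × ℂ[X]) (he : IsONB (bc σ F) g e)
    (G : ℂ → ℂ → ℝ) (l : ℝ) (hG : IsGreen (bc σ F) e (σ b) (σ y0) G l) :
    l ≤ Real.log (⨆ a : A, ‖σ (1 / (b - a))‖) +
      ((1 / 2) * Real.log (1 + 1 / g) + (1 / g) * Real.log (1 + g)) := by
  obtain ⟨a0, ha0, hmin, hne, hsup⟩ := glob_sup σ A hA b hb
  have hr : 0 < ‖σ (b - a0)‖ := norm_pos_iff.2 ((_root_.map_ne_zero σ).2 hne)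
  obtain ⟨f, hf1, hf2, hf3⟩ := arch_section F hF hg A hun b y0 hs h0 σ _ hr hmin
  have h1 := arch (bc σ F) (hF.map _) (σ b) (σ y0) (sep_bc σ F b hs) g hg1 e he G l hG _ hr f
    hf1 hf2 hf3
  rw [hsup, Real.log_inv]
  linarith

/-- version with a number `g σ` for each embedding `σ` -/
theorem main_gal {K : Type*} [Field K] [NumberField K] (F : K[X][X]) (hF : F.Monic)
    (hg : GeomIrred F) (A : Finset K) (hA : A.Nonempty) (hun : UnramifiedOutside F A) (b y0 : K)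
    (hb : b ∉ A) (hs : (at_ F b).Separable) (h0 : (at_ F b).eval y0 = 0) (g : (K →+* ℂ) → ℕ)
    (hg1 : ∀ σ, 1 ≤ g σ) (e : ∀ σ : K →+* ℂ, Fin (g σ) → ℂ[X][X] × ℂ[X])
    (he : ∀ σ, IsONB (bc σ F) (g σ) (e σ))
    (G : (K →+* ℂ) → ℂ → ℂ → ℝ) (l : (K →+* ℂ) → ℝ)
    (hG : ∀ σ, IsGreen (bc σ F) (e σ) (σ b) (σ y0) (G σ) (l σ)) :
    height K F b y0 l ≤ ((branchHeight K A b + loss (lossNum F A b) +
      (1 / (Module.finrank ℚ K : ℝ)) * ∑ σ : K →+* ℂ, ((1 / 2) * Real.log (1 + 1 / (g σ : ℝ)) +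
        (1 / (g σ : ℝ)) * Real.log (1 + (g σ : ℝ))) : ℝ) : EReal) := by
  classical
  set n : ℝ := (Module.finrank ℚ K : ℝ) with hn
  have hn0 : 0 < n := by
    rw [hn]
    exact_mod_cast Module.finrank_pos
  set c : ℝ := ∑ σ : K →+* ℂ, ((1 / 2) * Real.log (1 + 1 / (g σ : ℝ)) +
        (1 / (g σ : ℝ)) * Real.log (1 + (g σ : ℝ))) with hc
  -- the finite part
  set cp : Nat.Primes → ℝ := fun p => haveI : Fact (p : ℕ).Prime := ⟨p.2⟩
      ∑ τ : K →+* ℂ_[(p : ℕ)], Real.log (⨆ a : A, ‖τ (1 / (b - a))‖) with hcp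
  -- support
  obtain ⟨S0, hS0⟩ : ∃ S0 : Finset Nat.Primes, ∀ p, p ∉ S0 → cp p = 0 := by
    have hx : ∀ a : A, b - a ≠ 0 := fun a h => hb (by
      rw [sub_eq_zero] at h
      exact h ▸ a.2)
    choose T hT using fun a : A => unit_ae (b - (a : K)) (hx a)
    refine ⟨Finset.univ.biUnion T, fun p hp => ?_⟩
    have : Fact (p : ℕ).Prime := ⟨p.2⟩
    simp only [hcp]
    apply Finset.sum_eq_zero
    intro τ _
    obtain ⟨a0, ha0, -, -, hsup⟩ := glob_sup τ A hA b hb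
    rw [hsup]
    have h1 := hT ⟨a0, ha0⟩ p (fun h => hp (Finset.mem_biUnion.2 ⟨_, Finset.mem_univ _, h⟩)) τ
    rw [h1, inv_one, Real.log_one]
  have hH : branchHeight K A b = (1 / n) * (∑ σ : K →+* ℂ,
      Real.log (⨆ a : A, ‖σ (1 / (b - a))‖) + ∑ p ∈ S0, cp p) := by
    rw [branchHeight, ← hn]
    congr 2
    apply finsum_eq_sum_of_support_subset
    intro p hp
    by_contra hps
    exact hp (hS0 p hps)
  -- the archimedean part
  have hl : ∑ σ : K →+* ℂ, l σ ≤ ∑ σ : K →+* ℂ, Real.log (⨆ a : A, ‖σ (1 / (b - a))‖) + c := by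
    rw [hc, ← Finset.sum_add_distrib]
    exact Finset.sum_le_sum fun σ _ =>
      glob_arch F hF hg A hA hun b y0 hb hs h0 (g σ) (hg1 σ) σ (e σ) (he σ) (G σ) (l σ) (hG σ)
  rw [height]
  apply Filter.limsup_le_of_le
  · isBoundedDefault
  filter_upwards [Filter.eventually_ge_atTop S0] with S hS
  have hfin : ((-(∑ p ∈ S0, cp p) - n * (loss (lossNum F A b)) : ℝ) : EReal) ≤
      finPart K F b y0 S := by
    have h1 : (-(∑ p ∈ S0, cp p) - n * (loss (lossNum F A b)) : ℝ) ≤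
        ∑ p ∈ S, (-(cp p) - n * (if (p : ℕ) ∣ lossNum F A b then
          ((padicValNat p (lossNum F A b) : ℝ) + 1 / ((p : ℝ) - 1)) * Real.log p else 0)) := by
      rw [Finset.sum_sub_distrib, Finset.sum_neg_distrib, ← Finset.mul_sum]
      have h2 : ∑ p ∈ S, cp p = ∑ p ∈ S0, cp p := by
        symm
        exact Finset.sum_subset hS fun p _ hp => hS0 p hp
      rw [h2]
      have h3 := mul_le_mul_of_nonneg_left (loss_sum (lossNum F A b) (lossNum_pos F A b) S) hn0.le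
      linarith
    refine le_trans (EReal.coe_le_coe_iff.2 h1) ?_
    rw [glob_coe_sum, finPart]
    apply Finset.sum_le_sum
    intro p _
    have : Fact (p : ℕ).Prime := ⟨p.2⟩
    have h2 := glob_fin F hF hg A hA hun b y0 hb hs h0 (p : ℕ)
    rw [Finset.sum_neg_distrib] at h2
    exact h2
  have h1 : (((∑ σ : K →+* ℂ, l σ : ℝ) : EReal) - finPart K F b y0 S) ≤
      ((∑ σ : K →+* ℂ, l σ + ∑ p ∈ S0, cp p + n * (loss (lossNum F A b)) : ℝ) : EReal) := by
    refine le_trans (EReal.sub_le_sub le_rfl hfin) (le_of_eq ?_)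
    rw [← EReal.coe_sub]
    congr 1
    ring
  have h2 : ((1 / n : ℝ) : EReal) * (((∑ σ : K →+* ℂ, l σ : ℝ) : EReal) - finPart K F b y0 S) ≤
      ((1 / n : ℝ) : EReal) *
      ((∑ σ : K →+* ℂ, l σ + ∑ p ∈ S0, cp p + n * (loss (lossNum F A b)) : ℝ) : EReal) := by
    apply mul_le_mul_of_nonneg_left h1
    exact_mod_cast (one_div_pos.2 hn0).le
  refine le_trans h2 ?_
  rw [← EReal.coe_mul, EReal.coe_le_coe_iff, hH]
  have h3 : 1 / n * (∑ σ : K →+* ℂ, l σ + ∑ p ∈ S0, cp p + n * (loss (lossNum F A b))) ≤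
      1 / n * (∑ σ : K →+* ℂ, Real.log (⨆ a : A, ‖σ (1 / (b - a))‖) + c + ∑ p ∈ S0, cp p +
        n * (loss (lossNum F A b))) := by
    apply mul_le_mul_of_nonneg_left _ (one_div_pos.2 hn0).le
    linarith
  refine le_trans h3 (le_of_eq ?_)
  field_simp
  ring

end GalH
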