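import Pool.Agent.GalH.Gal

/-!
The term `loss D` is at most `2 log D`, and `D ≤ d ^ |S|` if the cover has good reduction outside `S`.
-/

open Polynomial

namespace GalH

theorem loss_le (D : ℕ) (hD : D ≠ 0) : loss D ≤ 2 * Real.log D := by
  have h1 : ∑ p ∈ D.primeFactors, Real.log p / ((p : ℝ) - 1) ≤ ∑ p ∈ D.primeFactors, Real.log p := by
    refine Finset.sum_le_sum fun p hp => ?_
    have hp2 : (2 : ℝ) ≤ p := by exact_mod_cast (Nat.prime_of_mem_primeFactors hp).two_le
    rw [div_le_iff₀ (by linarith)]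
    have h3 : 0 ≤ Real.log p := Real.log_nonneg (by linarith)
    nlinarith
  have h2 : ∑ p ∈ D.primeFactors, Real.log p ≤ Real.log D := by
    rw [← Real.log_prod]
    · apply Real.log_le_log
      · refine Finset.prod_pos fun p hp => ?_
        exact_mod_cast (Nat.prime_of_mem_primeFactors hp).pos
      · have h4 := Nat.le_of_dvd (Nat.pos_of_ne_zero hD) (Nat.prod_primeFactors_dvd D)
        have h5 : (((∏ p ∈ D.primeFactors, p : ℕ)) : ℝ) ≤ D := by exact_mod_cast h4
        rwa [Nat.cast_prod] at h5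
    · intro p hp
      have := (Nat.prime_of_mem_primeFactors hp).pos
      positivity
  unfold loss
  linarith

theorem pow_dvd_lcm_two {p : ℕ} (hp : p.Prime) (k a b : ℕ) (ha : a ≠ 0) (hb : b ≠ 0)
    (h : p ^ k ∣ Nat.lcm a b) : p ^ k ∣ a ∨ p ^ k ∣ b := by
  rw [hp.pow_dvd_iff_le_factorization (Nat.lcm_ne_zero ha hb), Nat.factorization_lcm ha hb,
    Finsupp.sup_apply, le_sup_iff] at h
  rcases h with h | h
  · exact Or.inl ((hp.pow_dvd_iff_le_factorization ha).2 h)
  · exact Or.inr ((hp.pow_dvd_iff_le_factorization hb).2 h)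

theorem pow_le_of_dvd_lcm {p : ℕ} (hp : p.Prime) (k d : ℕ) (hd : d ≠ 0)
    (h : p ^ k ∣ (Finset.Icc 1 d).lcm id) : p ^ k ≤ d := by
  classical
  have key : ∀ s : Finset ℕ, (∀ x ∈ s, x ≠ 0 ∧ x ≤ d) → s.lcm id ≠ 0 ∧
      (p ^ k ∣ s.lcm id → p ^ k ≤ d) := by
    intro s
    induction s using Finset.induction_on with
    | empty =>
      intro _
      refine ⟨by simp, fun h1 => ?_⟩
      rw [Finset.lcm_empty] at h1
      rw [Nat.dvd_one.1 h1]
      exact Nat.one_le_iff_ne_zero.2 hd
    | insert a s _ ih =>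
      intro hs
      obtain ⟨h1, h2⟩ := ih fun x hx => hs x (Finset.mem_insert_of_mem hx)
      obtain ⟨ha, had⟩ := hs a (Finset.mem_insert_self a s)
      rw [Finset.lcm_insert]
      refine ⟨Nat.lcm_ne_zero ha h1, fun h3 => ?_⟩
      rcases pow_dvd_lcm_two hp k a _ ha h1 h3 with h4 | h4
      · exact (Nat.le_of_dvd (Nat.pos_of_ne_zero ha) h4).trans had
      · exact h2 h4
  refine (key _ fun x hx => ?_).2 h
  rw [Finset.mem_Icc] at hx
  omega

/-- If the cover has good reduction at all primes outside `S`, then `D ≤ d ^ |S|`. -/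
theorem lossNum_le {K : Type*} [Field K] (F : K[X][X]) (A : Finset K) (b : K)
    (hd : F.natDegree ≠ 0) (S : Finset ℕ)
    (hS : ∀ p : ℕ, p.Prime → p ∉ S → IsGood F A b p) :
    lossNum F A b ≤ F.natDegree ^ S.card := by
  classical
  unfold lossNum
  have h1 : ∀ p ∈ (wild F).primeFactors.filter (fun p => ¬ IsGood F A b p),
      p ^ (wild F).factorization p ≤ F.natDegree := by
    intro p hp
    have hpp := Nat.prime_of_mem_primeFactors (Finset.mem_filter.1 hp).1
    refine pow_le_of_dvd_lcm hpp _ _ hd ?_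
    exact (Nat.ordProj_dvd (wild F) p).trans (Nat.gcd_dvd_right _ _)
  refine (Finset.prod_le_pow_card _ _ _ h1).trans ?_
  refine Nat.pow_le_pow_right (Nat.pos_of_ne_zero hd) (Finset.card_le_card ?_)
  intro p hp
  rw [Finset.mem_filter] at hp
  by_contra hpS
  exact hp.2 (hS p (Nat.prime_of_mem_primeFactors hp.1) hpS)

theorem natDegree_ne {K : Type*} [Field K] (F : K[X][X]) (hF : F.Monic) (hg : ALC.GeomIrred F) :
    F.natDegree ≠ 0 := by
  intro h0
  have h1 : F = 1 := hF.natDegree_eq_zero.1 h0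
  have h2 : ALC.bc (algebraMap K (AlgebraicClosure K)) F = 1 := by
    rw [h1, ALC.bc, Polynomial.map_one]
  have h3 : Irreducible (ALC.bc (algebraMap K (AlgebraicClosure K)) F) := hg
  rw [h2] at h3
  exact not_irreducible_one h3

theorem lossNum_ne {K : Type*} [Field K] (F : K[X][X]) (A : Finset K) (b : K) :
    lossNum F A b ≠ 0 := by
  classical
  unfold lossNum
  refine Finset.prod_ne_zero_iff.2 fun p hp => ?_
  exact pow_ne_zero _ (Nat.prime_of_mem_primeFactors (Finset.mem_filter.1 hp).1).ne_zero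

/-- at most `2 log D` -/
theorem loss_lossNum_le {K : Type*} [Field K] (F : K[X][X]) (A : Finset K) (b : K) (N : ℕ)
    (h : lossNum F A b ≤ N) : loss (lossNum F A b) ≤ 2 * Real.log N := by
  refine (loss_le _ (lossNum_ne F A b)).trans ?_
  refine mul_le_mul_of_nonneg_left ?_ (by norm_num)
  apply Real.log_le_log
  · exact_mod_cast Nat.pos_of_ne_zero (lossNum_ne F A b)
  · exact_mod_cast h

/-- Good reduction outside `S`: at most `2 |S| log d`. -/
theorem loss_good {K : Type*} [Field K] (F : K[X][X]) (hF : F.Monic) (hg : ALC.GeomIrred F)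
    (A : Finset K) (b : K) (S : Finset ℕ)
    (hS : ∀ p : ℕ, p.Prime → p ∉ S → IsGood F A b p) :
    loss (lossNum F A b) ≤ 2 * S.card * Real.log F.natDegree := by
  have h1 := loss_lossNum_le F A b _ (lossNum_le F A b (natDegree_ne F hF hg) S hS)
  rw [Nat.cast_pow, Real.log_pow] at h1
  linarith

/-- Geometrically Galois covers: at most `2 log d`. -/
theorem loss_galois {K : Type*} [Field K] (F : K[X][X]) (hF : F.Monic) (hg : ALC.GeomIrred F)
    (A : Finset K) (b : K)
    (h : Nat.card (ALC.FF (ALC.bc (algebraMap K (AlgebraicClosure K)) F)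
      ≃ₐ[RatFunc (AlgebraicClosure K)] ALC.FF (ALC.bc (algebraMap K (AlgebraicClosure K)) F)) =
      F.natDegree) :
    loss (lossNum F A b) ≤ 2 * Real.log F.natDegree := by
  refine loss_lossNum_le F A b _ ?_
  refine Nat.le_of_dvd (Nat.pos_of_ne_zero (natDegree_ne F hF hg)) ?_
  refine dvd_trans ?_ (wild_galois F hF hg h).dvd
  classical
  unfold lossNum
  conv_rhs => rw [← Nat.prod_factorization_pow_eq_self (wild_pos F).ne']
  rw [Finsupp.prod, Nat.support_factorization]
  exact Finset.prod_dvd_prod_of_subset _ _ _ (Finset.filter_subset _ _)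

end GalH
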