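import Pool.Agent.GalH.Ext

/-!
Arithmetic of D = gcd(e, lcm(1, ..., d)).
-/

open Polynomial

namespace GalH

theorem wild_pos {K : Type*} [Field K] (F : K[X][X]) : 0 < wild F :=
  Nat.gcd_pos_of_pos_left _ (monOrd_pos F)

theorem dvd_lcm {p d n : ℕ} (hp : 0 < p) (h : p ^ n ≤ d) : p ^ n ∣ (Finset.Icc 1 d).lcm id :=
  Finset.dvd_lcm (f := id) (Finset.mem_Icc.2 ⟨Nat.one_le_pow _ _ hp, h⟩)

/-- the power of `p` in `D` -/
theorem wild_val {K : Type*} [Field K] (F : K[X][X]) (p : ℕ) [hp : Fact p.Prime] :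
    Nat.log p F.natDegree ≤ padicValNat p (wild F) ∨
      padicValNat p (monOrd F) ≤ padicValNat p (wild F) := by
  by_contra h
  rw [not_or, not_le, not_le] at h
  obtain ⟨h1, h2⟩ := h
  have hd : F.natDegree ≠ 0 := by
    intro h0
    rw [h0, Nat.log_zero_right] at h1
    omega
  have h3 : p ^ (padicValNat p (wild F) + 1) ∣ monOrd F :=
    (pow_dvd_pow p h2).trans pow_padicValNat_dvd
  have h4 : p ^ (padicValNat p (wild F) + 1) ≤ F.natDegree :=
    (Nat.pow_le_pow_right hp.out.pos h1).trans (Nat.pow_log_le_self p hd)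
  have h5 : p ^ (padicValNat p (wild F) + 1) ∣ wild F :=
    Nat.dvd_gcd h3 (dvd_lcm hp.out.pos h4)
  exact (pow_succ_padicValNat_not_dvd (wild_pos F).ne') h5

/-- the sum over the primes -/
theorem loss_sum (D : ℕ) (hD : 0 < D) (S : Finset Nat.Primes) :
    ∑ p ∈ S, (if (p : ℕ) ∣ D then ((padicValNat p D : ℝ) + 1 / ((p : ℝ) - 1)) * Real.log p else 0)
      ≤ loss D := by
  classical
  have h1 : ∑ p ∈ S, (if (p : ℕ) ∣ D then
      ((padicValNat p D : ℝ) + 1 / ((p : ℝ) - 1)) * Real.log p else 0) =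
      ∑ q ∈ S.image (fun p : Nat.Primes => (p : ℕ)), (if q ∣ D then
      ((padicValNat q D : ℝ) + 1 / ((q : ℝ) - 1)) * Real.log q else 0) := by
    rw [Finset.sum_image]
    intro a _ b _ h
    exact Subtype.ext h
  rw [h1, ← Finset.sum_filter]
  have h2 : loss D = ∑ q ∈ D.primeFactors,
      ((padicValNat q D : ℝ) + 1 / ((q : ℝ) - 1)) * Real.log q := by
    unfold loss
    have h3 : Real.log D = ∑ q ∈ D.primeFactors, (padicValNat q D : ℝ) * Real.log q := by
      conv_lhs => rw [← Nat.prod_factorization_pow_eq_self hD.ne']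
      rw [Finsupp.prod, Nat.cast_prod, Real.log_prod]
      · refine Finset.sum_congr (Nat.support_factorization D) fun q hq => ?_
        rw [Nat.cast_pow, Real.log_pow, Nat.factorization_def _
          (Nat.prime_of_mem_primeFactors hq)]
      · intro q hq
        rw [Nat.support_factorization] at hq
        have := (Nat.prime_of_mem_primeFactors hq).pos
        positivity
    rw [h3, ← Finset.sum_add_distrib]
    refine Finset.sum_congr rfl fun q _ => ?_
    ring
  rw [h2]
  apply Finset.sum_le_sum_of_subset_of_nonneg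
  · intro q hq
    rw [Finset.mem_filter, Finset.mem_image] at hq
    obtain ⟨⟨p, _, rfl⟩, hdvd⟩ := hq
    exact Nat.mem_primeFactors.2 ⟨p.2, hdvd, hD.ne'⟩
  · intro q hq _
    have hq1 : (1 : ℝ) < q := by exact_mod_cast (Nat.prime_of_mem_primeFactors hq).one_lt
    have : 0 < (q : ℝ) - 1 := by linarith
    have := Real.log_pos hq1
    positivity

end GalH
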